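import Mathlib

/-!
Binomial smoothing: `Lam j f` is the mean of `f` under the binomial distribution with `j` fair
trials.  We need its shift stability and the Hoeffding tail bound.
-/

set_option autoImplicit false

namespace Pool.Agent.P.MP_2b866c_nt.Back

/-- Mean of `f` under the binomial law with `j` fair trials. -/
noncomputable def Lam : ℕ → (ℕ → ℝ) → ℝ
  | 0, f => f 0
  | j + 1, f => Lam j f / 2 + Lam j (fun i => f (i + 1)) / 2

lemma Lam_zero (f : ℕ → ℝ) : Lam 0 f = f 0 := rfl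

lemma Lam_succ (j : ℕ) (f : ℕ → ℝ) :
    Lam (j + 1) f = Lam j f / 2 + Lam j (fun i => f (i + 1)) / 2 := rfl

lemma Lam_mono' (j : ℕ) : ∀ {f g : ℕ → ℝ}, (∀ i ≤ j, f i ≤ g i) → Lam j f ≤ Lam j g := by
  induction j with
  | zero => intro f g h; exact h 0 le_rfl
  | succ j ih =>
    intro f g h
    have h1 : Lam j f ≤ Lam j g := ih (fun i hi => h i (by omega))
    have h2 : Lam j (fun i => f (i + 1)) ≤ Lam j (fun i => g (i + 1)) :=
      ih (fun i hi => h (i + 1) (by omega))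
    rw [Lam_succ, Lam_succ]; linarith

lemma Lam_mono (j : ℕ) {f g : ℕ → ℝ} (h : ∀ i, f i ≤ g i) : Lam j f ≤ Lam j g :=
  Lam_mono' j (fun i _ => h i)

lemma Lam_add (j : ℕ) : ∀ (f g : ℕ → ℝ), Lam j (fun i => f i + g i) = Lam j f + Lam j g := by
  induction j with
  | zero => intro f g; rfl
  | succ j ih =>
    intro f g
    rw [Lam_succ, Lam_succ, Lam_succ, ih f g, ih (fun i => f (i + 1)) (fun i => g (i + 1))]
    ring

lemma Lam_smul (j : ℕ) (c : ℝ) : ∀ (f : ℕ → ℝ), Lam j (fun i => c * f i) = c * Lam j f := by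
  induction j with
  | zero => intro f; rfl
  | succ j ih =>
    intro f
    rw [Lam_succ, Lam_succ, ih f, ih (fun i => f (i + 1))]
    ring

lemma Lam_const (j : ℕ) (c : ℝ) : Lam j (fun _ => c) = c := by
  induction j with
  | zero => rfl
  | succ j ih => rw [Lam_succ, ih]; ring

lemma Lam_congr (j : ℕ) {f g : ℕ → ℝ} (h : ∀ i, f i = g i) : Lam j f = Lam j g := by
  rw [show f = g from funext h]

lemma Lam_nonneg (j : ℕ) {f : ℕ → ℝ} (h : ∀ i, 0 ≤ f i) : 0 ≤ Lam j f := by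
  have := Lam_mono j (f := fun _ => 0) (g := f) h
  rwa [Lam_const] at this

lemma Lam_sub (j : ℕ) (f g : ℕ → ℝ) : Lam j (fun i => f i - g i) = Lam j f - Lam j g := by
  have h1 := Lam_add j f (fun i => (-1) * g i)
  rw [Lam_smul] at h1
  rw [Lam_congr j (g := fun i => f i + (-1) * g i) (fun i => by ring), h1]; ring

lemma Lam_shift_eq (j : ℕ) : ∀ f : ℕ → ℝ,
    ((j : ℝ) + 1) * (Lam j f - Lam j (fun i => f (i + 1))) =
      2 * Lam (j + 1) (fun i => ((j : ℝ) + 1 - 2 * i) * f i) := by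
  induction j with
  | zero => intro f; simp [Lam]; ring
  | succ j ih =>
    intro f
    have h1 := ih f
    have h2 := ih (fun i => f (i + 1))
    have e1 : Lam (j + 1) (fun i => (((j + 1 : ℕ) : ℝ) + 1 - 2 * i) * f i) =
        Lam (j + 1) (fun i => ((j : ℝ) + 1 - 2 * i) * f i) + Lam (j + 1) f := by
      rw [← Lam_add]; apply Lam_congr; intro i; push_cast; ring
    have e2 : Lam (j + 1) (fun i => (((j + 1 : ℕ) : ℝ) + 1 - 2 * ((i + 1 : ℕ) : ℝ)) * f (i + 1)) =
        Lam (j + 1) (fun i => ((j : ℝ) + 1 - 2 * i) * f (i + 1)) -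
          Lam (j + 1) (fun i => f (i + 1)) := by
      rw [← Lam_sub]; apply Lam_congr; intro i; push_cast; ring
    rw [Lam_succ (j + 1) (fun i => (((j + 1 : ℕ) : ℝ) + 1 - 2 * i) * f i), e1, e2]
    have e3 := Lam_succ j f
    have e4 := Lam_succ j (fun i => f (i + 1))
    push_cast
    linear_combination ((j : ℝ) + 1) * e3 - ((j : ℝ) + 1) * e4 + h1 / 2 + h2 / 2

lemma Lam_var (n : ℕ) : ∀ c : ℝ, Lam n (fun i => ((n : ℝ) + c - 2 * i) ^ 2) = n + c ^ 2 := by
  induction n with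
  | zero => intro c; simp [Lam]
  | succ n ih =>
    intro c
    rw [Lam_succ]
    have h1 := ih (c + 1)
    have h2 := ih (c - 1)
    rw [Lam_congr n (g := fun i => ((n : ℝ) + (c + 1) - 2 * i) ^ 2) (fun i => by push_cast; ring),
      Lam_congr n (f := fun i => (((n + 1 : ℕ) : ℝ) + c - 2 * ((i + 1 : ℕ) : ℝ)) ^ 2)
        (g := fun i => ((n : ℝ) + (c - 1) - 2 * i) ^ 2) (fun i => by push_cast; ring), h1, h2]
    push_cast; ring

/-- One shift changes the mean of a `[0,1]`-valued function by at most `2/t` when `t^2 ≤ j+1`. -/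
lemma Lam_shift_le (j : ℕ) (t : ℝ) (ht : 0 < t) (htj : t ^ 2 ≤ (j : ℝ) + 1) (f : ℕ → ℝ)
    (h0 : ∀ i, 0 ≤ f i) (h1 : ∀ i, f i ≤ 1) :
    Lam j f ≤ Lam j (fun i => f (i + 1)) + 2 / t := by
  have hj : (0 : ℝ) < (j : ℝ) + 1 := by positivity
  have key := Lam_shift_eq j f
  set u : ℝ := ((j : ℝ) + 1) / t with hu
  have hu0 : 0 < u := by positivity
  have hb : Lam (j + 1) (fun i => ((j : ℝ) + 1 - 2 * i) * f i) ≤
      Lam (j + 1) (fun i => (1 / (2 * u)) * (((j + 1 : ℕ) : ℝ) + 0 - 2 * i) ^ 2 + u / 2) := by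
    apply Lam_mono
    intro i
    set x : ℝ := (j : ℝ) + 1 - 2 * i with hx
    have e : (((j + 1 : ℕ) : ℝ) + 0 - 2 * i) = x := by rw [hx]; push_cast; ring
    rw [e]
    have h2 : x * f i ≤ |x| := by
      calc x * f i ≤ |x| * f i := mul_le_mul_of_nonneg_right (le_abs_self x) (h0 i)
        _ ≤ |x| * 1 := mul_le_mul_of_nonneg_left (h1 i) (abs_nonneg x)
        _ = |x| := mul_one _
    have h3 : |x| ≤ (1 / (2 * u)) * x ^ 2 + u / 2 := by
      have : 0 ≤ (|x| - u) ^ 2 := sq_nonneg _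
      have e2 : |x| ^ 2 = x ^ 2 := sq_abs x
      have : 2 * u * |x| ≤ x ^ 2 + u ^ 2 := by nlinarith
      have e3 : (1 / (2 * u)) * x ^ 2 + u / 2 = (x ^ 2 + u ^ 2) / (2 * u) := by
        field_simp
      rw [e3, le_div_iff₀ (by positivity)]; linarith
    linarith
  rw [Lam_add, Lam_smul, Lam_var, Lam_const] at hb
  have e4 : (1 / (2 * u)) * ((((j + 1 : ℕ) : ℝ)) + 0 ^ 2) = t / 2 := by
    rw [hu]; push_cast; field_simp; ring
  rw [e4] at hb
  have htu : t ≤ u := by rw [hu, le_div_iff₀ ht]; nlinarith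
  have : ((j : ℝ) + 1) * (Lam j f - Lam j (fun i => f (i + 1))) ≤ ((j : ℝ) + 1) * (2 / t) := by
    have e5 : ((j : ℝ) + 1) * (2 / t) = 2 * u := by rw [hu]; field_simp
    rw [e5, key]; linarith
  have := le_of_mul_le_mul_left this hj
  linarith

lemma Lam_shift_le' (j : ℕ) (t : ℝ) (ht : 0 < t) (htj : t ^ 2 ≤ (j : ℝ) + 1) (d : ℕ) :
    ∀ (f : ℕ → ℝ), (∀ i, 0 ≤ f i) → (∀ i, f i ≤ 1) →
    Lam j f ≤ Lam j (fun i => f (i + d)) + d * (2 / t) := by
  induction d with
  | zero => intro f _ _; simp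
  | succ d ih =>
    intro f h0 h1
    have a1 := ih f h0 h1
    have a2 := Lam_shift_le j t ht htj (fun i => f (i + d)) (fun i => h0 _) (fun i => h1 _)
    have e : (fun i => f (i + 1 + d)) = fun i => f (i + (d + 1)) := by
      funext i; congr 1; omega
    simp only [e] at a2
    push_cast; linarith

lemma Lam_exp (n : ℕ) (l : ℝ) : ∀ c : ℝ,
    Lam n (fun i => Real.exp (l * (2 * i - n) + c)) = Real.exp c * Real.cosh l ^ n := by
  induction n with
  | zero => intro c; simp [Lam]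
  | succ n ih =>
    intro c
    rw [Lam_succ]
    rw [Lam_congr n (g := fun i => Real.exp (l * (2 * i - n) + (c - l)))
        (fun i => by push_cast; ring_nf),
      Lam_congr n (f := fun i => Real.exp (l * (2 * ((i + 1 : ℕ) : ℝ) - ((n + 1 : ℕ) : ℝ)) + c))
        (g := fun i => Real.exp (l * (2 * i - n) + (c + l))) (fun i => by push_cast; ring_nf),
      ih, ih, Real.cosh_eq l, Real.exp_sub, Real.exp_add, Real.exp_neg, pow_succ]
    field_simp
    ring

/-- Hoeffding bound with a free parameter. -/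
lemma Lam_tail (n : ℕ) (l t : ℝ) (hl : 0 ≤ l) (f : ℕ → ℝ) (h1 : ∀ i, f i ≤ 1)
    (h0 : ∀ i : ℕ, |2 * (i : ℝ) - n| < t → f i ≤ 0) :
    Lam n f ≤ 2 * Real.exp (n * l ^ 2 / 2 - l * t) := by
  have hb : Lam n f ≤ Lam n (fun i => Real.exp (l * (2 * i - n) + (-(l * t))) +
      Real.exp ((-l) * (2 * i - n) + (-(l * t)))) := by
    apply Lam_mono
    intro i
    have p1 := Real.exp_pos (l * (2 * i - n) + (-(l * t)))
    have p2 := Real.exp_pos ((-l) * (2 * i - n) + (-(l * t)))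
    by_cases hi : |2 * (i : ℝ) - n| < t
    · have := h0 i hi; linarith
    · push Not at hi
      have := h1 i
      rcases le_abs.1 hi with h | h
      · have : 1 ≤ Real.exp (l * (2 * i - n) + (-(l * t))) := by
          apply Real.one_le_exp; nlinarith
        linarith
      · have : 1 ≤ Real.exp ((-l) * (2 * i - n) + (-(l * t))) := by
          apply Real.one_le_exp; nlinarith
        linarith
  rw [Lam_add, Lam_exp, Lam_exp, Real.cosh_neg] at hb
  have hc : Real.cosh l ^ n ≤ Real.exp (n * l ^ 2 / 2) := by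
    calc Real.cosh l ^ n ≤ Real.exp (l ^ 2 / 2) ^ n :=
          pow_le_pow_left₀ (Real.cosh_pos l).le (Real.cosh_le_exp_half_sq l) n
      _ = Real.exp (n * l ^ 2 / 2) := by rw [← Real.exp_nat_mul]; ring_nf
  have e : Real.exp (n * l ^ 2 / 2 - l * t) = Real.exp (-(l * t)) * Real.exp (n * l ^ 2 / 2) := by
    rw [← Real.exp_add]; ring_nf
  rw [e]
  have := mul_le_mul_of_nonneg_left hc (Real.exp_pos (-(l * t))).le
  linarith

/-- Exponential decay beats any power. -/
lemma exp_le_pow (c : ℝ) (hc : 0 < c) (A : ℕ) :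
    ∃ C : ℝ, 0 < C ∧ ∀ x : ℝ, 0 < x → Real.exp (-(c * x)) ≤ C / x ^ A := by
  refine ⟨A.factorial / c ^ A, by positivity, fun x hx => ?_⟩
  have h := Real.pow_div_factorial_le_exp (c * x) (by positivity) A
  rw [Real.exp_neg, inv_le_comm₀ (Real.exp_pos _) (by positivity)]
  refine le_trans (le_of_eq ?_) h
  rw [mul_pow]; field_simp

end Pool.Agent.P.MP_2b866c_nt.Back
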