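import Pool.Agent.P.MP_2b866c_nt.Back.Pop

/-!
From the mass bound to a positive proportion of integers in a window of sizes.
-/

set_option autoImplicit false

namespace Pool.Agent.P.MP_2b866c_nt.Back

open Finset

lemma cross (y : ℝ) (b : ℤ) (n : ℕ) : ∀ u : List Bool, 1 < 2 * y * wt u →
    ∑ v ∈ words n, (if y * wt (u ++ v) ≤ 1 then W (u ++ v) (fun _ => (1 : ℝ)) b else 0) ≤
      ∑ t ∈ range (n + 1), ∑ v ∈ words t,
        if y * wt (u ++ v) ≤ 1 ∧ 1 < 2 * y * wt (u ++ v) then W (u ++ v) (q (n - t)) b else 0 := by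
  have nn : ∀ (u : List Bool) (n t : ℕ), 0 ≤ ∑ v ∈ words t,
      if y * wt (u ++ v) ≤ 1 ∧ 1 < 2 * y * wt (u ++ v) then W (u ++ v) (q (n - t)) b else 0 := by
    intro u n t
    apply sum_nonneg; intro v _
    split_ifs
    · exact W_nonneg _ (q_nonneg _) b
    · exact le_rfl
  have first : ∀ (n : ℕ) (u : List Bool), 1 < 2 * y * wt u → y * wt u ≤ 1 →
      ∑ v ∈ words n, (if y * wt (u ++ v) ≤ 1 then W (u ++ v) (fun _ => (1 : ℝ)) b else 0) ≤
      ∑ t ∈ range (n + 1), ∑ v ∈ words t,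
        if y * wt (u ++ v) ≤ 1 ∧ 1 < 2 * y * wt (u ++ v) then W (u ++ v) (q (n - t)) b else 0 := by
    intro n u h1 h2
    refine le_trans ?_ (single_le_sum (fun t _ => nn u n t) (mem_range.2 (Nat.succ_pos n)))
    simp only [words, sum_singleton, List.append_nil, Nat.sub_zero, h1, h2, and_self, if_true]
    have : W u (q n) b = ∑ v ∈ words n, W (u ++ v) (fun _ => (1 : ℝ)) b := by
      unfold q; rw [W_sum]; simp only [W_append]
    rw [this]
    apply sum_le_sum; intro v _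
    split_ifs
    · exact le_rfl
    · exact W_nonneg _ (fun _ => zero_le_one) b
  induction n with
  | zero =>
    intro u h1
    by_cases h2 : y * wt u ≤ 1
    · exact first 0 u h1 h2
    · simp [words, h2]
  | succ n ih =>
    intro u h1
    by_cases h2 : y * wt u ≤ 1
    · exact first (n + 1) u h1 h2
    push Not at h2
    have w0 : wt [false] = 1 / 2 := by simp [wt, cnt]
    have w1 : wt [true] = 3 / 2 := by simp [wt, cnt]
    have a0 := ih (u ++ [false]) (by rw [wt_append, w0]; linarith)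
    have a1 := ih (u ++ [true]) (by rw [wt_append, w1]; linarith)
    simp only [List.append_assoc, List.singleton_append] at a0 a1
    rw [sum_words_succ, sum_range_succ']
    have a2 := nn u (n + 1) 0
    simp only [sum_words_succ, Nat.add_sub_add_right, sum_add_distrib]
    linarith

lemma pt_pos (w : List Bool) : ∀ b : ℤ, 0 < b → adm w b → 0 < pt w b := by
  induction w with
  | nil => intro b hb _; exact hb
  | cons a w ih =>
    intro b hb h
    cases a
    · exact ih _ (by omega) h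
    · exact ih _ (by have := h.1; omega) h.2

lemma suffix (b : ℤ) (w : List Bool) : ∀ w' : List Bool, w.length ≤ w'.length → adm w b →
    adm w' b → pt w b = pt w' b → ∃ x, w' = x ++ w ∧ adm x b ∧ pt x b = b := by
  induction w using List.reverseRecOn with
  | nil => intro w' _ _ h2 h3; exact ⟨w', by simp, h2, h3.symm⟩
  | append_singleton w a ih =>
    intro w' hl h1 h2 h3
    rcases List.eq_nil_or_concat w' with rfl | ⟨w', a', rfl⟩
    · simp at hl
    rw [List.concat_eq_append] at *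
    rw [adm_append] at h1 h2
    rw [pt_append, pt_append] at h3
    have hl' : w.length ≤ w'.length := by simpa using hl
    have key : a = a' ∧ pt w b = pt w' b := by
      cases a <;> cases a' <;> simp only [adm, pt, and_true] at h1 h2 h3
      · exact ⟨rfl, by omega⟩
      · have := h2.2; omega
      · have := h1.2; omega
      · have := h1.2; have := h2.2; exact ⟨rfl, by omega⟩
    obtain ⟨x, hx1, hx2, hx3⟩ := ih w' hl' h1.1 h2.1 key.2
    exact ⟨x, by rw [hx1, key.1, List.append_assoc], hx2, hx3⟩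

lemma pt_of_cnt_zero (w : List Bool) : ∀ b : ℤ, cnt w = 0 → pt w b = 2 ^ w.length * b := by
  induction w with
  | nil => intro b _; simp [pt]
  | cons a w ih =>
    intro b h
    cases a
    · simp only [pt, List.length_cons]; rw [ih _ h]; ring
    · simp [cnt] at h

/-- Odd part. -/
def od (n : ℕ) : ℕ := n / 2 ^ padicValNat 2 n

/-- The accelerated map on odd integers. -/
def Cm (n : ℕ) : ℕ := (3 * n + 1) / 2 ^ padicValNat 2 (3 * n + 1)

lemma od_two_mul (n : ℕ) : od (2 * n) = od n := by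
  unfold od
  rcases Nat.eq_zero_or_pos n with rfl | hn
  · simp
  rw [padicValNat.mul (by norm_num) hn.ne', padicValNat.self (by norm_num), pow_add, pow_one,
    Nat.mul_div_mul_left _ _ (by norm_num)]

lemma od_odd {n : ℕ} (h : n % 2 = 1) : od n = n := by
  unfold od
  rw [padicValNat.eq_zero_of_not_dvd (by omega)]; simp

lemma od_pow_mul (j : ℕ) {a : ℕ} (h : a % 2 = 1) : od (2 ^ j * a) = a := by
  induction j with
  | zero => simpa using od_odd h
  | succ j ih => rw [pow_succ', mul_assoc, od_two_mul, ih]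

lemma iter_pt (w : List Bool) : ∀ b : ℤ, 0 < b → adm w b →
    Cm^[cnt w] (od (pt w b).toNat) = od b.toNat := by
  induction w with
  | nil => intro b _ _; rfl
  | cons a w ih =>
    intro b hb h
    cases a
    · have := ih _ (by omega) h
      simp only [cnt, pt]
      rw [this, show (2 * b).toNat = 2 * b.toNat by omega, od_two_mul]
    · have h1 := h.1
      have := ih _ (by omega) h.2
      simp only [cnt, pt]
      rw [Function.iterate_succ_apply', this, od_odd (by omega), ← od_two_mul b.toNat]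
      unfold Cm od
      rw [show 3 * ((2 * b - 1) / 3).toNat + 1 = 2 * b.toNat by omega]

lemma iter_pt_last (w : List Bool) : ∀ b : ℤ, 0 < b → adm w b → 1 ≤ cnt w →
    2 * b.toNat ≤ 3 * Cm^[cnt w - 1] (od (pt w b).toNat) + 1 := by
  induction w with
  | nil => intro b _ _ h; simp [cnt] at h
  | cons a w ih =>
    intro b hb h hc
    cases a
    · have := ih _ (by omega) h hc
      simp only [cnt, pt]
      omega
    · have h1 := h.1
      have := iter_pt w _ (by omega) h.2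
      simp only [cnt, pt, Nat.add_sub_cancel]
      rw [this, od_odd (by omega)]
      omega

lemma exists_far (a : ℕ) (ha : 0 < a) : ∃ J, ∀ j, J ≤ j → ∀ k, Cm^[k + 1] a = a →
    ∀ k', 3 * Cm^[k'] a + 1 < 2 * (2 ^ j * a) := by
  by_cases h : ∃ k, Cm^[k + 1] a = a
  · obtain ⟨k, hk⟩ := h
    refine ⟨3 * (range (k + 1)).sup (fun i => Cm^[i] a) + 1, fun j hj _ _ k' => ?_⟩
    have h1 : Cm^[k' % (k + 1)] a = Cm^[k'] a :=
      Function.IsPeriodicPt.iterate_mod_apply (f := Cm) (n := k + 1) hk k'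
    have h2 : Cm^[k' % (k + 1)] a ≤ (range (k + 1)).sup (fun i => Cm^[i] a) :=
      le_sup (f := fun i => Cm^[i] a) (mem_range.2 (Nat.mod_lt _ (by omega)))
    have h3 : j < 2 ^ j := Nat.lt_two_pow_self
    have h4 : 2 ^ j ≤ 2 ^ j * a := Nat.le_mul_of_pos_right _ ha
    omega
  · exact ⟨0, fun j _ k hk => absurd ⟨k, hk⟩ h⟩

/-- Words of length at most `n`. -/
def wle (n : ℕ) : Finset (List Bool) := (range (n + 1)).biUnion words

lemma mem_wle {n : ℕ} {w : List Bool} : w ∈ wle n ↔ w.length ≤ n := by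
  simp only [wle, mem_biUnion, mem_range, mem_words]
  exact ⟨fun ⟨t, h1, h2⟩ => by omega, fun h => ⟨_, by omega, rfl⟩⟩

lemma sum_wle (n : ℕ) (φ : List Bool → ℝ) :
    ∑ w ∈ wle n, φ w = ∑ t ∈ range (n + 1), ∑ w ∈ words t, φ w := by
  unfold wle
  apply sum_biUnion
  intro t _ t' _ h
  simp only [Function.onFun, disjoint_left, mem_words]
  intro w h1 h2
  exact h (h1.symm.trans h2)

/-- Upper bound for the squared size ratio on typical words. -/
noncomputable def U (i : ℕ) : ℝ := (4 / 3) ^ (i ^ 4) * 3 ^ (i ^ 3)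

lemma three_le_pow {e d : ℕ} (h : 4 * e ≤ d) : (3 : ℝ) ^ e ≤ (4 / 3) ^ d := by
  calc (3 : ℝ) ^ e ≤ ((4 / 3) ^ 4) ^ e := pow_le_pow_left₀ (by norm_num) (by norm_num) e
    _ = (4 / 3) ^ (4 * e) := by rw [← pow_mul]
    _ ≤ _ := pow_le_pow_right₀ (by norm_num) h

lemma wt_sq (w : List Bool) : wt w ^ 2 = 3 ^ (2 * cnt w) / 4 ^ w.length := by
  unfold wt
  rw [div_pow, ← pow_mul, ← pow_mul, mul_comm (cnt w), mul_comm w.length, pow_mul 2]; norm_num

lemma wt_lower {i : ℕ} {y : ℝ} (hy : 0 < y) (h : U i < y ^ 2) {u : List Bool} (hu : u ∈ Pi i) :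
    1 < y * wt u := by
  obtain ⟨u0, u1, _, _⟩ := mem_filter.1 hu
  have h1 : 1 ≤ U i * wt u ^ 2 := by
    rw [wt_sq, mem_words.1 u0, U, div_pow]
    have : (3 : ℝ) ^ (i ^ 4) ≤ 3 ^ (i ^ 3) * 3 ^ (2 * cnt u) := by
      rw [← pow_add]; exact pow_le_pow_right₀ (by norm_num) (by omega)
    calc (1 : ℝ) = 3 ^ (i ^ 4) / 3 ^ (i ^ 4) := by field_simp
      _ ≤ 3 ^ (i ^ 3) * 3 ^ (2 * cnt u) / 3 ^ (i ^ 4) :=
          div_le_div_of_nonneg_right this (by positivity)
      _ = _ := by field_simp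
  have h2 : 1 ^ 2 < (y * wt u) ^ 2 := by
    have := mul_lt_mul_of_pos_right h (pow_pos (wt_pos u) 2)
    rw [mul_pow]; linarith
  exact lt_of_pow_lt_pow_left₀ 2 (mul_pos hy (wt_pos u)).le h2

lemma wt_upper {i : ℕ} (hi : 244 ≤ i) {y : ℝ} (h : y ^ 2 ≤ U (i + 1)) {w : List Bool}
    (h1 : w.length = i ^ 4 + 20 * i ^ 3) (h2 : 2 * cnt w ≤ i ^ 4 + 22 * i ^ 3) :
    y * wt w ≤ 1 := by
  have hn4 : (i + 1) ^ 4 = i ^ 4 + (4 * i ^ 3 + 6 * i ^ 2 + 4 * i + 1) := by ring
  have hn3 : (i + 1) ^ 3 = i ^ 3 + 3 * i ^ 2 + 3 * i + 1 := by ring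
  have p1 : 244 * i ≤ i ^ 2 := by rw [pow_two]; exact Nat.mul_le_mul_right _ hi
  have p2 : 244 * i ^ 2 ≤ i ^ 3 := by
    rw [show i ^ 3 = i * i ^ 2 by ring]; exact Nat.mul_le_mul_right _ hi
  obtain ⟨d, hd⟩ : ∃ d, w.length = (i + 1) ^ 4 + d := ⟨w.length - (i + 1) ^ 4, by omega⟩
  have a1 := three_le_pow (e := (i + 1) ^ 3 + 2 * i ^ 3) (d := d) (by omega)
  have a2 : (3 : ℝ) ^ ((i + 1) ^ 3) * 3 ^ (2 * cnt w) ≤
      3 ^ ((i + 1) ^ 3 + 2 * i ^ 3) * 3 ^ w.length := by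
    rw [← pow_add, ← pow_add]; exact pow_le_pow_right₀ (by norm_num) (by omega)
  have a3 : U (i + 1) * wt w ^ 2 ≤ 1 := by
    rw [wt_sq, U, ← mul_div_assoc, div_le_one (by positivity), mul_assoc]
    calc _ ≤ (4 / 3 : ℝ) ^ ((i + 1) ^ 4) * ((4 / 3) ^ d * 3 ^ w.length) := by
          apply mul_le_mul_of_nonneg_left _ (by positivity)
          exact a2.trans (mul_le_mul_of_nonneg_right a1 (by positivity))
      _ = _ := by rw [← mul_assoc, ← pow_add, ← hd, ← mul_pow]; norm_num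
  have h3 : (y * wt w) ^ 2 ≤ 1 ^ 2 := by
    have := mul_le_mul_of_nonneg_right h (pow_pos (wt_pos w) 2).le
    rw [mul_pow]; linarith
  exact (abs_le_of_sq_le_sq' h3 (by norm_num)).2

lemma three_pow_le_y {i : ℕ} (hi : 244 ≤ i) {y : ℝ} (hy : 0 < y) (h : U i < y ^ 2) :
    (3 : ℝ) ^ (20 * i ^ 3) ≤ y := by
  have h1 : 244 * i ^ 3 ≤ i ^ 4 := by
    rw [show i ^ 4 = i * i ^ 3 by ring]; exact Nat.mul_le_mul_right _ hi
  have a1 := three_le_pow (e := 20 * i ^ 3 * 2) (d := i ^ 4) (by omega)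
  have a2 : (4 / 3 : ℝ) ^ (i ^ 4) ≤ U i := le_mul_of_one_le_right (by positivity)
    (one_le_pow₀ (by norm_num))
  rw [pow_mul] at a1
  exact (abs_le_of_sq_le_sq' (by linarith) hy.le).2

lemma final_mass : ∃ i1 : ℕ, 244 ≤ i1 ∧ ∀ i, i1 ≤ i → ∀ b : ℤ,
    1 / 4 ≤ ∑ u ∈ Pi i, W u (q (i ^ 3)) b →
    1 / 5 ≤ ∑ u ∈ Pi i, ∑ v ∈ (words (20 * i ^ 3)).filter (fun v => 2 * cnt v ≤ 21 * i ^ 3),
      W (u ++ v) (fun _ => (1 : ℝ)) b := by
  obtain ⟨C, hC, h⟩ := block
  obtain ⟨C3, hC3, hE⟩ := exp_le_pow (1 / 40) (by norm_num) 10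
  obtain ⟨i1, hi1⟩ : ∃ i1, i1 = ⌈20 * (6 * C + 12 * C3)⌉₊ + 244 := ⟨_, rfl⟩
  refine ⟨i1, by omega, fun i hi b hb => ?_⟩
  have hi0 : (0 : ℝ) < i := by exact_mod_cast (by omega : 0 < i)
  have hi1' : (1 : ℝ) ≤ i := by exact_mod_cast (by omega : 1 ≤ i)
  set V := (words (20 * i ^ 3)).filter (fun v => 2 * cnt v ≤ 21 * i ^ 3) with hV
  have b1 := h i (20 * i ^ 3) 0 (by omega) (by omega) (by omega) V (filter_subset _ _) b
  rw [show q 0 = fun _ => (1 : ℝ) from funext q_zero] at b1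
  have b3 := card_tail (words (20 * i ^ 3) \ V) sdiff_subset (1 / 20) (i ^ 3) (by positivity) (by
    intro w hw
    obtain ⟨w1, w2⟩ := mem_sdiff.1 hw
    have w3 : 21 * i ^ 3 < 2 * cnt w := by
      by_contra hc
      exact w2 (mem_filter.2 ⟨w1, by omega⟩)
    have : 21 * (i : ℝ) ^ 3 < 2 * cnt w := by exact_mod_cast w3
    push_cast
    exact le_trans (by linarith) (le_abs_self _))
  have b4 : Real.exp (((20 * i ^ 3 : ℕ) : ℝ) * (1 / 20) ^ 2 / 2 - 1 / 20 * (i ^ 3)) ≤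
      C3 / (i : ℝ) ^ 10 := by
    refine le_trans (Real.exp_le_exp.2 ?_) (hE i hi0)
    have : (i : ℝ) ≤ (i : ℝ) ^ 3 := le_self_pow₀ hi1' (by norm_num)
    push_cast; linarith
  have b5 : 6 * (i : ℝ) ^ 8 * (C / (i : ℝ) ^ 12 +
      ((words (20 * i ^ 3) \ V).card : ℝ) / 2 ^ (20 * i ^ 3)) ≤ 1 / 20 := by
    have a1 : C / (i : ℝ) ^ 12 ≤ C / (i : ℝ) ^ 10 :=
      div_le_div_of_nonneg_left hC.le (by positivity) (pow_le_pow_right₀ hi1' (by norm_num))
    have a2 : 20 * (6 * C + 12 * C3) ≤ (i : ℝ) := by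
      have := Nat.le_ceil (20 * (6 * C + 12 * C3))
      have a3 : ((⌈20 * (6 * C + 12 * C3)⌉₊ : ℕ) : ℝ) ≤ i := by exact_mod_cast (by omega)
      linarith
    have a3 : (i : ℝ) ≤ (i : ℝ) ^ 2 := le_self_pow₀ hi1' (by norm_num)
    calc _ ≤ 6 * (i : ℝ) ^ 8 * (C / (i : ℝ) ^ 10 + 2 * (C3 / (i : ℝ) ^ 10)) :=
          mul_le_mul_of_nonneg_left (by linarith) (by positivity)
      _ = (6 * C + 12 * C3) / (i : ℝ) ^ 2 := by field_simp; ring
      _ ≤ _ := by rw [div_le_div_iff₀ (by positivity) (by norm_num)]; linarith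
  linarith

lemma q_le_osc (k n k' : ℕ) (h : k' ≤ n) (x : ℤ) : q k' x ≤ 2 ^ k + osc k n x := by
  rcases le_total k' k with h1 | h1
  · have a1 := q_le k' x
    have a2 : (2 : ℝ) ^ k' ≤ 2 ^ k := pow_le_pow_right₀ (by norm_num) h1
    have := osc_nonneg k n x
    linarith
  · have a1 := (abs_le.1 (abs_le_osc h1 x)).2
    have a2 := q_le k x
    have := osc_mono k h x
    linarith

theorem count (a : ℕ) (ha : a % 2 = 1) (h3 : ¬ 3 ∣ a) : ∃ (B : ℕ) (c : ℝ) (i1 : ℕ), 0 < B ∧ 0 < c ∧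
    244 ≤ i1 ∧ ∀ i, i1 ≤ i → ∀ y : ℝ, 0 < y → U i < y ^ 2 → y ^ 2 ≤ U (i + 1) →
      ∃ A : Finset ℕ, c * y ≤ A.card ∧ ∀ m ∈ A, 0 < m ∧ (m : ℝ) < 2 * B * y ∧
        ∃ l, i ^ 4 ≤ 2 * l + i ^ 3 ∧ 2 * l ≤ i ^ 4 + 41 * i ^ 3 ∧ Cm^[l] (od m) = a ∧
          ∀ k < l, Cm^[k] (od m) ≠ a := by
  classical
  obtain ⟨i0, hi0, hmass⟩ := mass
  obtain ⟨i1, hi1, hfin⟩ := final_mass
  obtain ⟨J, hJ⟩ := exists_far a (by omega)
  obtain ⟨j, hj, hm⟩ := hmass a (by exact_mod_cast h3) J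
  have hfar := hJ j hj
  obtain ⟨C, hC, hosc⟩ := avg_osc
  obtain ⟨B, hB⟩ : ∃ B : ℕ, B = 2 ^ j * a := ⟨_, rfl⟩
  have hB0 : 0 < B := by rw [hB]; exact Nat.mul_pos (by positivity) (by omega)
  have hb : (2 : ℤ) ^ j * a = B := by rw [hB]; push_cast; rfl
  have hodB : od B = a := by rw [hB]; exact od_pow_mul j ha
  rw [hb] at hm
  rw [← hB] at hfar
  have hB0' : (0 : ℤ) < B := by exact_mod_cast hB0
  obtain ⟨k, hk⟩ : ∃ k : ℕ, k = ⌈10 * ((2 * B + 2) * C)⌉₊ + 1 := ⟨_, rfl⟩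
  have hk1 : (2 * B + 2) * (C / k) ≤ 1 / 10 := by
    have a1 := Nat.le_ceil (10 * ((2 * B + 2) * C))
    have a2 : (k : ℝ) = (⌈10 * ((2 * B + 2) * C)⌉₊ : ℕ) + 1 := by rw [hk]; push_cast; rfl
    have a3 : (0 : ℝ) < k := by exact_mod_cast (by omega : 0 < k)
    rw [← mul_div_assoc, div_le_div_iff₀ a3 (by norm_num)]; linarith
  have hit : ∀ w, adm w B → Cm^[cnt w] (od (pt w B).toNat) = a ∧
      ∀ k < cnt w, Cm^[k] (od (pt w B).toNat) ≠ a := by
    intro w hw
    have e1 := iter_pt w B hB0' hw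
    rw [Int.toNat_natCast, hodB] at e1
    refine ⟨e1, fun k hk hka => ?_⟩
    have e2 := iter_pt_last w B hB0' hw (by omega)
    rw [Int.toNat_natCast] at e2
    obtain ⟨d, hd⟩ : ∃ d, cnt w = d + 1 + k := ⟨cnt w - 1 - k, by omega⟩
    rw [hd, Function.iterate_add_apply, hka] at e1
    rw [hd, show d + 1 + k - 1 = d + k by omega, Function.iterate_add_apply, hka] at e2
    have := hfar d e1 d
    omega
  have hinj : ∀ w w', w.length ≤ w'.length → adm w B → adm w' B → pt w B = pt w' B → w = w' := by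
    intro w w' hl h1 h2 h3
    obtain ⟨x, rfl, hx2, hx3⟩ := suffix B w w' hl h1 h2 h3
    rcases Nat.eq_zero_or_pos (cnt x) with h0 | h0
    · rw [pt_of_cnt_zero x _ h0] at hx3
      have a1 : (2 : ℤ) ^ x.length = 1 := by
        apply mul_right_cancel₀ hB0'.ne'; rw [hx3, one_mul]
      have a2 : x.length = 0 := by
        by_contra hne
        have := one_lt_pow₀ (by norm_num : (1 : ℤ) < 2) hne
        omega
      rw [List.eq_nil_of_length_eq_zero a2, List.nil_append]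
    · have := (hit x hx2).2 0 h0
      rw [hx3, Int.toNat_natCast, hodB] at this
      exact absurd rfl this
  refine ⟨B, 1 / (10 * 2 ^ k), max i0 i1, hB0, by positivity, by omega, ?_⟩
  intro i hi y hy hU1 hU2
  have hi' : 244 ≤ i := by omega
  obtain ⟨n, hn⟩ : ∃ n, n = 20 * i ^ 3 := ⟨_, rfl⟩
  have m1 := hfin i (by omega) B (hm i (by omega))
  have hy3 := three_pow_le_y hi' hy hU1
  rw [← hn] at m1 hy3
  set Q : ℤ → ℝ := fun x => 2 ^ k + osc k n x with hQ
  have hQ0 : ∀ x, 0 ≤ Q x := fun x => add_nonneg (by positivity) (osc_nonneg _ _ _)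
  set φ : List Bool → ℝ := fun w => if y * wt w ≤ 1 ∧ 1 < 2 * y * wt w then W w Q B else 0 with hφ
  have hφ0 : ∀ w, 0 ≤ φ w := by
    intro w; simp only [hφ]; split_ifs
    · exact W_nonneg _ hQ0 _
    · exact le_rfl
  have m2 : 1 / 5 ≤ ∑ u ∈ Pi i, ∑ v ∈ wle n, φ (u ++ v) := by
    refine m1.trans (sum_le_sum fun u hu => ?_)
    have a1 := wt_lower hy hU1 hu
    refine le_trans ?_ ((cross y B n u (by linarith)).trans ?_)
    · rw [sum_filter]
      apply sum_le_sum; intro v hv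
      obtain ⟨u0, _, u2, _⟩ := mem_filter.1 hu
      split_ifs with c1 c2
      · exact le_rfl
      · exact absurd (wt_upper hi' hU2 (by
          rw [List.length_append, mem_words.1 u0, mem_words.1 hv, hn])
          (by rw [cnt_append]; omega)) c2
      · exact W_nonneg _ (fun _ => zero_le_one) _
      · exact le_rfl
    · rw [sum_wle]
      apply sum_le_sum; intro t _
      apply sum_le_sum; intro v _
      simp only [hφ]
      split_ifs
      · exact W_mono _ (q_le_osc k n _ (by omega)) _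
      · exact le_rfl
  set P0 := (wle (i ^ 4 + n)).filter
    (fun w => i ^ 4 ≤ 2 * cnt w + i ^ 3 ∧ 2 * cnt w ≤ i ^ 4 + 41 * i ^ 3) with hP0
  have m3 := sum_pair_le (Pi i) (wle n) P0 (filter_subset _ _) (by
    intro u hu v hv
    obtain ⟨u0, u1, u2, _⟩ := mem_filter.1 hu
    have v0 := mem_wle.1 hv
    have v1 := cnt_le v
    refine mem_filter.2 ⟨mem_wle.2 (by rw [List.length_append, mem_words.1 u0]; omega), ?_, ?_⟩
    · rw [cnt_append]; omega
    · rw [cnt_append]; omega) φ hφ0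
  set P1 := P0.filter (fun w => (y * wt w ≤ 1 ∧ 1 < 2 * y * wt w) ∧ adm w B) with hP1
  set A0 := P1.image (fun w => pt w B) with hA0
  have hA0m : ∀ m ∈ A0, 0 < m ∧ (m : ℝ) < 2 * B * y := by
    intro m hm
    obtain ⟨w, hw, rfl⟩ := mem_image.1 hm
    obtain ⟨_, ⟨_, w2⟩, w3⟩ := mem_filter.1 hw
    have p := pt_pos w B hB0' w3
    refine ⟨p, ?_⟩
    have p' : (0 : ℝ) < pt w B := by exact_mod_cast p
    have a1 : (3 : ℝ) ^ cnt w * pt w B + F w = 2 ^ w.length * B := by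
      exact_mod_cast pt_eq w B w3
    have a2 : wt w * pt w B ≤ B := by
      unfold wt
      rw [div_mul_eq_mul_div, div_le_iff₀ (by positivity)]
      have : (0 : ℝ) ≤ F w := Nat.cast_nonneg _
      linarith
    have a3 := mul_lt_mul_of_pos_right w2 p'
    nlinarith
  have m4 : ∑ w ∈ P0, φ w ≤ 1 / y * ∑ m ∈ A0, Q m := by
    rw [hA0, sum_image, mul_sum, hP1, sum_filter (s := P0)]
    · apply sum_le_sum; intro w _
      by_cases c1 : y * wt w ≤ 1 ∧ 1 < 2 * y * wt w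
      · by_cases c2 : adm w B
        · simp only [hφ, W, if_pos c1, if_pos c2, if_pos (And.intro c1 c2)]
          rw [smul_eq_mul]
          apply mul_le_mul_of_nonneg_right _ (hQ0 _)
          rw [le_div_iff₀ hy]; linarith [c1.1]
        · simp only [hφ, W, if_pos c1, if_neg c2, if_neg (fun h : _ ∧ _ => c2 h.2), le_refl]
      · simp only [hφ, if_neg c1, if_neg (fun h : _ ∧ _ => c1 h.1), le_refl]
    · intro u hu v hv h
      rcases le_total u.length v.length with hl | hl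
      · exact hinj u v hl (mem_filter.1 hu).2.2 (mem_filter.1 hv).2.2 h
      · exact (hinj v u hl (mem_filter.1 hv).2.2 (mem_filter.1 hu).2.2 h.symm).symm
  have hy1 : 1 ≤ y := le_trans (one_le_pow₀ (by norm_num)) hy3
  have m5 : ∑ m ∈ A0, osc k n m ≤ y / 10 := by
    have a1 := sum_interval (per_osc k (le_refl n)) (osc_nonneg k n) A0 0 ⌈2 * B * y⌉₊ (by
      intro m hm
      obtain ⟨a1, a2⟩ := hA0m m hm
      refine ⟨a1.le, ?_⟩
      have := a2.trans_le (Nat.le_ceil _)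
      rw [zero_add]
      exact_mod_cast this)
    have a2 := (hosc k n n (by omega) le_rfl).2
    have a3 : ((⌈2 * B * y⌉₊ : ℕ) : ℝ) < 2 * B * y + 1 := Nat.ceil_lt_add_one (by positivity)
    calc _ ≤ _ := a1
      _ ≤ ((2 * B + 2) * y) * (C / k) :=
          mul_le_mul (by linarith) a2 (avg_nonneg _ (osc_nonneg k n)) (by positivity)
      _ = y * ((2 * B + 2) * (C / k)) := by ring
      _ ≤ y * (1 / 10) := mul_le_mul_of_nonneg_left hk1 hy.le
      _ = _ := by ring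
  have m6 : y / 5 ≤ ∑ m ∈ A0, Q m := by
    have := (m2.trans m3).trans m4
    rw [one_div_mul_eq_div, div_le_div_iff₀ (by norm_num) hy] at this
    linarith
  simp only [hQ, sum_add_distrib, sum_const, nsmul_eq_mul] at m6
  refine ⟨A0.image Int.toNat, ?_, ?_⟩
  · rw [card_image_of_injOn (fun m hm m' hm' h => by
      have := (hA0m m hm).1
      have := (hA0m m' hm').1
      omega)]
    rw [one_div_mul_eq_div, div_le_iff₀ (by positivity)]
    linarith
  · intro m hm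
    obtain ⟨m0, hm0, rfl⟩ := mem_image.1 hm
    obtain ⟨a1, a2⟩ := hA0m m0 hm0
    refine ⟨by omega, ?_, ?_⟩
    · have : ((m0.toNat : ℕ) : ℝ) = m0 := by exact_mod_cast Int.toNat_of_nonneg a1.le
      rwa [this]
    · obtain ⟨w, hw, rfl⟩ := mem_image.1 hm0
      obtain ⟨w0, _, w3⟩ := mem_filter.1 hw
      obtain ⟨_, w4, w5⟩ := mem_filter.1 w0
      exact ⟨cnt w, w4, w5, hit w w3⟩

end Pool.Agent.P.MP_2b866c_nt.Back
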