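import Pool.Agent.P.MP_2b866c_nt.Back.Binom

/-!
Polynomial decay for a killed lazy walk.  The state `(m, s)` carries the angle `σ 2^s / 3^m`;
the walk is damped when this angle is far from the integers.
-/

set_option autoImplicit false

namespace Pool.Agent.P.MP_2b866c_nt.Back

/-- The angle `σ 2^s / 3^m` is at distance at least `1/16` from the integers. -/
def White (σ : ℤ) (m s : ℕ) : Prop :=
  ∃ r : ℤ, (3 : ℤ) ^ m ∣ σ * 2 ^ s - r ∧ (3 : ℤ) ^ m ≤ 16 * r ∧ 16 * r ≤ 15 * 3 ^ m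

structure Walk (σ : ℤ) (v : ℕ → ℕ → ℝ) : Prop where
  nonneg : ∀ m s, 0 ≤ v m s
  le_one : ∀ m s, v m s ≤ 1
  step : ∀ m s, v m (s + 1) ≤ v m s / 2 + v (m - 1) s / 2
  white : ∀ m s, White σ m s →
    v m (s + 2) ≤ v m s / 4 + 127 / 128 * v (m - 1) s / 2 + v (m - 2) s / 4
  init : ∀ m, 2 ≤ m → v m 0 ≤ 0

def Hyp (v : ℕ → ℕ → ℝ) (S m1 : ℕ) (w : ℝ) : Prop := ∀ s < S, ∀ m, m1 ≤ m → v m s ≤ w

variable {σ : ℤ} {v : ℕ → ℕ → ℝ}

lemma Walk.steps (hW : Walk σ v) (s j : ℕ) :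
    ∀ m, v m (s + j) ≤ Lam j (fun z => v (m - z) s) := by
  induction j with
  | zero => intro m; simp [Lam]
  | succ j ih =>
    intro m
    have h1 := hW.step m (s + j)
    have h2 := ih m
    have h3 := ih (m - 1)
    have e : (fun z => v (m - 1 - z) s) = fun z => v (m - (z + 1)) s := by
      funext z; congr 1; omega
    rw [e] at h3
    rw [Lam_succ, ← add_assoc]
    linarith

lemma Walk.zero (hW : Walk σ v) (s m : ℕ) (h : s + 2 ≤ m) : v m s ≤ 0 := by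
  have h1 := hW.steps 0 s m
  rw [zero_add] at h1
  have h2 : Lam s (fun z => v (m - z) 0) ≤ Lam s (fun _ => 0) :=
    Lam_mono' s (fun i hi => hW.init _ (by omega))
  rw [Lam_const] at h2
  linarith

lemma Walk.two (hW : Walk σ v) (m s : ℕ) :
    v m (s + 2) ≤ v m s / 4 + v (m - 1) s / 2 + v (m - 2) s / 4 := by
  have h1 := hW.step m (s + 1)
  have h2 := hW.step m s
  have h3 := hW.step (m - 1) s
  rw [show m - 1 - 1 = m - 2 by omega] at h3
  linarith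

lemma Walk.white_gain (hW : Walk σ v) {S m1 : ℕ} {w : ℝ} (H : Hyp v S m1 w) {m s : ℕ}
    (hs : s < S) (hm : m1 + 2 ≤ m) (hw : White σ m s) : v m (s + 2) ≤ 255 / 256 * w := by
  have h := hW.white m s hw
  have h0 := H s hs m (by omega)
  have h1 := H s hs (m - 1) (by omega)
  have h2 := H s hs (m - 2) (by omega)
  linarith

lemma cancel_four (x i : ℕ) (a : ℤ) (h : (3 : ℤ) ^ x ∣ 4 ^ i * a) : (3 : ℤ) ^ x ∣ a := by
  have hc : IsCoprime ((3 : ℤ) ^ x) (4 ^ i) := by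
    apply IsCoprime.pow
    exact ⟨-1, 1, by norm_num⟩
  exact hc.dvd_of_dvd_mul_left h

lemma child_white {m x s : ℕ} {r : ℤ} (hx : x ≤ m) (hx2 : m ≤ x + 2)
    (hr : (3 : ℤ) ^ m ∣ σ * 2 ^ (s + 2) - r) (hb : 16 * |r| < 3 ^ m) (h4 : ¬ (4 : ℤ) ∣ r) :
    White σ x s := by
  have hd : (3 : ℤ) ^ x ∣ σ * 2 ^ (s + 2) - r := (pow_dvd_pow 3 hx).trans hr
  have h9 : (3 : ℤ) ^ m ≤ 9 * 3 ^ x := by
    calc (3 : ℤ) ^ m ≤ 3 ^ (x + 2) := pow_le_pow_right₀ (by norm_num) hx2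
      _ = 9 * 3 ^ x := by ring
  have hodd : (3 : ℤ) ^ x % 2 = 1 := Int.odd_iff.1 (Odd.pow (by decide))
  have hpos : (0 : ℤ) < 3 ^ x := by positivity
  have hr1 := le_abs_self r
  have hr2 := neg_abs_le r
  have key : ∀ c q : ℤ, 1 ≤ c → c ≤ 3 → r + c * 3 ^ x = 4 * q → White σ x s := by
    intro c q hc1 hc3 hq
    refine ⟨q, ?_, ?_, ?_⟩
    · apply cancel_four x 1
      have : (4 : ℤ) ^ 1 * (σ * 2 ^ s - q) = (σ * 2 ^ (s + 2) - r) - 3 ^ x * c := by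
        linear_combination hq
      rw [this]
      exact dvd_sub hd (dvd_mul_right _ _)
    · nlinarith
    · nlinarith
  have : (4 : ℤ) ∣ r + 1 * 3 ^ x ∨ (4 : ℤ) ∣ r + 2 * 3 ^ x ∨ (4 : ℤ) ∣ r + 3 * 3 ^ x := by
    clear key hr1 hr2 hpos h9 hd hb hr
    generalize (3 : ℤ) ^ x = N at *
    have h1 : N % 4 = 1 ∨ N % 4 = 3 := by omega
    have h2 : r % 4 = 1 ∨ r % 4 = 2 ∨ r % 4 = 3 := by omega
    rcases h1 with h1 | h1 <;> rcases h2 with h2 | h2 | h2 <;> omega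
  rcases this with ⟨q, hq⟩ | ⟨q, hq⟩ | ⟨q, hq⟩
  · exact key 1 q (by norm_num) (by norm_num) hq
  · exact key 2 q (by norm_num) (by norm_num) hq
  · exact key 3 q (by norm_num) (by norm_num) hq

lemma child_four {m x s : ℕ} {r : ℤ} (hx : x ≤ m) (hx2 : m ≤ x + 2)
    (hr : (3 : ℤ) ^ m ∣ σ * 2 ^ (s + 2) - 4 * r) (hb : 16 * |4 * r| < 3 ^ m) :
    (3 : ℤ) ^ x ∣ σ * 2 ^ s - r ∧ (White σ x s ∨ 16 * |r| < 3 ^ x) := by
  have hd : (3 : ℤ) ^ x ∣ σ * 2 ^ s - r := by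
    apply cancel_four x 1
    have : (4 : ℤ) ^ 1 * (σ * 2 ^ s - r) = σ * 2 ^ (s + 2) - 4 * r := by ring
    rw [this]
    exact (pow_dvd_pow 3 hx).trans hr
  refine ⟨hd, ?_⟩
  have h9 : (3 : ℤ) ^ m ≤ 9 * 3 ^ x := by
    calc (3 : ℤ) ^ m ≤ 3 ^ (x + 2) := pow_le_pow_right₀ (by norm_num) hx2
      _ = 9 * 3 ^ x := by ring
  have hpos : (0 : ℤ) < 3 ^ x := by positivity
  rw [abs_mul, show |(4 : ℤ)| = 4 by norm_num] at hb
  by_cases hlt : 16 * |r| < 3 ^ x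
  · exact Or.inr hlt
  · left
    rcases le_total 0 r with h | h
    · rw [abs_of_nonneg h] at hb hlt
      exact ⟨r, hd, by omega, by omega⟩
    · rw [abs_of_nonpos h] at hb hlt
      refine ⟨r + 3 ^ x, ?_, by omega, by omega⟩
      rw [← sub_sub]
      exact dvd_sub hd dvd_rfl

lemma Walk.black_gain (hW : Walk σ v) {S m1 : ℕ} {w : ℝ} (hm1 : 1 ≤ m1) (H : Hyp v S m1 w)
    (h : ℕ) : ∀ (m s : ℕ) (r : ℤ), s < S → m1 + 2 * h + 4 ≤ m → (3 : ℤ) ^ m ∣ σ * 2 ^ s - r →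
      16 * |r| < 3 ^ m → ¬ (4 : ℤ) ^ (h + 1) ∣ r → v m (s + 2) ≤ 255 / 256 * w := by
  induction h with
  | zero =>
    intro m s r hs hm hr hb h4
    have hw : 0 ≤ w := (hW.nonneg _ _).trans (H s hs m1 le_rfl)
    by_cases hs2 : s < 2
    · have := hW.zero (s + 2) m (by omega); linarith
    obtain ⟨s0, rfl⟩ : ∃ s0, s = s0 + 2 := ⟨s - 2, by omega⟩
    rw [zero_add, pow_one] at h4
    have a : ∀ x, x ≤ m → m ≤ x + 2 → v x (s0 + 2) ≤ 255 / 256 * w := fun x hx hx2 =>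
      hW.white_gain H (by omega) (by omega) (child_white hx hx2 hr hb h4)
    have := hW.two m (s0 + 2)
    have a0 := a m le_rfl (by omega)
    have a1 := a (m - 1) (by omega) (by omega)
    have a2 := a (m - 2) (by omega) (by omega)
    linarith
  | succ h ih =>
    intro m s r hs hm hr hb h4
    have hw : 0 ≤ w := (hW.nonneg _ _).trans (H s hs m1 le_rfl)
    by_cases hs2 : s < 2
    · have := hW.zero (s + 2) m (by omega); linarith
    obtain ⟨s0, rfl⟩ : ∃ s0, s = s0 + 2 := ⟨s - 2, by omega⟩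
    have a : ∀ x, x ≤ m → m ≤ x + 2 → v x (s0 + 2) ≤ 255 / 256 * w := by
      intro x hx hx2
      by_cases h44 : (4 : ℤ) ∣ r
      · obtain ⟨r1, rfl⟩ := h44
        obtain ⟨hd, hc | hc⟩ := child_four hx hx2 hr hb
        · exact hW.white_gain H (by omega) (by omega) hc
        · refine ih x s0 r1 (by omega) (by omega) hd hc (fun hh => h4 ?_)
          rw [pow_succ' (4 : ℤ) (h + 1)]
          exact mul_dvd_mul_left 4 hh
      · exact hW.white_gain H (by omega) (by omega) (child_white hx hx2 hr hb h44)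
    have := hW.two m (s0 + 2)
    have a0 := a m le_rfl (by omega)
    have a1 := a (m - 1) (by omega) (by omega)
    have a2 := a (m - 2) (by omega) (by omega)
    linarith

/-- Survival weight of the damped walk over `p` double steps. -/
noncomputable def Y (D : ℕ → ℕ → ℝ) : ℕ → ℕ → ℕ → ℝ
  | 0, _, _ => 1
  | p + 1, i, z => Y D p (i + 1) z / 4 + D i z * Y D p (i + 1) (z + 1) / 2 + Y D p (i + 1) (z + 2) / 4

lemma Y_nonneg {D : ℕ → ℕ → ℝ} (hD : ∀ i z, 0 ≤ D i z) (p : ℕ) : ∀ i z, 0 ≤ Y D p i z := by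
  induction p with
  | zero => intro i z; simp [Y]
  | succ p ih =>
    intro i z
    have := ih (i + 1) z
    have := ih (i + 1) (z + 2)
    have := mul_nonneg (hD i z) (ih (i + 1) (z + 1))
    simp only [Y]; linarith

lemma Y_avg {D : ℕ → ℕ → ℝ} (d : ℕ → ℕ) (hD0 : ∀ i z, 0 ≤ D i z) (hD1 : ∀ i z, D i z ≤ 1)
    (hd : ∀ i, d i ≤ 4 ^ i)
    (hinv : ∀ i i' z, 3 ≤ i → i < i' → D i (z + d i') = D i z)
    (hflip : ∀ i z, 3 ≤ i → D i z + D i (z + d i) ≤ 255 / 128)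
    (j : ℕ) (t : ℝ) (ht : 0 < t) (htj : t ^ 2 ≤ (j : ℝ) + 1) (p : ℕ) :
    ∀ (i c : ℕ) (g : ℕ → ℝ), 3 ≤ i → (∀ z, 0 ≤ g z) → (∀ z, g z ≤ 1) →
      (∀ i', i ≤ i' → ∀ z, g (z + d i') = g z) →
      Lam j (fun z => g z * Y D p i (z + c)) ≤
        (511 / 512) ^ p * Lam j g + p * 4 ^ (i + p) * (2 / t) := by
  induction p with
  | zero => intro i c g _ _ _ _; simp [Y]
  | succ p ih =>
    intro i c g hi g0 g1 ginv
    have a0 := ih (i + 1) c g (by omega) g0 g1 (fun i' hi' => ginv i' (by omega))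
    have a2 := ih (i + 1) (c + 2) g (by omega) g0 g1 (fun i' hi' => ginv i' (by omega))
    have k0 : ∀ z, 0 ≤ g z * D i (z + c) := fun z => mul_nonneg (g0 z) (hD0 _ _)
    have k1 : ∀ z, g z * D i (z + c) ≤ 1 := fun z => mul_le_one₀ (g1 z) (hD0 _ _) (hD1 _ _)
    have a1 := ih (i + 1) (c + 1) (fun z => g z * D i (z + c)) (by omega) k0 k1 (by
      intro i' hi' z
      rw [ginv i' (by omega), show z + d i' + c = z + c + d i' by omega, hinv i i' _ hi (by omega)])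
    have e : Lam j (fun z => g z * Y D (p + 1) i (z + c)) =
        (1 / 4) * Lam j (fun z => g z * Y D p (i + 1) (z + c)) +
        (1 / 2) * Lam j (fun z => g z * D i (z + c) * Y D p (i + 1) (z + (c + 1))) +
        (1 / 4) * Lam j (fun z => g z * Y D p (i + 1) (z + (c + 2))) := by
      rw [← Lam_smul, ← Lam_smul, ← Lam_smul, ← Lam_add, ← Lam_add]
      apply Lam_congr; intro z
      simp only [Y, ← add_assoc]; ring
    have b1 := Lam_shift_le' j t ht htj (d i) (fun z => g z * D i (z + c)) k0 k1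
    have b2 : Lam j (fun z => g z * D i (z + c)) +
        Lam j (fun z => g (z + d i) * D i (z + d i + c)) ≤ 255 / 128 * Lam j g := by
      rw [← Lam_add, ← Lam_smul]
      apply Lam_mono; intro z
      rw [ginv i le_rfl, show z + d i + c = z + c + d i by omega]
      have := mul_le_mul_of_nonneg_left (hflip i (z + c) hi) (g0 z)
      linarith
    have hdi : (d i : ℝ) ≤ 4 ^ (i + (p + 1)) := by
      have h1 : (d i : ℝ) ≤ 4 ^ i := by exact_mod_cast hd i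
      exact h1.trans (pow_le_pow_right₀ (by norm_num) (by omega))
    have t2 : 0 < 2 / t := by positivity
    have hβ0 : (0 : ℝ) < (511 / 512) ^ p := by positivity
    have hβ1 : ((511 : ℝ) / 512) ^ p ≤ 1 := pow_le_one₀ (by norm_num) (by norm_num)
    rw [show i + 1 + p = i + (p + 1) by omega] at a0 a1 a2
    set β : ℝ := (511 / 512) ^ p with hβ
    set Q : ℝ := 4 ^ (i + (p + 1)) * (2 / t) with hQ
    have hQd : (d i : ℝ) * (2 / t) ≤ Q := mul_le_mul_of_nonneg_right hdi t2.le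
    have hQ0 : 0 ≤ (d i : ℝ) * (2 / t) := by positivity
    set X := Lam j (fun z => g z * D i (z + c)) with hX
    have b3 : X ≤ 255 / 256 * Lam j g + Q / 2 := by linarith
    have b4 : β * X ≤ β * (255 / 256 * Lam j g) + Q := by
      have := mul_le_mul_of_nonneg_left b3 hβ0.le
      nlinarith
    rw [e, pow_succ]
    push_cast
    rw [mul_assoc (p : ℝ)] at a0 a1 a2
    rw [mul_assoc ((p : ℝ) + 1)]
    rw [← hQ] at a0 a1 a2 ⊢
    nlinarith

lemma three_pow_two_pow (e : ℕ) : ∃ k : ℤ, (3 : ℤ) ^ 2 ^ (e + 1) = 1 + 2 ^ (e + 3) * (2 * k + 1) := by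
  induction e with
  | zero => exact ⟨0, by norm_num⟩
  | succ e ih =>
    obtain ⟨k, hk⟩ := ih
    refine ⟨k + 2 ^ (e + 1) * (2 * k + 1) ^ 2, ?_⟩
    rw [pow_succ 2 (e + 1), pow_mul, hk]; ring

lemma zeta_shift (ζ : ℤ) (hζ : ¬ (4 : ℤ) ∣ ζ) : ∃ d : ℕ → ℕ, (∀ i, d i ≤ 4 ^ i) ∧
    ∀ i z, 2 ≤ i → ∃ k : ℤ, ζ * 3 ^ (z + d (i + 1)) = ζ * 3 ^ z + 2 * 4 ^ i + 4 ^ (i + 1) * k := by
  obtain ⟨u, hu, k0, hk0⟩ : ∃ u : ℕ, u ≤ 1 ∧ ∃ k0 : ℤ, ζ = 2 ^ u * (2 * k0 + 1) := by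
    by_cases h2 : (2 : ℤ) ∣ ζ
    · exact ⟨1, le_rfl, ζ / 4, by simp only [pow_one]; omega⟩
    · exact ⟨0, by omega, ζ / 2, by simp only [pow_zero]; omega⟩
  refine ⟨fun i => 2 ^ (2 * i - 3 - u), fun i => ?_, fun i z hi => ?_⟩
  · calc 2 ^ (2 * i - 3 - u) ≤ 2 ^ (2 * i) := Nat.pow_le_pow_right (by norm_num) (by omega)
      _ = 4 ^ i := by rw [pow_mul]; norm_num
  · obtain ⟨e, he⟩ : ∃ e, 2 * i = e + u + 2 := ⟨2 * i - u - 2, by omega⟩
    obtain ⟨k, hk⟩ := three_pow_two_pow e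
    obtain ⟨k1, hk1⟩ : Odd ((3 : ℤ) ^ z) := Odd.pow (by decide)
    have e4 : (4 : ℤ) ^ i = 2 ^ (e + u + 2) := by
      rw [← he, pow_mul]; norm_num
    refine ⟨k0 + k1 + k + 2 * (k0 * k1 + k0 * k + k1 * k) + 4 * k0 * k1 * k, ?_⟩
    simp only [show 2 * (i + 1) - 3 - u = e + 1 by omega]
    rw [pow_add (3 : ℤ) z, hk, pow_succ (4 : ℤ) i, e4, hk1, hk0]
    ring

open Classical in
/-- Damping factor above the top edge of a large black triangle. -/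
noncomputable def Dz (ζ : ℤ) (i z : ℕ) : ℝ :=
  if (4 : ℤ) ^ i ≤ 4 * ((ζ * 3 ^ z) % 4 ^ i) ∧ 4 * ((ζ * 3 ^ z) % 4 ^ i) < 3 * 4 ^ i
    then 127 / 128 else 1

lemma Dz_nonneg (ζ : ℤ) (i z : ℕ) : 0 ≤ Dz ζ i z := by
  unfold Dz; split_ifs <;> norm_num

lemma Dz_le_one (ζ : ℤ) (i z : ℕ) : Dz ζ i z ≤ 1 := by
  unfold Dz; split_ifs <;> norm_num

lemma Y_Dz (ζ : ℤ) (hζ : ¬ (4 : ℤ) ∣ ζ) (j : ℕ) (t : ℝ) (ht : 0 < t) (htj : t ^ 2 ≤ (j : ℝ) + 1)
    (p : ℕ) : Lam j (fun z => Y (Dz ζ) p 3 z) ≤ (511 / 512) ^ p + p * 4 ^ (3 + p) * (2 / t) := by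
  obtain ⟨d, hd, hs⟩ := zeta_shift ζ hζ
  have := Y_avg d (Dz_nonneg ζ) (Dz_le_one ζ) hd ?_ ?_ j t ht htj p 3 0 (fun _ => 1) le_rfl
    (fun _ => zero_le_one) (fun _ => le_rfl) (fun _ _ _ => rfl)
  · simpa [Lam_const] using this
  · intro i i' z hi hii
    obtain ⟨i0, rfl⟩ : ∃ i0, i' = i0 + 1 := ⟨i' - 1, by omega⟩
    obtain ⟨k, hk⟩ := hs i0 z (by omega)
    obtain ⟨e, rfl⟩ : ∃ e, i0 = i + e := ⟨i0 - i, by omega⟩
    have : (ζ * 3 ^ (z + d (i + e + 1))) % 4 ^ i = (ζ * 3 ^ z) % 4 ^ i := by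
      rw [hk, show ζ * 3 ^ z + 2 * 4 ^ (i + e) + 4 ^ (i + e + 1) * k =
        ζ * 3 ^ z + 4 ^ i * (2 * 4 ^ e + 4 ^ (e + 1) * k) by ring, Int.add_mul_emod_self_left]
    unfold Dz; rw [this]
  · intro i z hi
    obtain ⟨i0, rfl⟩ : ∃ i0, i = i0 + 1 := ⟨i - 1, by omega⟩
    obtain ⟨k, hk⟩ := hs i0 z (by omega)
    have hpos : (0 : ℤ) < 4 ^ i0 := by positivity
    have hQ : (4 : ℤ) ^ (i0 + 1) = 4 * 4 ^ i0 := by ring
    have hc0 := Int.emod_nonneg (ζ * 3 ^ z) (b := 4 ^ (i0 + 1)) (by positivity)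
    have hc1 := Int.emod_lt_of_pos (ζ * 3 ^ z) (b := 4 ^ (i0 + 1)) (by positivity)
    have hdiv := Int.emod_add_mul_ediv (ζ * 3 ^ z) (4 ^ (i0 + 1))
    set c := (ζ * 3 ^ z) % 4 ^ (i0 + 1) with hc
    set q := (ζ * 3 ^ z) / 4 ^ (i0 + 1) with hq
    have hc' : (ζ * 3 ^ (z + d (i0 + 1))) % 4 ^ (i0 + 1) =
        if c < 2 * 4 ^ i0 then c + 2 * 4 ^ i0 else c - 2 * 4 ^ i0 := by
      rw [hk, ← hdiv]
      split_ifs with h
      · rw [show c + 4 ^ (i0 + 1) * q + 2 * 4 ^ i0 + 4 ^ (i0 + 1) * k =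
          (c + 2 * 4 ^ i0) + 4 ^ (i0 + 1) * (q + k) by ring, Int.add_mul_emod_self_left]
        exact Int.emod_eq_of_lt (by omega) (by omega)
      · rw [show c + 4 ^ (i0 + 1) * q + 2 * 4 ^ i0 + 4 ^ (i0 + 1) * k =
          (c - 2 * 4 ^ i0) + 4 ^ (i0 + 1) * (q + k + 1) by ring, Int.add_mul_emod_self_left]
        exact Int.emod_eq_of_lt (by omega) (by omega)
    unfold Dz
    rw [hc', ← hc]
    rw [hQ] at hc1 ⊢
    clear hc' hdiv hk hc hq
    generalize (4 : ℤ) ^ i0 = G at *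
    split_ifs <;> first | (exfalso; omega) | norm_num

lemma white_above {m z s0 i P : ℕ} {ζ r' : ℤ} (hz : z ≤ m) (hi : 3 ≤ i) (hiP : i ≤ P)
    (hζ : (4 : ℤ) ^ P ∣ ζ * 3 ^ m + r') (hr : (3 : ℤ) ^ m ∣ σ * 2 ^ (s0 + 2 * i) - r')
    (hsz : |r'| ≤ 3 ^ (m - z))
    (hc : (4 : ℤ) ^ i ≤ 4 * ((ζ * 3 ^ z) % 4 ^ i) ∧ 4 * ((ζ * 3 ^ z) % 4 ^ i) < 3 * 4 ^ i) :
    White σ (m - z) s0 := by
  obtain ⟨x, rfl⟩ : ∃ x, m = x + z := ⟨m - z, by omega⟩
  rw [Nat.add_sub_cancel] at hsz ⊢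
  have hdiv := Int.emod_add_mul_ediv (ζ * 3 ^ z) (4 ^ i)
  set c := (ζ * 3 ^ z) % 4 ^ i with hcdef
  set q := (ζ * 3 ^ z) / 4 ^ i with hq
  obtain ⟨k, hk⟩ : (4 : ℤ) ^ i ∣ r' + c * 3 ^ x := by
    have h1 : (4 : ℤ) ^ i ∣ ζ * 3 ^ (x + z) + r' := (pow_dvd_pow 4 hiP).trans hζ
    have : r' + c * 3 ^ x = (ζ * 3 ^ (x + z) + r') - 4 ^ i * (q * 3 ^ x) := by
      rw [pow_add]; linear_combination (3 : ℤ) ^ x * hdiv
    rw [this]
    exact dvd_sub h1 (dvd_mul_right _ _)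
  have hQ : (64 : ℤ) ≤ 4 ^ i := by
    calc (64 : ℤ) = 4 ^ 3 := by norm_num
      _ ≤ 4 ^ i := pow_le_pow_right₀ (by norm_num) hi
  have hN : (0 : ℤ) < 3 ^ x := by positivity
  obtain ⟨h1, h2⟩ := abs_le.1 hsz
  refine ⟨k, ?_, ?_, ?_⟩
  · apply cancel_four x i
    have : (4 : ℤ) ^ i * (σ * 2 ^ s0 - k) = (σ * 2 ^ (s0 + 2 * i) - r') - 3 ^ x * c := by
      have e : (2 : ℤ) ^ (s0 + 2 * i) = 2 ^ s0 * 4 ^ i := by
        rw [pow_add, pow_mul]; norm_num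
      rw [e]; linear_combination hk
    rw [this]
    exact dvd_sub ((pow_dvd_pow 3 (by omega)).trans hr) (dvd_mul_right _ _)
  · generalize (4 : ℤ) ^ i = Q at *
    generalize (3 : ℤ) ^ x = N at *
    have a1 : Q * N ≤ 4 * c * N := mul_le_mul_of_nonneg_right hc.1 hN.le
    have a2 : 64 * N ≤ Q * N := mul_le_mul_of_nonneg_right hQ hN.le
    have a3 : Q * N ≤ Q * (16 * k) := by nlinarith
    exact le_of_mul_le_mul_left a3 (by omega)
  · generalize (4 : ℤ) ^ i = Q at *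
    generalize (3 : ℤ) ^ x = N at *
    have a1 : 4 * c * N ≤ 3 * Q * N := mul_le_mul_of_nonneg_right hc.2.le hN.le
    have a2 : 64 * N ≤ Q * N := mul_le_mul_of_nonneg_right hQ hN.le
    have a3 : Q * (16 * k) ≤ Q * (15 * N) := by nlinarith
    exact le_of_mul_le_mul_left a3 (by omega)

lemma Walk.link (hW : Walk σ v) {S m1 m s' P Z : ℕ} {w : ℝ} {ζ r' : ℤ} (H : Hyp v S m1 w)
    (hs' : s' < S) (hP : 2 * P ≤ s') (hZ : m1 + Z ≤ m)
    (hζ : (4 : ℤ) ^ P ∣ ζ * 3 ^ m + r') (hr : (3 : ℤ) ^ m ∣ σ * 2 ^ s' - r')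
    (hsz : |r'| ≤ 3 ^ (m - Z)) (p : ℕ) :
    ∀ i z s1, s1 + 2 * i = s' + 2 → i + p = P → 3 ≤ i → z + 2 * p ≤ Z →
      v (m - z) s1 ≤ w * Y (Dz ζ) p i z := by
  induction p with
  | zero =>
    intro i z s1 h1 h2 h3 h4
    simpa [Y] using H s1 (by omega) (m - z) (by omega)
  | succ p ih =>
    intro i z s1 h1 h2 h3 h4
    obtain ⟨s0, rfl⟩ : ∃ s0, s1 = s0 + 2 := ⟨s1 - 2, by omega⟩
    have a0 := ih (i + 1) z s0 (by omega) (by omega) (by omega) (by omega)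
    have a1 := ih (i + 1) (z + 1) s0 (by omega) (by omega) (by omega) (by omega)
    have a2 := ih (i + 1) (z + 2) s0 (by omega) (by omega) (by omega) (by omega)
    rw [show m - (z + 1) = m - z - 1 by omega] at a1
    rw [show m - (z + 2) = m - z - 2 by omega] at a2
    simp only [Y]
    unfold Dz
    split_ifs with hc
    · have hwh : White σ (m - z) s0 := by
        refine white_above (P := P) (r' := r') (by omega) h3 (by omega) hζ ?_ ?_ hc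
        · rwa [show s0 + 2 * i = s' by omega]
        · exact hsz.trans (pow_le_pow_right₀ (by norm_num) (by omega))
      have := hW.white _ _ hwh
      unfold Dz at a0 a1 a2
      linarith
    · have := hW.two (m - z) s0
      unfold Dz at a0 a1 a2
      linarith

lemma five_mul_le {h m : ℕ} (hh : (4 : ℤ) ^ h ≤ 3 ^ m) : 5 * h ≤ 4 * m := by
  have h1 : (4 : ℤ) ^ (5 * h) ≤ 4 ^ (4 * m) := by
    calc (4 : ℤ) ^ (5 * h) = (4 ^ h) ^ 5 := by rw [← pow_mul, mul_comm]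
      _ ≤ (3 ^ m) ^ 5 := pow_le_pow_left₀ (by positivity) hh 5
      _ = 243 ^ m := by rw [← pow_mul, mul_comm, pow_mul]; norm_num
      _ ≤ 256 ^ m := pow_le_pow_left₀ (by norm_num) (by norm_num) m
      _ = 4 ^ (4 * m) := by rw [pow_mul]; norm_num
  exact (pow_le_pow_iff_right₀ (by norm_num)).1 h1

lemma three_pow_le {h Z : ℕ} (hZ : 5 * Z ≤ 6 * h) : (3 : ℤ) ^ Z ≤ 4 ^ h := by
  have h1 : ((3 : ℤ) ^ Z) ^ 5 ≤ (4 ^ h) ^ 5 := by
    calc ((3 : ℤ) ^ Z) ^ 5 = 3 ^ (5 * Z) := by rw [← pow_mul, mul_comm]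
      _ ≤ 3 ^ (6 * h) := pow_le_pow_right₀ (by norm_num) hZ
      _ = 729 ^ h := by rw [pow_mul]; norm_num
      _ ≤ 1024 ^ h := pow_le_pow_left₀ (by norm_num) (by norm_num) h
      _ = (4 ^ h) ^ 5 := by rw [← pow_mul, mul_comm, pow_mul]; norm_num
  exact (pow_le_pow_iff_left₀ (by positivity) (by positivity) (by norm_num)).1 h1

lemma big_gain (η : ℝ) (hη : 0 < η) : ∃ h0 m0 : ℕ, ∀ (σ : ℤ) (v : ℕ → ℕ → ℝ), Walk σ v →
    ∀ (S m s h : ℕ) (w : ℝ) (r' : ℤ), Hyp v S (m / 10) w → 0 ≤ w → s < S → h0 ≤ h → m0 ≤ m →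
      (3 : ℤ) ^ m ∣ σ * 2 ^ s - 4 ^ h * r' → ¬ (4 : ℤ) ∣ r' → 4 ^ h * |r'| ≤ 3 ^ m →
      v m (s + 2) ≤ η * w + 6 * Real.exp (-(1 / 100 * h)) + 2 * Real.exp (-(1 / 100 * m)) := by
  obtain ⟨p, hp⟩ := exists_pow_lt_of_lt_one (half_pos hη) (show (511 : ℝ) / 512 < 1 by norm_num)
  set t : ℝ := (p * 4 ^ (3 + p) * 4 + 1) / η with ht
  have ht0 : 0 < t := by positivity
  have hY : ∀ (ζ : ℤ), ¬ (4 : ℤ) ∣ ζ → ∀ j : ℕ, t ^ 2 ≤ (j : ℝ) + 1 →
      Lam j (fun z => Y (Dz ζ) p 3 z) ≤ η := by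
    intro ζ hζ j hj
    have h1 := Y_Dz ζ hζ j t ht0 hj p
    have h2 : (p : ℝ) * 4 ^ (3 + p) * (2 / t) ≤ η / 2 := by
      rw [ht, div_div_eq_mul_div, ← mul_div_assoc, div_le_div_iff₀ (by positivity) (by norm_num)]
      nlinarith
    linarith
  refine ⟨⌈t ^ 2⌉₊ + 20 * p + 100, 200 * p + 2000, ?_⟩
  intro σ v hW S m s h w r' H hw hs hh hm hr h4 hsz
  have hr0 : r' ≠ 0 := fun h0 => h4 (by rw [h0]; exact dvd_zero _)
  have hr1 : 1 ≤ |r'| := Int.one_le_abs hr0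
  have h45 : 5 * h ≤ 4 * m := five_mul_le (by
    have : (0 : ℤ) < 4 ^ h := by positivity
    nlinarith)
  have e1 := Real.exp_pos (-(1 / 100 * (h : ℝ)))
  have e2 := Real.exp_pos (-(1 / 100 * (m : ℝ)))
  have hηw : 0 ≤ η * w := by positivity
  by_cases hs2 : s < 2 * h + 2 * (3 + p)
  · have h1 := hW.steps 0 (s + 2) m
    rw [zero_add] at h1
    have h2 := Lam_tail (s + 2) (1 / 10) (m / 4) (by norm_num) (fun z => v (m - z) 0)
      (fun i => hW.le_one _ _) (by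
        intro i hi
        apply hW.init
        have h3 := (abs_lt.1 hi).2
        have h5 : (8 * i : ℝ) < 4 * ((s + 2 : ℕ) : ℝ) + m := by linarith
        have h6 : 8 * i < 4 * (s + 2) + m := by exact_mod_cast h5
        omega)
    have h3 : Real.exp (((s + 2 : ℕ) : ℝ) * (1 / 10) ^ 2 / 2 - 1 / 10 * (m / 4)) ≤
        Real.exp (-(1 / 100 * m)) := by
      apply Real.exp_le_exp.2
      have h5 : s + 2 ≤ 2 * m := by omega
      have h6 : ((s + 2 : ℕ) : ℝ) ≤ 2 * m := by exact_mod_cast h5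
      linarith
    linarith
  · obtain ⟨s2, rfl⟩ : ∃ s2, s = s2 + 4 + 2 * h := ⟨s - 4 - 2 * h, by omega⟩
    have hr' : (3 : ℤ) ^ m ∣ σ * 2 ^ (s2 + 4) - r' := by
      apply cancel_four m h
      have e : (2 : ℤ) ^ (s2 + 4 + 2 * h) = 2 ^ (s2 + 4) * 4 ^ h := by
        rw [pow_add (2 : ℤ) (s2 + 4), pow_mul]; norm_num
      rw [e] at hr
      convert hr using 1; ring
    obtain ⟨a, b, hab⟩ : IsCoprime ((3 : ℤ) ^ m) (4 ^ (3 + p)) := by
      apply IsCoprime.pow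
      exact ⟨-1, 1, by norm_num⟩
    have hζ : (4 : ℤ) ^ (3 + p) ∣ (-r' * a) * 3 ^ m + r' :=
      ⟨r' * b, by linear_combination (-r') * hab⟩
    have hζ4 : ¬ (4 : ℤ) ∣ -r' * a := by
      intro hd
      apply h4
      have h1 : (4 : ℤ) ∣ (-r' * a) * 3 ^ m + r' :=
        (dvd_pow_self 4 (by omega : 3 + p ≠ 0)).trans hζ
      exact (dvd_add_right (hd.mul_right _)).1 h1
    set Z := h + 3 + h / 10 + 2 * p with hZ
    have hszZ : |r'| ≤ 3 ^ (m - Z) := by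
      have h1 : (3 : ℤ) ^ Z ≤ 4 ^ h := three_pow_le (by omega)
      have h2 : (3 : ℤ) ^ m = 3 ^ Z * 3 ^ (m - Z) := by
        rw [← pow_add]; congr 1; omega
      have h3 : (3 : ℤ) ^ Z * |r'| ≤ 3 ^ Z * 3 ^ (m - Z) := by
        rw [← h2]; exact (mul_le_mul_of_nonneg_right h1 (abs_nonneg _)).trans hsz
      exact le_of_mul_le_mul_left h3 (by positivity)
    have hl := hW.link (P := 3 + p) (Z := Z) H (by omega : s2 + 4 < S) (by omega) (by omega)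
      hζ hr' hszZ p 3
    have h1 := hW.steps s2 (2 * h + 6) m
    have h2 : Lam (2 * h + 6) (fun z => v (m - z) s2) ≤ Lam (2 * h + 6)
        (fun z => w * Y (Dz (-r' * a)) p 3 z + if z ≤ h + 3 + h / 10 then 0 else 1) := by
      apply Lam_mono
      intro z
      split_ifs with hz
      · rw [add_zero]; exact hl z s2 (by omega) rfl le_rfl (by omega)
      · have := mul_nonneg hw (Y_nonneg (Dz_nonneg (-r' * a)) p 3 z)
        have := hW.le_one (m - z) s2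
        linarith
    rw [Lam_add, Lam_smul] at h2
    have h3 := hY _ hζ4 (2 * h + 6) (by
      have h5 := Nat.le_ceil (t ^ 2)
      have h6 : ⌈t ^ 2⌉₊ ≤ 2 * h + 6 := by omega
      have h7 : (⌈t ^ 2⌉₊ : ℝ) ≤ ((2 * h + 6 : ℕ) : ℝ) := by exact_mod_cast h6
      linarith)
    have h4' := Lam_tail (2 * h + 6) (1 / 10) (h / 5) (by norm_num)
      (fun z => if z ≤ h + 3 + h / 10 then (0 : ℝ) else 1)
      (fun i => by split_ifs <;> norm_num) (by
        intro i hi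
        have h3 := (abs_lt.1 hi).2
        have h5 : (10 * i : ℝ) < 5 * ((2 * h + 6 : ℕ) : ℝ) + h := by linarith
        have h6 : 10 * i < 5 * (2 * h + 6) + h := by exact_mod_cast h5
        rw [if_pos (by omega)])
    have h5 : Real.exp (((2 * h + 6 : ℕ) : ℝ) * (1 / 10) ^ 2 / 2 - 1 / 10 * (h / 5)) ≤
        3 * Real.exp (-(1 / 100 * h)) := by
      have e3 : Real.exp 1 ≤ 3 := by have := Real.exp_one_lt_d9; linarith
      calc _ ≤ Real.exp (1 + -(1 / 100 * h)) := by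
            apply Real.exp_le_exp.2; push_cast; linarith
        _ = Real.exp 1 * Real.exp (-(1 / 100 * h)) := Real.exp_add _ _
        _ ≤ _ := mul_le_mul_of_nonneg_right e3 e1.le
    have h6 := mul_le_mul_of_nonneg_left h3 hw
    rw [show s2 + 4 + 2 * h + 2 = s2 + (2 * h + 6) by omega]
    linarith

lemma exists_four_pow (r : ℤ) (hr : r ≠ 0) : ∃ (h : ℕ) (r' : ℤ), r = 4 ^ h * r' ∧ ¬ (4 : ℤ) ∣ r' := by
  have hf : FiniteMultiplicity (4 : ℤ) r := by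
    rw [Int.finiteMultiplicity_iff]; exact ⟨by norm_num, hr⟩
  obtain ⟨c, hc, hn⟩ := hf.exists_eq_pow_mul_and_not_dvd
  exact ⟨_, c, hc, hn⟩

lemma white_or_black (σ : ℤ) (m s : ℕ) :
    White σ m s ∨ ∃ r : ℤ, (3 : ℤ) ^ m ∣ σ * 2 ^ s - r ∧ 16 * |r| < 3 ^ m := by
  have hN : (0 : ℤ) < 3 ^ m := by positivity
  have h0 := Int.emod_nonneg (σ * 2 ^ s) hN.ne'
  have h1 := Int.emod_lt_of_pos (σ * 2 ^ s) hN
  have hd : (3 : ℤ) ^ m ∣ σ * 2 ^ s - (σ * 2 ^ s) % 3 ^ m := Int.dvd_self_sub_emod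
  set r := (σ * 2 ^ s) % 3 ^ m
  by_cases ha : 16 * r < 3 ^ m
  · exact Or.inr ⟨r, hd, by rwa [abs_of_nonneg h0]⟩
  by_cases hb : 15 * 3 ^ m < 16 * r
  · refine Or.inr ⟨r - 3 ^ m, ?_, ?_⟩
    · rw [← sub_add]; exact dvd_add hd dvd_rfl
    · rw [abs_of_nonpos (by omega)]; omega
  · exact Or.inl ⟨r, hd, by omega, by omega⟩

theorem decay (A : ℕ) : ∃ C : ℝ, 0 < C ∧ ∀ (σ : ℤ) (v : ℕ → ℕ → ℝ), ¬ (3 : ℤ) ∣ σ → Walk σ v →
    ∀ s m : ℕ, 1 ≤ m → v m s ≤ C / (m : ℝ) ^ A := by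
  obtain ⟨h0, m0, hB⟩ := big_gain (1 / (2 * 11 ^ A)) (by positivity)
  set D : ℕ := 768 * (A + 1) with hD
  have hD0 : (0 : ℝ) < D := by positivity
  obtain ⟨C1, hC1, hE1⟩ := exp_le_pow (1 / 100 / D) (by positivity) A
  obtain ⟨C2, hC2, hE2⟩ := exp_le_pow (1 / 100) (by positivity) A
  set M0 : ℕ := m0 + D * h0 + 4 * D + 200 with hM0
  set C : ℝ := (M0 : ℝ) ^ A + 2 * (6 * C1 + 2 * C2) with hC
  have hC0 : 0 < C := by positivity
  refine ⟨C, hC0, fun σ v h3 hW s => ?_⟩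
  induction s using Nat.strong_induction_on with
  | _ s ih =>
  intro m hm
  have hmpos : (0 : ℝ) < m := by exact_mod_cast hm
  have hmA : (0 : ℝ) < (m : ℝ) ^ A := by positivity
  by_cases hsm : m ≤ M0
  · refine (hW.le_one _ _).trans ?_
    rw [le_div_iff₀ hmA, one_mul]
    have : (m : ℝ) ^ A ≤ (M0 : ℝ) ^ A := pow_le_pow_left₀ hmpos.le (by exact_mod_cast hsm) A
    have : 0 ≤ 2 * (6 * C1 + 2 * C2) := by positivity
    linarith
  by_cases hs2 : s < 2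
  · exact (hW.zero s m (by omega)).trans (by positivity)
  obtain ⟨s0, rfl⟩ : ∃ s0, s = s0 + 2 := ⟨s - 2, by omega⟩
  have H : ∀ m1 : ℕ, 1 ≤ m1 → Hyp v (s0 + 2) m1 (C / (m1 : ℝ) ^ A) := by
    intro m1 hm1 s' hs' m' hm'
    refine (ih s' hs' m' (by omega)).trans ?_
    have : (0 : ℝ) < m1 := by exact_mod_cast hm1
    apply div_le_div_of_nonneg_left hC0.le (by positivity)
    exact pow_le_pow_left₀ this.le (by exact_mod_cast hm') A
  have caseA : ∀ h : ℕ, D * h ≤ m → 1 ≤ m - 2 * h - 4 ∧ m - 2 * h - 4 + 2 * h + 4 ≤ m ∧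
      255 / 256 * (C / ((m - 2 * h - 4 : ℕ) : ℝ) ^ A) ≤ C / (m : ℝ) ^ A := by
    intro h hh
    have hD1 : 768 ≤ D := by omega
    have h768 : 768 * h ≤ m := (Nat.mul_le_mul_right h hD1).trans hh
    have hm4 : 4 * D ≤ m := by omega
    refine ⟨by omega, by omega, ?_⟩
    have hcast : ((m - 2 * h - 4 : ℕ) : ℝ) = m - 2 * h - 4 := by
      rw [Nat.sub_sub, Nat.cast_sub (by omega)]; push_cast; ring
    have hh' : (D : ℝ) * h ≤ m := by exact_mod_cast hh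
    have hm4' : 4 * (D : ℝ) ≤ m := by exact_mod_cast hm4
    have hD1' : (768 : ℝ) ≤ D := by exact_mod_cast hD1
    have hx : (m : ℝ) * (1 + (-3 / D)) ≤ m - 2 * h - 4 := by
      have : (m : ℝ) * (1 + (-3 / D)) = m - 3 * m / D := by field_simp; ring
      rw [this]
      have : 2 * (h : ℝ) + 4 ≤ 3 * m / D := by rw [le_div_iff₀ hD0]; linarith
      linarith
    have h3D : (3 : ℝ) / D ≤ 1 := by rw [div_le_one hD0]; linarith
    have hneg : (-3 : ℝ) / D = -(3 / D) := by ring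
    have hb := one_add_mul_le_pow (show (-2 : ℝ) ≤ -3 / D by rw [hneg]; linarith) A
    have hA : (255 : ℝ) / 256 ≤ 1 + A * (-3 / D) := by
      have : (A : ℝ) * (3 / D) ≤ 1 / 256 := by
        rw [← mul_div_assoc, div_le_div_iff₀ hD0 (by norm_num), hD]; push_cast; linarith
      rw [hneg]; linarith
    have hy : 255 / 256 * (m : ℝ) ^ A ≤ ((m : ℝ) - 2 * h - 4) ^ A := by
      calc 255 / 256 * (m : ℝ) ^ A ≤ (1 + (-3 / D)) ^ A * (m : ℝ) ^ A :=
            mul_le_mul_of_nonneg_right (hA.trans hb) hmA.le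
        _ = ((m : ℝ) * (1 + (-3 / D))) ^ A := by rw [mul_pow]; ring
        _ ≤ _ := pow_le_pow_left₀ (mul_nonneg hmpos.le (by rw [hneg]; linarith)) hx A
    rw [hcast, ← mul_div_assoc, div_le_div_iff₀ (by linarith) hmA]
    have := mul_le_mul_of_nonneg_left hy hC0.le
    linarith
  rcases white_or_black σ m s0 with hw | ⟨r, hr, hb⟩
  · obtain ⟨a1, a2, a3⟩ := caseA 0 (by omega)
    exact (hW.white_gain (H _ a1) (by omega) (by omega) hw).trans a3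
  · have hr0 : r ≠ 0 := by
      rintro rfl
      rw [sub_zero] at hr
      have h1 : (3 : ℤ) ∣ σ * 2 ^ s0 := (dvd_pow_self 3 (by omega : m ≠ 0)).trans hr
      rcases (Int.prime_three.dvd_mul).1 h1 with h | h
      · exact h3 h
      · have := Int.prime_three.dvd_of_dvd_pow h
        omega
    obtain ⟨h, r', rfl, h4⟩ := exists_four_pow r hr0
    by_cases hh : D * h ≤ m
    · obtain ⟨a1, a2, a3⟩ := caseA h hh
      refine (hW.black_gain a1 (H _ a1) h m s0 _ (by omega) a2 hr hb ?_).trans a3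
      intro hd
      apply h4
      rw [pow_succ] at hd
      exact (mul_dvd_mul_iff_left (by positivity)).1 hd
    · have hh0 : h0 ≤ h := by
        by_contra hlt
        have : D * h ≤ D * h0 := Nat.mul_le_mul_left D (by omega)
        omega
      have hsz : 4 ^ h * |r'| ≤ (3 : ℤ) ^ m := by
        rw [abs_mul, abs_of_pos (by positivity : (0 : ℤ) < 4 ^ h)] at hb
        have : (0 : ℤ) ≤ 4 ^ h * |r'| := by positivity
        omega
      have hm10 : 1 ≤ m / 10 := by omega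
      have b := hB σ v hW (s0 + 2) m s0 h _ r' (H _ hm10) (by positivity) (by omega) hh0
        (by omega) hr h4 hsz
      have b1 : 1 / (2 * 11 ^ A) * (C / ((m / 10 : ℕ) : ℝ) ^ A) ≤ C / 2 / (m : ℝ) ^ A := by
        have h11 : m ≤ 11 * (m / 10) := by omega
        have h11' : (m : ℝ) ≤ 11 * ((m / 10 : ℕ) : ℝ) := by exact_mod_cast h11
        have h12 : (m : ℝ) ^ A ≤ 11 ^ A * ((m / 10 : ℕ) : ℝ) ^ A := by
          rw [← mul_pow]; exact pow_le_pow_left₀ hmpos.le h11' A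
        have h13 : (0 : ℝ) < ((m / 10 : ℕ) : ℝ) := by exact_mod_cast hm10
        rw [div_mul_div_comm, one_mul, div_div]
        apply div_le_div_of_nonneg_left hC0.le (by positivity)
        linarith
      have b2 : Real.exp (-(1 / 100 * h)) ≤ C1 / (m : ℝ) ^ A := by
        refine le_trans (Real.exp_le_exp.2 ?_) (hE1 m hmpos)
        have h1 : (m : ℝ) ≤ D * h := by exact_mod_cast (by omega : m ≤ D * h)
        have h2 : 1 / 100 / (D : ℝ) * m ≤ 1 / 100 * h := by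
          rw [div_mul_eq_mul_div, div_le_iff₀ hD0]; linarith
        linarith
      have b3 := hE2 m hmpos
      have b4 : C / 2 / (m : ℝ) ^ A + 6 * (C1 / (m : ℝ) ^ A) + 2 * (C2 / (m : ℝ) ^ A) ≤
          C / (m : ℝ) ^ A := by
        rw [← mul_div_assoc, ← mul_div_assoc, ← add_div, ← add_div]
        apply div_le_div_of_nonneg_right _ hmA.le
        have : (0 : ℝ) ≤ (M0 : ℝ) ^ A := by positivity
        linarith
      linarith

end Pool.Agent.P.MP_2b866c_nt.Back
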