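import Pool.Agent.P.MP_2b866c_nt.Back.Words
import Pool.Agent.P.MP_2b866c_nt.Back.Decay

/-!
Fourier analysis modulo powers of three for the path operators.
-/

set_option autoImplicit false

namespace Pool.Agent.P.MP_2b866c_nt.Back

open Finset

/-- The additive character `exp (2 π i x)`. -/
noncomputable def ee (x : ℝ) : ℂ := Complex.exp ((2 * Real.pi * x : ℝ) * Complex.I)

lemma ee_add (x y : ℝ) : ee (x + y) = ee x * ee y := by
  unfold ee; rw [← Complex.exp_add]; congr 1; push_cast; ring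

lemma ee_int (n : ℤ) : ee n = 1 := by
  unfold ee
  rw [← Complex.exp_int_mul_two_pi_mul_I n]; congr 1; push_cast; ring

lemma ee_zero : ee 0 = 1 := by simpa using ee_int 0

lemma norm_ee (x : ℝ) : ‖ee x‖ = 1 := Complex.norm_exp_ofReal_mul_I _

lemma conj_ee (x : ℝ) : (starRingEnd ℂ) (ee x) = ee (-x) := by
  unfold ee
  rw [← Complex.exp_conj]; congr 1
  rw [map_mul, Complex.conj_ofReal, Complex.conj_I]; push_cast; ring

lemma ee_nat_mul (n : ℕ) (x : ℝ) : ee (n * x) = ee x ^ n := by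
  induction n with
  | zero => simp [ee_zero]
  | succ n ih => rw [pow_succ, ← ih, ← ee_add]; congr 1; push_cast; ring

lemma sum_ee (N : ℕ) (hN : 0 < N) (t : ℤ) :
    ∑ σ ∈ range N, ee (σ * t / N) = if (N : ℤ) ∣ t then (N : ℂ) else 0 := by
  have hN' : (N : ℝ) ≠ 0 := by positivity
  split_ifs with h
  · obtain ⟨k, rfl⟩ := h
    rw [sum_congr rfl (g := fun _ => (1 : ℂ))]
    · simp
    · intro σ _
      rw [← ee_int (σ * k)]; congr 1; push_cast; field_simp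
  · have h1 : ee (t / N) ≠ 1 := by
      intro h1
      obtain ⟨n, hn⟩ := Complex.exp_eq_one_iff.1 h1
      apply h
      have h2 : (2 * Real.pi * (t / N) : ℝ) = n * (2 * Real.pi) := by
        have h3 : ((2 * Real.pi * (t / N) : ℝ) : ℂ) = ((n * (2 * Real.pi) : ℝ) : ℂ) := by
          apply mul_right_cancel₀ Complex.I_ne_zero
          rw [hn]; push_cast; ring
        exact_mod_cast h3
      have h4 : (t : ℝ) = N * n := by
        have := Real.pi_pos
        field_simp at h2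
        linarith
      exact ⟨n, by exact_mod_cast h4⟩
    have h2 : ee (t / N) ^ N = 1 := by
      rw [← ee_nat_mul, ← ee_int t]; congr 1; field_simp
    rw [sum_congr rfl (g := fun σ => ee (t / N) ^ σ), geom_sum_eq h1, h2]
    · simp
    · intro σ _
      rw [← ee_nat_mul]; congr 1; ring

lemma parseval {ι : Type*} (A : Finset ι) (c : ι → ℂ) (x : ι → ℤ) (N : ℕ) (hN : 0 < N)
    (hinj : ∀ i ∈ A, ∀ j ∈ A, (N : ℤ) ∣ x i - x j → i = j) :
    ∑ σ ∈ range N, ‖∑ i ∈ A, c i * ee (σ * x i / N)‖ ^ 2 = N * ∑ i ∈ A, ‖c i‖ ^ 2 := by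
  classical
  have key : ∀ z : ℂ, ((‖z‖ ^ 2 : ℝ) : ℂ) = z * (starRingEnd ℂ) z := by
    intro z; rw [Complex.mul_conj, Complex.normSq_eq_norm_sq]
  apply Complex.ofReal_injective
  rw [Complex.ofReal_sum, Complex.ofReal_mul, Complex.ofReal_sum]
  simp only [key]
  calc ∑ σ ∈ range N, (∑ i ∈ A, c i * ee (σ * x i / N)) *
        (starRingEnd ℂ) (∑ i ∈ A, c i * ee (σ * x i / N))
      = ∑ σ ∈ range N, ∑ i ∈ A, ∑ j ∈ A,
          c i * (starRingEnd ℂ) (c j) * ee (σ * ((x i - x j : ℤ) : ℝ) / N) := by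
        apply sum_congr rfl; intro σ _
        rw [map_sum, sum_mul_sum]
        apply sum_congr rfl; intro i _
        apply sum_congr rfl; intro j _
        rw [map_mul, conj_ee, show (σ : ℝ) * ((x i - x j : ℤ) : ℝ) / N =
          σ * x i / N + -(σ * x j / N) by push_cast; ring, ee_add]
        ring
    _ = ∑ i ∈ A, ∑ j ∈ A, c i * (starRingEnd ℂ) (c j) *
          ∑ σ ∈ range N, ee (σ * ((x i - x j : ℤ) : ℝ) / N) := by
        rw [sum_comm]
        apply sum_congr rfl; intro i _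
        rw [sum_comm]
        apply sum_congr rfl; intro j _
        rw [mul_sum]
    _ = ∑ i ∈ A, (N : ℂ) * (c i * (starRingEnd ℂ) (c i)) := by
        apply sum_congr rfl; intro i hi
        rw [sum_eq_single i]
        · rw [sum_ee N hN, if_pos (by simp)]; ring
        · intro j hj hji
          rw [sum_ee N hN, if_neg (fun h => hji (hinj i hi j hj h).symm), mul_zero]
        · intro h; exact absurd hi h
    _ = _ := by rw [mul_sum]; simp

/-- Fourier coefficient modulo `3^k`. -/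
noncomputable def coef (k : ℕ) (f : ℤ → ℂ) (ξ : ℤ) : ℂ :=
  avg k (fun b => f b * ee (-(ξ * b) / 3 ^ k))

lemma avg_mul (k : ℕ) (c : ℂ) (f : ℤ → ℂ) : avg k (fun b => c * f b) = c * avg k f := by
  unfold avg; rw [← mul_sum, mul_smul_comm]

lemma per_ee (k : ℕ) (ξ : ℤ) : Per k (fun b : ℤ => ee (-(ξ * b) / 3 ^ k)) := by
  intro b
  have : (-((ξ : ℝ) * ((b + 3 ^ k : ℤ) : ℝ)) / 3 ^ k) = -(ξ * b) / 3 ^ k + ((-ξ : ℤ) : ℝ) := by
    push_cast; field_simp; ring
  simp only [this, ee_add, ee_int, mul_one]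

lemma coef_W {k K : ℕ} {f : ℤ → ℂ} (h : Per k f) (w : List Bool) (hK : K = k + cnt w) (σ : ℤ) :
    coef K (W w f) (2 ^ w.length * σ) =
      (1 / 2 ^ w.length) * ee (-(σ * F w) / 3 ^ K) * coef k f σ := by
  have e : (fun b : ℤ => W w f b * ee (-(((2 ^ w.length * σ : ℤ) : ℝ) * b) / 3 ^ K)) =
      fun b => ee (-(σ * F w) / 3 ^ K) * W w (fun x => f x * ee (-(σ * x) / 3 ^ k)) b := by
    funext b
    unfold W
    split_ifs with ha
    · have h1 : (3 : ℝ) ^ cnt w * pt w b + F w = 2 ^ w.length * b := by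
        exact_mod_cast pt_eq w b ha
      have h2 : -(((2 ^ w.length * σ : ℤ) : ℝ) * b) / 3 ^ K =
          -(σ * F w) / 3 ^ K + -(σ * pt w b) / 3 ^ k := by
        rw [hK, pow_add]; push_cast; field_simp; linear_combination (σ : ℝ) * h1
      rw [h2, ee_add, smul_mul_assoc, mul_smul_comm]; congr 1; ring
    · simp
  unfold coef
  rw [e, avg_mul, hK, avg_W (h.comp₂ (per_ee k σ) (fun x y => x * y)), Complex.real_smul]
  push_cast; ring

lemma coef_sum {ι : Type*} (k : ℕ) (s : Finset ι) (f : ι → ℤ → ℂ) (ξ : ℤ) :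
    coef k (fun b => ∑ i ∈ s, f i b) ξ = ∑ i ∈ s, coef k (f i) ξ := by
  unfold coef
  simp only [sum_mul]
  rw [avg_sum]

lemma norm_avg_le (k : ℕ) (f : ℤ → ℂ) : ‖avg k f‖ ≤ avg k (fun b => ‖f b‖) := by
  unfold avg
  rw [norm_smul, Real.norm_of_nonneg (by positivity), smul_eq_mul]
  exact mul_le_mul_of_nonneg_left (norm_sum_le _ _) (by positivity)

/-- Characteristic function of the offsets of paths with `m - 1` odd steps among `n`. -/
noncomputable def Ac (τ : ℤ) (m n : ℕ) : ℂ :=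
  (1 / 2 ^ n) * ∑ v ∈ words n, if cnt v + 1 = m then ee (-(τ * F v) / 3 ^ m) else 0

lemma Ac_succ (τ : ℤ) (m n : ℕ) :
    Ac τ m (n + 1) = Ac τ m n / 2 + ee (-(τ * 2 ^ n) / 3 ^ m) * Ac τ (m - 1) n / 2 := by
  unfold Ac
  rw [sum_words_succ]
  have e : ∑ w ∈ words n, (if cnt (true :: w) + 1 = m then ee (-(τ * F (true :: w)) / 3 ^ m) else 0)
      = ee (-(τ * 2 ^ n) / 3 ^ m) *
        ∑ w ∈ words n, if cnt w + 1 = m - 1 then ee (-(τ * F w) / 3 ^ (m - 1)) else 0 := by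
    rw [mul_sum]
    apply sum_congr rfl; intro w hw
    simp only [cnt, F, mem_words.1 hw]
    by_cases h : cnt w + 1 + 1 = m
    · rw [if_pos h, if_pos (by omega), ← ee_add]
      congr 1
      rw [← h, Nat.add_sub_cancel, pow_succ (3 : ℝ) (cnt w + 1)]
      push_cast; field_simp; ring
    · rw [if_neg h, if_neg (by omega), mul_zero]
  rw [e]
  simp only [cnt, F]
  rw [pow_succ]; field_simp

lemma norm_one_add_ee (y : ℝ) (h1 : 1 / 16 ≤ y) (h2 : y ≤ 15 / 16) : ‖1 + ee (-y)‖ ≤ 127 / 64 := by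
  have hpi := Real.pi_pos
  have hc : Real.cos (2 * Real.pi * y) ≤ 31 / 32 := by
    have key : ∀ z : ℝ, 1 / 16 ≤ z → z ≤ 1 / 2 → Real.cos (2 * Real.pi * z) ≤ 31 / 32 := by
      intro z hz1 hz2
      have h3 := Real.cos_le_one_sub_mul_cos_sq (x := 2 * Real.pi * z) (by
        rw [abs_of_nonneg (by positivity)]; nlinarith)
      have h4 : 2 / Real.pi ^ 2 * (2 * Real.pi * z) ^ 2 = 8 * z ^ 2 := by field_simp; ring
      rw [h4] at h3
      nlinarith
    rcases le_total y (1 / 2) with h | h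
    · exact key y h1 h
    · have := key (1 - y) (by linarith) (by linarith)
      rwa [show 2 * Real.pi * (1 - y) = 2 * Real.pi - 2 * Real.pi * y by ring,
        Real.cos_two_pi_sub] at this
  have hsq : ‖1 + ee (-y)‖ ^ 2 = 2 + 2 * Real.cos (2 * Real.pi * y) := by
    unfold ee
    rw [← Complex.normSq_eq_norm_sq, Complex.normSq_apply, Complex.add_re, Complex.add_im,
      Complex.exp_ofReal_mul_I_re, Complex.exp_ofReal_mul_I_im, mul_neg, Real.cos_neg,
      Real.sin_neg]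
    simp only [Complex.one_re, Complex.one_im]
    have := Real.sin_sq_add_cos_sq (2 * Real.pi * y)
    linarith
  exact (abs_le_of_sq_le_sq' (by rw [hsq]; linarith) (by norm_num)).2

lemma Ac_walk (τ : ℤ) : Walk τ (fun m n => ‖Ac τ m n‖) := by
  have hstep : ∀ m s, ‖Ac τ m (s + 1)‖ ≤ ‖Ac τ m s‖ / 2 + ‖Ac τ (m - 1) s‖ / 2 := by
    intro m s
    rw [Ac_succ]
    refine (norm_add_le _ _).trans ?_
    rw [norm_div, norm_div, norm_mul, norm_ee]; simp
  refine ⟨fun _ _ => norm_nonneg _, ?_, hstep, ?_, ?_⟩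
  · intro m s
    induction s generalizing m with
    | zero =>
      unfold Ac
      simp only [words, pow_zero, sum_singleton, div_one, one_mul]
      split_ifs
      · rw [norm_ee]
      · simp
    | succ s ih => have := hstep m s; have := ih m; have := ih (m - 1); linarith
  · rintro m s ⟨r, ⟨k, hk⟩, h1, h2⟩
    have hk' : (τ : ℝ) * 2 ^ s = r + 3 ^ m * k := by
      have : τ * 2 ^ s = r + 3 ^ m * k := by linarith
      exact_mod_cast this
    have hN : (0 : ℝ) < 3 ^ m := by positivity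
    have e1 : ee (-(τ * 2 ^ s) / 3 ^ m) = ee (-(r / 3 ^ m)) := by
      rw [show -((τ : ℝ) * 2 ^ s) / 3 ^ m = -(r / 3 ^ m) + ((-k : ℤ) : ℝ) by
        rw [hk']; push_cast; field_simp; ring, ee_add, ee_int, mul_one]
    have e2 : ee (-(τ * 2 ^ (s + 1)) / 3 ^ m) = ee (-(r / 3 ^ m)) * ee (-(r / 3 ^ m)) := by
      rw [← e1, ← ee_add]; congr 1; rw [pow_succ]; ring
    have hb := norm_one_add_ee (r / 3 ^ m)
      (by rw [le_div_iff₀ hN]; have : (3 : ℝ) ^ m ≤ 16 * r := by exact_mod_cast h1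
          linarith)
      (by rw [div_le_iff₀ hN]; have : 16 * (r : ℝ) ≤ 15 * 3 ^ m := by exact_mod_cast h2
          linarith)
    have e3 : Ac τ m (s + 2) = Ac τ m s / 4 +
        ee (-(r / 3 ^ m)) * (1 + ee (-(r / 3 ^ m))) * Ac τ (m - 1) s / 4 +
        ee (-(τ * 2 ^ (s + 1)) / 3 ^ m) * ee (-(τ * 2 ^ s) / 3 ^ (m - 1)) * Ac τ (m - 2) s / 4 := by
      rw [Ac_succ τ m (s + 1), Ac_succ τ m s, Ac_succ τ (m - 1) s, e1, e2,
        show m - 1 - 1 = m - 2 by omega]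
      ring
    show ‖Ac τ m (s + 2)‖ ≤ ‖Ac τ m s‖ / 4 + 127 / 128 * ‖Ac τ (m - 1) s‖ / 2 + ‖Ac τ (m - 2) s‖ / 4
    rw [e3]
    refine (norm_add₃_le).trans ?_
    simp only [norm_div, norm_mul, norm_ee, one_mul, Complex.norm_ofNat]
    have := mul_le_mul_of_nonneg_right hb (norm_nonneg (Ac τ (m - 1) s))
    linarith
  · intro m hm
    unfold Ac
    simp only [words, pow_zero, sum_singleton, div_one, one_mul, cnt]
    rw [if_neg (by omega)]; simp

theorem Ac_decay (A : ℕ) : ∃ C : ℝ, 0 < C ∧ ∀ τ : ℤ, ¬ (3 : ℤ) ∣ τ → ∀ n m : ℕ, 1 ≤ m →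
    ‖Ac τ m n‖ ≤ C / (m : ℝ) ^ A := by
  obtain ⟨C, hC, h⟩ := decay A
  exact ⟨C, hC, fun τ hτ n m hm => h τ _ hτ (Ac_walk τ) n m hm⟩

lemma l2_bound {s1 s2 l1 l2 : ℕ} (G : Finset (List Bool)) (hG : G ⊆ words s1)
    (hG' : ∀ u ∈ G, cnt u = l1 ∧ F u < 3 ^ (l1 + l2 + 1)) (ψ : ℤ → ℂ) (hψ : Per 1 ψ)
    (hψ0 : avg 1 ψ = 0) (hψ1 : ∀ b, ‖ψ b‖ ≤ 1) (Φ : ℝ) (hΦ0 : 0 ≤ Φ)
    (hΦ : ∀ τ : ℤ, ¬ (3 : ℤ) ∣ τ → ‖Ac τ (l2 + 1) s2‖ ≤ Φ) :
    avg (l1 + l2 + 1)
      (fun b => ‖∑ u ∈ G, ∑ v ∈ (words s2).filter (fun v => cnt v = l2), W (u ++ v) ψ b‖ ^ 2) ≤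
      Φ ^ 2 * (3 ^ (l1 + l2 + 1) / 2 ^ s1) := by
  set K := l1 + l2 + 1 with hK
  set D : ℤ → ℂ := fun b =>
    ∑ u ∈ G, ∑ v ∈ (words s2).filter (fun v => cnt v = l2), W (u ++ v) ψ b with hD
  have hN : 0 < 3 ^ K := by positivity
  have hcop : ∀ (e : ℕ) (a : ℤ), ((3 ^ K : ℕ) : ℤ) ∣ 2 ^ e * a → |a| < 3 ^ K → a = 0 := by
    intro e a h ha
    have hc : IsCoprime ((3 : ℤ) ^ K) (2 ^ e) := by
      apply IsCoprime.pow
      exact ⟨1, -1, by norm_num⟩
    push_cast at h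
    exact Int.eq_zero_of_abs_lt_dvd (hc.dvd_of_dvd_mul_left h) ha
  have P1 := parseval (range (3 ^ K)) (fun b => D b / 3 ^ K) (fun b => -(2 ^ (s1 + s2) * b))
    (3 ^ K) hN (by
      intro i hi j hj h
      have hi' : (i : ℤ) < 3 ^ K := by exact_mod_cast mem_range.1 hi
      have hj' : (j : ℤ) < 3 ^ K := by exact_mod_cast mem_range.1 hj
      have := hcop (s1 + s2) (j - i) (by convert h using 1; ring) (by rw [abs_lt]; omega)
      omega)
  have P2 := parseval G (fun _ => (1 / 2 ^ s1 : ℂ)) (fun u => -(2 ^ s2 * F u)) (3 ^ K) hN (by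
      intro u hu v hv h
      have hi' : (F u : ℤ) < 3 ^ K := by exact_mod_cast (hG' u hu).2
      have hj' : (F v : ℤ) < 3 ^ K := by exact_mod_cast (hG' v hv).2
      have := hcop s2 (F v - F u) (by convert h using 1; ring) (by rw [abs_lt]; omega)
      exact F_inj u v ((mem_words.1 (hG hu)).trans (mem_words.1 (hG hv)).symm)
        ((hG' u hu).1.trans (hG' v hv).1.symm) (by omega))
  have e1 : avg K (fun b => ‖D b‖ ^ 2) =
      ((3 ^ K : ℕ) : ℝ) * ∑ b ∈ range (3 ^ K), ‖D b / 3 ^ K‖ ^ 2 := by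
    unfold avg
    rw [smul_eq_mul, mul_sum, mul_sum]
    apply sum_congr rfl; intro b _
    rw [norm_div, norm_pow, Complex.norm_ofNat]
    push_cast; field_simp
  have e2 : ∀ τ : ℕ, ∑ b ∈ range (3 ^ K), D b / 3 ^ K *
        ee (τ * ((-(2 ^ (s1 + s2) * (b : ℤ)) : ℤ) : ℝ) / ((3 ^ K : ℕ) : ℝ)) =
      (∑ u ∈ G, (1 / 2 ^ s1 : ℂ) * ee (τ * ((-(2 ^ s2 * (F u : ℤ)) : ℤ) : ℝ) / ((3 ^ K : ℕ) : ℝ))) *
        (Ac τ (l2 + 1) s2 * coef 1 ψ τ) := by
    intro τ
    have a1 : ∑ b ∈ range (3 ^ K), D b / 3 ^ K *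
        ee (τ * ((-(2 ^ (s1 + s2) * (b : ℤ)) : ℤ) : ℝ) / ((3 ^ K : ℕ) : ℝ)) =
        coef K D (2 ^ (s1 + s2) * τ) := by
      unfold coef avg
      rw [Complex.real_smul, mul_sum]
      apply sum_congr rfl; intro b _
      rw [show (τ : ℝ) * ((-(2 ^ (s1 + s2) * (b : ℤ)) : ℤ) : ℝ) / ((3 ^ K : ℕ) : ℝ) =
        -(((2 ^ (s1 + s2) * (τ : ℤ) : ℤ) : ℝ) * ((b : ℤ) : ℝ)) / 3 ^ K by push_cast; ring]
      push_cast; ring
    rw [a1, hD, coef_sum, sum_mul]
    apply sum_congr rfl; intro u hu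
    rw [coef_sum]
    unfold Ac
    rw [← sum_filter, mul_sum, sum_mul, mul_sum]
    apply sum_congr (by ext v; simp)
    intro v hv
    have hv1 := mem_words.1 (mem_filter.1 hv).1
    have hv2 : cnt v = l2 := by have := (mem_filter.1 hv).2; omega
    have hu1 := mem_words.1 (hG hu)
    have hu2 := (hG' u hu).1
    have := coef_W hψ (u ++ v) (K := K) (by rw [cnt_append]; omega) τ
    rw [List.length_append, hu1, hv1] at this
    rw [this, F_append, hv1, hu2]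
    rw [show -(((τ : ℤ) : ℝ) * ((2 ^ s2 * F u + 3 ^ l1 * F v : ℕ) : ℝ)) / 3 ^ K =
      τ * ((-(2 ^ s2 * (F u : ℤ)) : ℤ) : ℝ) / ((3 ^ K : ℕ) : ℝ) +
        -(((τ : ℤ) : ℝ) * F v) / 3 ^ (l2 + 1) by
      rw [hK, add_assoc, pow_add (3 : ℝ) l1]; push_cast; rw [pow_add (3 : ℝ) l1]
      field_simp; ring, ee_add, pow_add]
    field_simp
  have e3 : ∀ τ : ℤ, ‖Ac τ (l2 + 1) s2 * coef 1 ψ τ‖ ≤ Φ := by
    intro τ
    by_cases h3 : (3 : ℤ) ∣ τ
    · obtain ⟨k, rfl⟩ := h3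
      have : coef 1 ψ (3 * k) = 0 := by
        unfold coef
        rw [← hψ0]; congr 1; funext b
        rw [show -(((3 * k : ℤ) : ℝ) * b) / 3 ^ 1 = ((-(k * b) : ℤ) : ℝ) by push_cast; ring, ee_int,
          mul_one]
      rw [this, mul_zero, norm_zero]; exact hΦ0
    · have : ‖coef 1 ψ τ‖ ≤ 1 := by
        refine (norm_avg_le _ _).trans ?_
        rw [← avg_const 1 (1 : ℝ)]
        apply avg_mono; intro b
        rw [norm_mul, norm_ee, mul_one]; exact hψ1 b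
      rw [norm_mul]
      calc _ ≤ Φ * 1 := mul_le_mul (hΦ τ h3) this (norm_nonneg _) hΦ0
        _ = Φ := mul_one _
  rw [e1, ← P1]
  simp only [e2]
  have hc : (G.card : ℝ) ≤ 2 ^ s1 := by
    have := card_le_card hG
    rw [card_words] at this
    exact_mod_cast this
  calc _ ≤ ∑ τ ∈ range (3 ^ K), Φ ^ 2 * ‖∑ u ∈ G, (1 / 2 ^ s1 : ℂ) *
          ee (τ * ((-(2 ^ s2 * (F u : ℤ)) : ℤ) : ℝ) / ((3 ^ K : ℕ) : ℝ))‖ ^ 2 := by
        apply sum_le_sum; intro τ _
        rw [norm_mul, mul_pow, mul_comm]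
        exact mul_le_mul_of_nonneg_right (pow_le_pow_left₀ (norm_nonneg _) (e3 τ) 2) (by positivity)
    _ = Φ ^ 2 * (((3 ^ K : ℕ) : ℝ) * ∑ _u ∈ G, ‖(1 / 2 ^ s1 : ℂ)‖ ^ 2) := by rw [← mul_sum, P2]
    _ ≤ _ := by
        apply mul_le_mul_of_nonneg_left _ (by positivity)
        rw [sum_const, nsmul_eq_mul, norm_div, norm_one, norm_pow, Complex.norm_ofNat]
        push_cast
        rw [div_eq_mul_one_div ((3 : ℝ) ^ K)]
        apply mul_le_mul_of_nonneg_left _ (by positivity)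
        calc (G.card : ℝ) * (1 / 2 ^ s1) ^ 2 ≤ 2 ^ s1 * (1 / 2 ^ s1) ^ 2 :=
              mul_le_mul_of_nonneg_right hc (by positivity)
          _ = _ := by field_simp

end Pool.Agent.P.MP_2b866c_nt.Back
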