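import Pool.Agent.P.MP_2b866c_nt.Back.Fourier

/-!
Fine scale mixing: the weighted number `q k b` of backward paths of length `k` from `b`
is a Cauchy sequence in the mean over the residues modulo powers of three.
-/

set_option autoImplicit false

namespace Pool.Agent.P.MP_2b866c_nt.Back

open Finset

/-- Weighted number of backward paths of length `k` starting at `b`. -/
noncomputable def q (k : ℕ) (b : ℤ) : ℝ := ∑ w ∈ words k, W w (fun _ => (1 : ℝ)) b

lemma q_zero (b : ℤ) : q 0 b = 1 := by simp [q, words, W_nil]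

lemma q_nonneg (k : ℕ) (b : ℤ) : 0 ≤ q k b :=
  sum_nonneg (fun w _ => W_nonneg w (fun _ => zero_le_one) b)

lemma per_q {k K : ℕ} (h : k ≤ K) : Per K (q k) :=
  (Per.const 0 (1 : ℝ)).sum_W (words k) Subset.rfl (by omega)

lemma avg_q {k K : ℕ} (h : k ≤ K) : avg K (q k) = 1 := by
  have := avg_sum_W (K := K) (Per.const 0 (1 : ℝ)) (words k) Subset.rfl (by omega)
  rw [avg_const, card_words] at this
  unfold q
  rw [this]; push_cast; simp

lemma q_add (n k : ℕ) (b : ℤ) : q (n + k) b = ∑ v ∈ words n, W v (q k) b := by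
  unfold q
  rw [sum_words_add]
  apply sum_congr rfl; intro u _
  rw [W_sum]
  apply sum_congr rfl; intro v _
  rw [W_append]

lemma q_succ (k : ℕ) (b : ℤ) : q (k + 1) b =
    1 / 2 * q k (2 * b) + if b % 3 = 2 then 3 / 2 * q k ((2 * b - 1) / 3) else 0 := by
  rw [add_comm k 1, q_add, sum_words_succ]
  simp only [words, sum_singleton, W_false, W_true, smul_eq_mul]

lemma q_le (k : ℕ) : ∀ b, q k b ≤ 2 ^ k := by
  induction k with
  | zero => intro b; rw [q_zero]; simp
  | succ k ih =>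
    intro b
    have h1 := ih (2 * b)
    have h2 := ih ((2 * b - 1) / 3)
    have h3 : (0 : ℝ) < 2 ^ k := by positivity
    rw [q_succ, pow_succ]
    split_ifs <;> linarith

lemma avg_pair {E : Type*} [AddCommGroup E] [Module ℝ E] {k K a n : ℕ} {f : ℤ → E} (h : Per k f)
    (U V : Finset (List Bool)) (hU : U ⊆ words a) (hV : V ⊆ words n) (hK : k + n + a ≤ K) :
    avg K (fun b => ∑ u ∈ U, ∑ v ∈ V, W (u ++ v) f b) =
      ((U.card : ℝ) / 2 ^ a * ((V.card : ℝ) / 2 ^ n)) • avg k f := by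
  have e : (fun b => ∑ u ∈ U, ∑ v ∈ V, W (u ++ v) f b) =
      fun b => ∑ u ∈ U, W u (fun x => ∑ v ∈ V, W v f x) b := by
    funext b
    apply sum_congr rfl; intro u _
    rw [W_sum]
    apply sum_congr rfl; intro v _
    rw [W_append]
  rw [e, avg_sum_W (h.sum_W V hV le_rfl) U hU hK, avg_sum_W h V hV le_rfl, smul_smul]

lemma norm_W_le (w : List Bool) {ψ : ℤ → ℂ} (hψ1 : ∀ b, ‖ψ b‖ ≤ 1) (b : ℤ) :
    ‖W w ψ b‖ ≤ W w (fun _ => (1 : ℝ)) b := by
  rw [norm_W]; exact W_mono w hψ1 b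

lemma split_class {s1 s2 l s X : ℕ} {ψ : ℤ → ℂ} (hψ1 : ∀ b, ‖ψ b‖ ≤ 1) (b : ℤ) :
    ‖∑ w ∈ (words (s1 + s2)).filter (fun w => cnt w = l), W w ψ b‖ ≤
      ∑ l2 ∈ (range (l + 1)).filter (fun l2 => s ≤ 20 * l2),
        ‖∑ u ∈ (words s1).filter (fun u => cnt u = l - l2 ∧ F u < X),
          ∑ v ∈ (words s2).filter (fun v => cnt v = l2), W (u ++ v) ψ b‖ +
      ∑ u ∈ (words s1).filter (fun u => X ≤ F u), ∑ v ∈ words s2,
        W (u ++ v) (fun _ => (1 : ℝ)) b +
      ∑ u ∈ words s1, ∑ v ∈ (words s2).filter (fun v => 20 * cnt v < s),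
        W (u ++ v) (fun _ => (1 : ℝ)) b := by
  have eG : ∑ l2 ∈ (range (l + 1)).filter (fun l2 => s ≤ 20 * l2),
        ∑ u ∈ (words s1).filter (fun u => cnt u = l - l2 ∧ F u < X),
          ∑ v ∈ (words s2).filter (fun v => cnt v = l2), W (u ++ v) ψ b =
      ∑ u ∈ words s1, ∑ v ∈ words s2,
        if cnt u + cnt v = l ∧ F u < X ∧ s ≤ 20 * cnt v then W (u ++ v) ψ b else 0 := by
    simp only [sum_filter (s := words s1), sum_filter (s := words s2)]
    rw [sum_comm]
    apply sum_congr rfl; intro u _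
    have : ∀ l2, (if cnt u = l - l2 ∧ F u < X then
        ∑ v ∈ words s2, (if cnt v = l2 then W (u ++ v) ψ b else 0) else 0) =
        ∑ v ∈ words s2, if cnt v = l2 then
          (if cnt u = l - l2 ∧ F u < X then W (u ++ v) ψ b else 0) else 0 := by
      intro l2
      split_ifs <;> simp
    simp only [this]
    rw [sum_comm]
    apply sum_congr rfl; intro v _
    rw [sum_ite_eq]
    simp only [mem_filter, mem_range]
    split_ifs <;> first | rfl | (exfalso; omega)
  have eS : ∑ w ∈ (words (s1 + s2)).filter (fun w => cnt w = l), W w ψ b =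
      (∑ u ∈ words s1, ∑ v ∈ words s2,
        if cnt u + cnt v = l ∧ F u < X ∧ s ≤ 20 * cnt v then W (u ++ v) ψ b else 0) +
      ∑ u ∈ words s1, ∑ v ∈ words s2,
        if cnt u + cnt v = l ∧ ¬ (F u < X ∧ s ≤ 20 * cnt v) then W (u ++ v) ψ b else 0 := by
    rw [sum_filter, sum_words_add, ← sum_add_distrib]
    apply sum_congr rfl; intro u _
    rw [← sum_add_distrib]
    apply sum_congr rfl; intro v _
    rw [cnt_append]
    split_ifs <;> first | (exfalso; tauto) | simp
  rw [eS, ← eG, add_assoc]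
  refine (norm_add_le _ _).trans (add_le_add (norm_sum_le _ _) ?_)
  rw [sum_filter, ← sum_add_distrib]
  refine (norm_sum_le _ _).trans (sum_le_sum fun u _ => ?_)
  refine (norm_sum_le _ _).trans ?_
  have : (if X ≤ F u then ∑ v ∈ words s2, W (u ++ v) (fun _ => (1 : ℝ)) b else 0) =
      ∑ v ∈ words s2, if X ≤ F u then W (u ++ v) (fun _ => (1 : ℝ)) b else 0 := by
    split_ifs <;> simp
  rw [this, sum_filter, ← sum_add_distrib]
  apply sum_le_sum; intro v _
  have h1 := norm_W_le (u ++ v) hψ1 b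
  have h2 := W_nonneg (u ++ v) (f := fun _ => (1 : ℝ)) (fun _ => zero_le_one) b
  split_ifs <;> first | (exfalso; omega) | (simp only [norm_zero]; linarith) | linarith

lemma class_bound (ψ : ℤ → ℂ) (hψ : Per 1 ψ) (hψ0 : avg 1 ψ = 0) (hψ1 : ∀ b, ‖ψ b‖ ≤ 1) :
    ∃ C : ℝ, 0 < C ∧ ∀ s l : ℕ, 400 ≤ s → l ≤ s →
      avg (s + 1) (fun b => ‖∑ w ∈ (words s).filter (fun w => cnt w = l), W w ψ b‖) ≤
        C / (s : ℝ) ^ 6 := by
  obtain ⟨C0, hC0, hdec⟩ := Ac_decay 11
  obtain ⟨C1, hC1, hE⟩ := exp_le_pow (1 / 5000) (by norm_num) 6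
  set C2 : ℝ := (C0 * 20 ^ 11) ^ 2 with hC2
  have hC2' : 0 < C2 := by positivity
  refine ⟨2 * (1 / 2 + C2) + 1 / 4 + 2 * C1, by positivity, fun s l hs hl => ?_⟩
  have hs0 : (0 : ℝ) < s := by exact_mod_cast (by omega : 0 < s)
  have hs1 : (1 : ℝ) ≤ s := by exact_mod_cast (by omega : 1 ≤ s)
  have hE' := hE s hs0
  have hsplit : (2 * (1 / 2 + C2) + 1 / 4 + 2 * C1) / (s : ℝ) ^ 6 =
      2 * (1 / 2 + C2) / (s : ℝ) ^ 6 + 1 / 4 / (s : ℝ) ^ 6 + 2 * (C1 / (s : ℝ) ^ 6) := by ring
  have p1 : 0 ≤ 2 * (1 / 2 + C2) / (s : ℝ) ^ 6 := by positivity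
  have p2 : 0 ≤ 1 / 4 / (s : ℝ) ^ 6 := by positivity
  rw [hsplit]
  by_cases hbig : 51 * s < 100 * l
  · have h1 : avg (s + 1) (fun b => ‖∑ w ∈ (words s).filter (fun w => cnt w = l), W w ψ b‖) ≤
        avg (s + 1) (fun b => ∑ w ∈ (words s).filter (fun w => cnt w = l),
          W w (fun _ => (1 : ℝ)) b) :=
      avg_mono _ (fun b => (norm_sum_le _ _).trans (sum_le_sum fun w _ => norm_W_le w hψ1 b))
    rw [avg_sum_W (n := s) (Per.const 0 (1 : ℝ)) _ (filter_subset _ _) (by omega), avg_const,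
      smul_eq_mul, mul_one] at h1
    have h2 := card_tail ((words s).filter (fun w => cnt w = l)) (filter_subset _ _) (1 / 50)
      (s / 50) (by norm_num) (by
        intro w hw
        rw [(mem_filter.1 hw).2]
        have : 51 * (s : ℝ) < 100 * l := by exact_mod_cast hbig
        exact le_trans (by linarith) (le_abs_self _))
    rw [show (s : ℝ) * (1 / 50) ^ 2 / 2 - 1 / 50 * (s / 50) = -(1 / 5000 * s) by ring] at h2
    linarith
  set R : ℕ := s ^ 7 with hR
  have hR0 : 0 < R := by positivity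
  set s1 := Nat.log 2 (3 ^ (l + 1) / R) with hs1def
  have q1 : 3 ^ (l + 1) ≤ R * 2 ^ (s1 + 1) := by
    have a1 : 3 ^ (l + 1) / R < 2 ^ (s1 + 1) := Nat.lt_pow_succ_log_self (by norm_num) _
    have a2 : 3 ^ (l + 1) < R * (3 ^ (l + 1) / R + 1) := Nat.lt_mul_div_succ _ hR0
    have a3 : R * (3 ^ (l + 1) / R + 1) ≤ R * 2 ^ (s1 + 1) := Nat.mul_le_mul_left R a1
    omega
  have q2 : s1 = 0 ∨ R * 2 ^ s1 ≤ 3 ^ (l + 1) := by
    by_cases h0 : 3 ^ (l + 1) / R = 0
    · left; rw [hs1def, h0]; simp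
    · right
      exact (Nat.mul_le_mul_left R (Nat.pow_log_le_self 2 h0)).trans (Nat.mul_div_le _ _)
  have q3 : 5 * s1 ≤ 8 * (l + 1) := by
    rcases q2 with h | h
    · omega
    · have a1 : 2 ^ s1 ≤ 3 ^ (l + 1) := le_trans (Nat.le_mul_of_pos_left _ hR0) h
      have a2 : 2 ^ (5 * s1) ≤ 2 ^ (8 * (l + 1)) := by
        calc 2 ^ (5 * s1) = (2 ^ s1) ^ 5 := by rw [← pow_mul, mul_comm]
          _ ≤ (3 ^ (l + 1)) ^ 5 := Nat.pow_le_pow_left a1 5
          _ = 243 ^ (l + 1) := by rw [← pow_mul, mul_comm, pow_mul]; norm_num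
          _ ≤ 256 ^ (l + 1) := Nat.pow_le_pow_left (by norm_num) _
          _ = 2 ^ (8 * (l + 1)) := by rw [pow_mul]; norm_num
      exact (Nat.pow_le_pow_iff_right (by norm_num)).1 a2
  obtain ⟨s2, hs2⟩ : ∃ s2, s = s1 + s2 := ⟨s - s1, by omega⟩
  have hs2' : 18 * s ≤ 100 * s2 := by omega
  have hsplit2 := fun b => split_class (s1 := s1) (s2 := s2) (l := l) (s := s) (X := R * 2 ^ s1)
    hψ1 b
  rw [← hs2] at hsplit2
  refine (avg_mono (s + 1) hsplit2).trans ?_
  rw [avg_add, avg_add, avg_sum]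
  refine add_le_add (add_le_add ?_ ?_) ?_
  · have key : ∀ l2 ∈ (range (l + 1)).filter (fun l2 => s ≤ 20 * l2),
        avg (s + 1) (fun b => ‖∑ u ∈ (words s1).filter (fun u => cnt u = l - l2 ∧ F u < R * 2 ^ s1),
          ∑ v ∈ (words s2).filter (fun v => cnt v = l2), W (u ++ v) ψ b‖) ≤
          (1 / 2 + C2) / (s : ℝ) ^ 7 := by
      intro l2 hl2
      obtain ⟨hl2a, hl2b⟩ := mem_filter.1 hl2
      rw [mem_range] at hl2a
      have hll : l - l2 + l2 + 1 = l + 1 := by omega
      have hΦ : ∀ τ : ℤ, ¬ (3 : ℤ) ∣ τ → ‖Ac τ (l2 + 1) s2‖ ≤ C0 * 20 ^ 11 / (s : ℝ) ^ 11 := by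
        intro τ hτ
        refine (hdec τ hτ s2 (l2 + 1) (by omega)).trans ?_
        rw [div_le_div_iff₀ (by positivity) (by positivity), mul_assoc, ← mul_pow]
        apply mul_le_mul_of_nonneg_left _ hC0.le
        apply pow_le_pow_left₀ hs0.le
        exact_mod_cast (by omega : s ≤ 20 * (l2 + 1))
      have h2 := l2_bound (s2 := s2) (l1 := l - l2) (l2 := l2)
        ((words s1).filter (fun u => cnt u = l - l2 ∧ F u < R * 2 ^ s1)) (filter_subset _ _) (by
          intro u hu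
          obtain ⟨hu1, hu2, hu3⟩ := mem_filter.1 hu
          refine ⟨hu2, ?_⟩
          rw [hll]
          rcases q2 with h | h
          · have := F_le u
            rw [mem_words.1 hu1, h] at this
            have : 0 < 3 ^ (l + 1) := by positivity
            omega
          · omega) ψ hψ hψ0 hψ1 _ (by positivity) hΦ
      rw [hll] at h2
      set D : ℤ → ℂ := fun b =>
        ∑ u ∈ (words s1).filter (fun u => cnt u = l - l2 ∧ F u < R * 2 ^ s1),
          ∑ v ∈ (words s2).filter (fun v => cnt v = l2), W (u ++ v) ψ b with hD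
      have hper : Per (l + 1) D := by
        apply Per.sum; intro u hu
        apply Per.sum; intro v hv
        refine (hψ.W _).mono ?_
        rw [cnt_append, (mem_filter.1 hu).2.1, (mem_filter.1 hv).2]; omega
      show avg (s + 1) (fun b => ‖D b‖) ≤ _
      rw [avg_of_le (hper.comp (fun z => ‖z‖)) (by omega)]
      have h3 : avg (l + 1) (fun b => ‖D b‖) ≤
          avg (l + 1) (fun b => 1 / 2 / (s : ℝ) ^ 7 + ((s : ℝ) ^ 7 / 2) • ‖D b‖ ^ 2) := by
        apply avg_mono; intro b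
        have hp : (0 : ℝ) < (s : ℝ) ^ 7 := by positivity
        rw [smul_eq_mul]
        generalize (s : ℝ) ^ 7 = y at hp ⊢
        have e : 1 / 2 / y + y / 2 * ‖D b‖ ^ 2 - ‖D b‖ = (1 - y * ‖D b‖) ^ 2 / (2 * y) := by
          field_simp; ring
        have : 0 ≤ (1 - y * ‖D b‖) ^ 2 / (2 * y) := by positivity
        linarith
      rw [avg_add, avg_const, avg_smul, smul_eq_mul] at h3
      have h4 : (3 : ℝ) ^ (l + 1) / 2 ^ s1 ≤ 2 * (s : ℝ) ^ 7 := by
        rw [div_le_iff₀ (by positivity)]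
        have : ((3 ^ (l + 1) : ℕ) : ℝ) ≤ ((R * 2 ^ (s1 + 1) : ℕ) : ℝ) := by exact_mod_cast q1
        rw [hR] at this
        push_cast at this
        rw [pow_succ (2 : ℝ) s1] at this
        linarith
      have h5 : (s : ℝ) ^ 7 / 2 * avg (l + 1) (fun b => ‖D b‖ ^ 2) ≤ C2 / (s : ℝ) ^ 7 := by
        calc _ ≤ (s : ℝ) ^ 7 / 2 * ((C0 * 20 ^ 11 / (s : ℝ) ^ 11) ^ 2 * (2 * (s : ℝ) ^ 7)) := by
              apply mul_le_mul_of_nonneg_left _ (by positivity)
              exact h2.trans (mul_le_mul_of_nonneg_left h4 (by positivity))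
          _ = C2 / (s : ℝ) ^ 8 := by rw [hC2]; field_simp
          _ ≤ _ := by
              apply div_le_div_of_nonneg_left hC2'.le (by positivity)
              exact pow_le_pow_right₀ hs1 (by norm_num)
      rw [add_div]; linarith
    refine (sum_le_sum key).trans ?_
    rw [sum_const, nsmul_eq_mul]
    have hc : (((range (l + 1)).filter (fun l2 => s ≤ 20 * l2)).card : ℝ) ≤ 2 * s := by
      have := card_filter_le (range (l + 1)) (fun l2 => s ≤ 20 * l2)
      rw [card_range] at this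
      exact_mod_cast (by omega : ((range (l + 1)).filter (fun l2 => s ≤ 20 * l2)).card ≤ 2 * s)
    calc _ ≤ 2 * s * ((1 / 2 + C2) / (s : ℝ) ^ 7) := mul_le_mul_of_nonneg_right hc (by positivity)
      _ = _ := by field_simp
  · rw [avg_pair (a := s1) (n := s2) (Per.const 0 (1 : ℝ)) _ _ (filter_subset _ _) Subset.rfl
      (by omega), avg_const, card_words, smul_eq_mul, mul_one]
    have h1 := card_F ((words s1).filter (fun u => R * 2 ^ s1 ≤ F u)) (filter_subset _ _) R hR0
      (fun w hw => (mem_filter.1 hw).2)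
    push_cast
    rw [div_self (by positivity), mul_one]
    refine h1.trans ?_
    have : (s1 : ℝ) ≤ s := by exact_mod_cast (by omega : s1 ≤ s)
    calc (s1 : ℝ) / (4 * R) ≤ s / (4 * R) := div_le_div_of_nonneg_right this (by positivity)
      _ = _ := by rw [hR]; push_cast; field_simp
  · rw [avg_pair (a := s1) (n := s2) (Per.const 0 (1 : ℝ)) _ _ Subset.rfl (filter_subset _ _)
      (by omega), avg_const, card_words, smul_eq_mul, mul_one]
    have hs2r : 18 * (s : ℝ) ≤ 100 * s2 := by exact_mod_cast hs2'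
    have h1 := card_tail ((words s2).filter (fun v => 20 * cnt v < s)) (filter_subset _ _) (2 / 5)
      (s2 - s / 10) (by norm_num) (by
        intro w hw
        have : 20 * (cnt w : ℝ) < s := by exact_mod_cast (mem_filter.1 hw).2
        exact le_trans (by linarith) (neg_le_abs _))
    push_cast
    rw [div_self (by positivity), one_mul]
    refine h1.trans (mul_le_mul_of_nonneg_left (le_trans (Real.exp_le_exp.2 ?_) hE') (by norm_num))
    linarith

theorem mixing : ∃ C : ℝ, 0 < C ∧ ∀ s : ℕ, 1 ≤ s →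
    avg (s + 1) (fun b => |q (s + 1) b - q s b|) ≤ C / (s : ℝ) ^ 5 := by
  set ψ : ℤ → ℂ := fun b => ((q 1 b - 1 : ℝ) : ℂ) with hψdef
  have hψ : Per 1 ψ := (per_q le_rfl).comp (fun x : ℝ => ((x - 1 : ℝ) : ℂ))
  have hq1 : ∀ b, q 1 b - 1 = if b % 3 = 2 then 1 else -(1 / 2) := by
    intro b
    rw [q_succ, q_zero, q_zero]; split_ifs <;> norm_num
  have hψ0 : avg 1 ψ = 0 := by
    simp only [avg, hψdef, hq1, pow_one, sum_range_succ, sum_range_zero]
    norm_num
  have hψ1 : ∀ b, ‖ψ b‖ ≤ 1 := by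
    intro b
    simp only [hψdef, hq1, Complex.norm_real]
    split_ifs <;> norm_num
  obtain ⟨C, hC, h⟩ := class_bound ψ hψ hψ0 hψ1
  refine ⟨2 * C + 2 * 400 ^ 5, by positivity, fun s hs => ?_⟩
  have hs0 : (0 : ℝ) < s := by exact_mod_cast hs
  by_cases hsm : s < 400
  · have h1 : avg (s + 1) (fun b => |q (s + 1) b - q s b|) ≤
        avg (s + 1) (fun b => q (s + 1) b + q s b) := by
      apply avg_mono; intro b
      have := q_nonneg (s + 1) b
      have := q_nonneg s b
      rw [abs_le]; constructor <;> linarith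
    rw [avg_add, avg_q le_rfl, avg_q (by omega)] at h1
    refine h1.trans ?_
    rw [le_div_iff₀ (by positivity)]
    have : (s : ℝ) ^ 5 ≤ 400 ^ 5 := pow_le_pow_left₀ hs0.le (by exact_mod_cast hsm.le) 5
    linarith
  have e : ∀ b, |q (s + 1) b - q s b| ≤
      ∑ l ∈ range (s + 1), ‖∑ w ∈ (words s).filter (fun w => cnt w = l), W w ψ b‖ := by
    intro b
    refine le_trans (le_of_eq ?_) (norm_sum_le _ _)
    rw [sum_fiberwise_of_maps_to (g := cnt) (fun w hw => by
      have := cnt_le w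
      rw [mem_words.1 hw] at this
      exact mem_range.2 (by omega))]
    have : ∑ w ∈ words s, W w ψ b = ((q (s + 1) b - q s b : ℝ) : ℂ) := by
      rw [q_add s 1, q, ← sum_sub_distrib, Complex.ofReal_sum]
      apply sum_congr rfl; intro w _
      rw [← W_sub]
      unfold W
      split_ifs
      · rw [Complex.real_smul, smul_eq_mul, Complex.ofReal_mul]
      · simp
    rw [this, Complex.norm_real, Real.norm_eq_abs]
  refine (avg_mono _ e).trans ?_
  rw [avg_sum]
  refine (sum_le_sum (fun l hl => h s l (by omega) (by have := mem_range.1 hl; omega))).trans ?_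
  rw [sum_const, card_range, nsmul_eq_mul]
  have : ((s + 1 : ℕ) : ℝ) ≤ 2 * s := by exact_mod_cast (by omega : s + 1 ≤ 2 * s)
  calc _ ≤ 2 * s * (C / (s : ℝ) ^ 6) := mul_le_mul_of_nonneg_right this (by positivity)
    _ = 2 * C / (s : ℝ) ^ 5 := by field_simp
    _ ≤ _ := div_le_div_of_nonneg_right (by linarith [show (0 : ℝ) < 400 ^ 5 by positivity])
      (by positivity)

end Pool.Agent.P.MP_2b866c_nt.Back
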