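import Pool.Agent.P.MP_2b866c_nt.Back.Mix

/-!
The weighted mass of typical backward paths from a suitable starting point stays bounded below.
-/

set_option autoImplicit false

namespace Pool.Agent.P.MP_2b866c_nt.Back

open Finset

lemma sum_interval {k : ℕ} {g : ℤ → ℝ} (hg : Per k g) (h0 : ∀ b, 0 ≤ g b) (A : Finset ℤ) (y : ℤ)
    (L : ℕ) (hA : ∀ m ∈ A, y ≤ m ∧ m < y + L) : ∑ m ∈ A, g m ≤ (L + 3 ^ k) * avg k g := by
  set t := L / 3 ^ k + 1 with ht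
  have h3 : 0 < 3 ^ k := by positivity
  have hL : L < t * 3 ^ k := by rw [ht, mul_comm]; exact Nat.lt_mul_div_succ _ h3
  have hL2 : t * 3 ^ k ≤ L + 3 ^ k := by
    have := Nat.div_mul_le_self L (3 ^ k)
    rw [ht, add_mul]; omega
  have h1 : A ⊆ (range (t * 3 ^ k)).image (fun b : ℕ => y + b) := by
    intro m hm
    obtain ⟨h1, h2⟩ := hA m hm
    exact mem_image.2 ⟨(m - y).toNat, mem_range.2 (by omega), by omega⟩
  have h2 := sum_le_sum_of_subset_of_nonneg h1 (f := g) (fun m _ _ => h0 m)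
  rw [sum_image (fun a _ b _ h => by simpa using h), sum_periods hg] at h2
  refine h2.trans ?_
  have h4 : ∑ b ∈ range (3 ^ k), g b = 3 ^ k * avg k g := by
    unfold avg; rw [smul_eq_mul]; field_simp
  rw [h4, smul_eq_mul, ← mul_assoc]
  apply mul_le_mul_of_nonneg_right _ (avg_nonneg k h0)
  exact_mod_cast hL2

lemma pack {k s R : ℕ} {g : ℤ → ℝ} (hg : Per k g) (h0 : ∀ b, 0 ≤ g b) (P : Finset (List Bool))
    (hP : P ⊆ words s) (hF : ∀ w ∈ P, F w ≤ R * 2 ^ s) (hk : ∀ w ∈ P, 3 ^ (cnt w + k) ≤ 2 ^ s)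
    (b : ℤ) : ∑ w ∈ P, W w g b ≤ (s + 1) * ((R + 2) * avg k g) := by
  classical
  have ha := avg_nonneg k h0
  rw [← sum_fiberwise_of_maps_to (g := cnt) (t := range (s + 1)) (fun w hw => by
      have := cnt_le w
      rw [mem_words.1 (hP hw)] at this
      exact mem_range.2 (by omega))]
  have key : ∀ l ∈ range (s + 1), ∑ w ∈ P.filter (fun w => cnt w = l), W w g b ≤
      (R + 2) * avg k g := by
    intro l _
    rcases (P.filter (fun w => cnt w = l)).eq_empty_or_nonempty with he | ⟨w0, hw0⟩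
    · rw [he, sum_empty]; positivity
    have hlk : 3 ^ (l + k) ≤ 2 ^ s := by
      have := hk w0 (mem_filter.1 hw0).1
      rwa [(mem_filter.1 hw0).2] at this
    set Q := (P.filter (fun w => cnt w = l)).filter (fun w => adm w b) with hQ
    have hQm : ∀ w ∈ Q, w ∈ P ∧ cnt w = l ∧ w.length = s ∧
        3 ^ l * pt w b + F w = 2 ^ s * b := by
      intro w hw
      obtain ⟨h1, h2⟩ := mem_filter.1 hw
      obtain ⟨h3, h4⟩ := mem_filter.1 h1
      have h5 := mem_words.1 (hP h3)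
      refine ⟨h3, h4, h5, ?_⟩
      rw [← h4, ← h5]; exact pt_eq w b h2
    have e1 : ∑ w ∈ P.filter (fun w => cnt w = l), W w g b =
        3 ^ l / 2 ^ s * ∑ m ∈ Q.image (fun w => pt w b), g m := by
      rw [sum_image, mul_sum, hQ, sum_filter (s := P.filter _)]
      · apply sum_congr rfl; intro w hw
        unfold W wt
        rw [(mem_filter.1 hw).2, mem_words.1 (hP (mem_filter.1 hw).1), smul_eq_mul]
      · intro u hu v hv h
        obtain ⟨_, u2, u3, u4⟩ := hQm u hu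
        obtain ⟨_, v2, v3, v4⟩ := hQm v hv
        simp only at h
        rw [h] at u4
        exact F_inj u v (by omega) (by omega) (by omega)
    have h3l : (0 : ℤ) < 3 ^ l := by positivity
    have e2 := sum_interval hg h0 (Q.image (fun w => pt w b))
      (2 ^ s * b / 3 ^ l - (R * 2 ^ s / 3 ^ l : ℕ)) (R * 2 ^ s / 3 ^ l + 1) (by
        intro m hm
        obtain ⟨w, hw, rfl⟩ := mem_image.1 hm
        obtain ⟨w1, _, _, w4⟩ := hQm w hw
        have a1 : pt w b ≤ 2 ^ s * b / 3 ^ l := Int.le_ediv_of_mul_le h3l (by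
          have : (0 : ℤ) ≤ F w := Int.natCast_nonneg _
          linarith)
        have a2 : 2 ^ s * b / 3 ^ l * 3 ^ l ≤ 2 ^ s * b := Int.ediv_mul_le _ h3l.ne'
        have a3 : F w < 3 ^ l * (R * 2 ^ s / 3 ^ l + 1) :=
          lt_of_le_of_lt (hF w w1) (Nat.lt_mul_div_succ _ (by positivity))
        generalize R * 2 ^ s / 3 ^ l = L at *
        have a4 : (F w : ℤ) < 3 ^ l * (L + 1) := by exact_mod_cast a3
        have a5 : 3 ^ l * (2 ^ s * b / 3 ^ l - L - 1) < 3 ^ l * pt w b := by linarith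
        have a6 := lt_of_mul_lt_mul_left a5 h3l.le
        push_cast
        constructor <;> omega)
    rw [e1]
    refine (mul_le_mul_of_nonneg_left e2 (by positivity)).trans ?_
    rw [← mul_assoc]
    apply mul_le_mul_of_nonneg_right _ ha
    rw [div_mul_eq_mul_div, div_le_iff₀ (by positivity)]
    have b1 : 3 ^ l * (R * 2 ^ s / 3 ^ l) ≤ R * 2 ^ s := Nat.mul_div_le _ _
    have b2 : 3 ^ l ≤ 3 ^ (l + k) := Nat.pow_le_pow_right (by norm_num) (by omega)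
    have b3 : 3 ^ l * ((R * 2 ^ s / 3 ^ l + 1) + 3 ^ k) ≤ (R + 2) * 2 ^ s := by
      rw [pow_add] at hlk b2
      rw [mul_add, mul_add, add_mul]; omega
    exact_mod_cast b3
  refine (sum_le_sum key).trans ?_
  rw [sum_const, card_range, nsmul_eq_mul]; push_cast; exact le_rfl

/-- Total variation of `q` between two indices. -/
noncomputable def osc (a c : ℕ) (b : ℤ) : ℝ := ∑ j ∈ Ico a c, |q (j + 1) b - q j b|

lemma osc_nonneg (a c : ℕ) (b : ℤ) : 0 ≤ osc a c b := sum_nonneg (fun _ _ => abs_nonneg _)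

lemma abs_le_osc {a c : ℕ} (h : a ≤ c) (b : ℤ) : |q c b - q a b| ≤ osc a c b := by
  unfold osc
  rw [← sum_Ico_sub (fun j => q j b) h]
  exact abs_sum_le_sum_abs _ _

lemma osc_mono (a : ℕ) {c c' : ℕ} (h : c ≤ c') (b : ℤ) : osc a c b ≤ osc a c' b :=
  sum_le_sum_of_subset_of_nonneg (Ico_subset_Ico_right h) (fun _ _ _ => abs_nonneg _)

lemma per_osc (a : ℕ) {c K : ℕ} (h : c ≤ K) : Per K (osc a c) := by
  apply Per.sum; intro j hj
  have := (mem_Ico.1 hj).2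
  exact (per_q (by omega : j + 1 ≤ K)).comp₂ (per_q (by omega : j ≤ K)) (fun x y => |x - y|)

lemma avg_osc : ∃ C : ℝ, 0 < C ∧ ∀ a c K : ℕ, 1 ≤ a → c ≤ K →
    avg K (osc a c) ≤ c * (C / (a : ℝ) ^ 5) ∧ avg K (osc a c) ≤ C / a := by
  obtain ⟨C, hC, h⟩ := mixing
  refine ⟨2 * C, by positivity, fun a c K ha hc => ?_⟩
  have ha0 : (0 : ℝ) < a := by exact_mod_cast ha
  have key : avg K (osc a c) ≤ ∑ j ∈ Ico a c, C / (j : ℝ) ^ 5 := by
    unfold osc
    rw [avg_sum]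
    apply sum_le_sum; intro j hj
    obtain ⟨h1, h2⟩ := mem_Ico.1 hj
    rw [avg_of_le ((per_q (le_refl (j + 1))).comp₂ (per_q (by omega : j ≤ j + 1))
      (fun x y => |x - y|)) (by omega)]
    exact h j (by omega)
  constructor
  · refine key.trans ?_
    calc _ ≤ ∑ _j ∈ Ico a c, 2 * C / (a : ℝ) ^ 5 := by
          apply sum_le_sum; intro j hj
          have : (a : ℝ) ≤ j := by exact_mod_cast (mem_Ico.1 hj).1
          exact div_le_div₀ (by positivity) (by linarith) (by positivity)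
            (pow_le_pow_left₀ ha0.le this 5)
      _ ≤ _ := by
          rw [sum_const, Nat.card_Ico, nsmul_eq_mul]
          apply mul_le_mul_of_nonneg_right _ (by positivity)
          exact_mod_cast Nat.sub_le c a
  · refine key.trans ?_
    have h2 := sum_Ioo_inv_sq_le (α := ℝ) (a - 1) c
    have e : Ioo (a - 1) c = Ico a c := by ext j; simp only [mem_Ioo, mem_Ico]; omega
    have e2 : ((a - 1 : ℕ) : ℝ) + 1 = a := by rw [Nat.cast_sub ha]; simp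
    rw [e, e2] at h2
    calc _ ≤ ∑ j ∈ Ico a c, C * ((j : ℝ) ^ 2)⁻¹ := by
          apply sum_le_sum; intro j hj
          have : (1 : ℝ) ≤ j := by exact_mod_cast ha.trans (mem_Ico.1 hj).1
          rw [← div_eq_mul_inv]
          exact div_le_div_of_nonneg_left hC.le (by positivity)
            (pow_le_pow_right₀ this (by norm_num))
      _ ≤ C * (2 / a) := by rw [← mul_sum]; exact mul_le_mul_of_nonneg_left h2 hC.le
      _ = _ := by ring

/-- Typical words of length `i^4`. -/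
def Pi (i : ℕ) : Finset (List Bool) := (words (i ^ 4)).filter
  (fun w => i ^ 4 ≤ 2 * cnt w + i ^ 3 ∧ 2 * cnt w ≤ i ^ 4 + i ^ 3 ∧ F w ≤ i ^ 4 * 2 ^ (i ^ 4))

lemma pow_key {i l k : ℕ} (hi : 244 ≤ i) (hl : 2 * l ≤ i ^ 4 + i ^ 3) (hk : k ≤ 30 * i ^ 3) :
    3 ^ (l + k) ≤ 2 ^ (i ^ 4) := by
  have h1 : 244 * i ^ 3 ≤ i ^ 4 := by
    rw [show i ^ 4 = i * i ^ 3 by ring]; exact Nat.mul_le_mul_right _ hi
  have h2 : (3 ^ (l + k)) ^ 8 ≤ (2 ^ (i ^ 4)) ^ 8 := by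
    calc (3 ^ (l + k)) ^ 8 = 3 ^ (8 * (l + k)) := by rw [← pow_mul, mul_comm]
      _ ≤ 3 ^ (5 * i ^ 4) := Nat.pow_le_pow_right (by norm_num) (by omega)
      _ = 243 ^ (i ^ 4) := by rw [pow_mul]; norm_num
      _ ≤ 256 ^ (i ^ 4) := Nat.pow_le_pow_left (by norm_num) _
      _ = (2 ^ (i ^ 4)) ^ 8 := by rw [← pow_mul, mul_comm, pow_mul]; norm_num
  exact (Nat.pow_le_pow_iff_left (by norm_num)).1 h2

lemma pack_Pi {i : ℕ} (hi : 244 ≤ i) {g : ℤ → ℝ} (hg : Per (30 * i ^ 3) g) (h0 : ∀ b, 0 ≤ g b)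
    (b : ℤ) : ∑ w ∈ Pi i, W w g b ≤ 6 * (i : ℝ) ^ 8 * avg (30 * i ^ 3) g := by
  have h := pack (R := i ^ 4) hg h0 (Pi i) (filter_subset _ _)
    (fun w hw => (mem_filter.1 hw).2.2.2)
    (fun w hw => pow_key hi (mem_filter.1 hw).2.2.1 le_rfl) b
  refine h.trans ?_
  rw [← mul_assoc]
  apply mul_le_mul_of_nonneg_right _ (avg_nonneg _ h0)
  have h1 : (1 : ℝ) ≤ (i : ℝ) ^ 4 := one_le_pow₀ (by exact_mod_cast (by omega : 1 ≤ i))
  push_cast
  rw [show (i : ℝ) ^ 8 = (i : ℝ) ^ 4 * (i : ℝ) ^ 4 by ring]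
  nlinarith

lemma block : ∃ C : ℝ, 0 < C ∧ ∀ i n k' : ℕ, 244 ≤ i → i ^ 3 ≤ n + k' → n + k' ≤ 30 * i ^ 3 →
    ∀ V : Finset (List Bool), V ⊆ words n → ∀ b : ℤ,
      ∑ u ∈ Pi i, W u (q (i ^ 3)) b ≤ ∑ u ∈ Pi i, ∑ v ∈ V, W (u ++ v) (q k') b +
        6 * (i : ℝ) ^ 8 * (C / (i : ℝ) ^ 12 + ((words n \ V).card : ℝ) / 2 ^ n) := by
  obtain ⟨C, hC, h⟩ := avg_osc
  refine ⟨30 * C, by positivity, fun i n k' hi h1 h2 V hV b => ?_⟩
  have hi0 : (0 : ℝ) < i := by exact_mod_cast (by omega : 0 < i)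
  set g2 : ℤ → ℝ := fun x => ∑ v ∈ words n \ V, W v (q k') x with hg2
  have e1 : ∀ x, q (i ^ 3) x ≤ (∑ v ∈ V, W v (q k') x) + (osc (i ^ 3) (n + k') x + g2 x) := by
    intro x
    have a1 := (abs_le.1 (abs_le_osc h1 x)).1
    have a2 := q_add n k' x
    rw [← sum_sdiff hV] at a2
    simp only [hg2]
    linarith
  have pg2 : Per (30 * i ^ 3) g2 := (per_q le_rfl).sum_W _ sdiff_subset (by omega)
  have ng2 : ∀ x, 0 ≤ g2 x := fun x => sum_nonneg (fun v _ => W_nonneg v (q_nonneg k') x)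
  have e2 := pack_Pi hi ((per_osc (i ^ 3) h2).comp₂ pg2 (fun x y => x + y))
    (fun x => add_nonneg (osc_nonneg _ _ x) (ng2 x)) b
  rw [avg_add, hg2, avg_sum_W (per_q le_rfl) _ sdiff_subset (by omega), avg_q le_rfl, smul_eq_mul,
    mul_one] at e2
  have e3 : avg (30 * i ^ 3) (osc (i ^ 3) (n + k')) ≤ 30 * C / (i : ℝ) ^ 12 := by
    refine (h (i ^ 3) (n + k') _ (Nat.one_le_pow _ _ (by omega)) h2).1.trans ?_
    have : ((n + k' : ℕ) : ℝ) ≤ 30 * (i : ℝ) ^ 3 := by exact_mod_cast h2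
    calc _ ≤ 30 * (i : ℝ) ^ 3 * (C / ((i ^ 3 : ℕ) : ℝ) ^ 5) :=
          mul_le_mul_of_nonneg_right this (by positivity)
      _ = _ := by push_cast; field_simp
  calc _ ≤ ∑ u ∈ Pi i, W u (fun x => (∑ v ∈ V, W v (q k') x) +
          (osc (i ^ 3) (n + k') x + g2 x)) b := sum_le_sum (fun u _ => W_mono u e1 b)
    _ = ∑ u ∈ Pi i, ∑ v ∈ V, W (u ++ v) (q k') b +
          ∑ u ∈ Pi i, W u (fun x => osc (i ^ 3) (n + k') x + g2 x) b := by
        rw [← sum_add_distrib]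
        apply sum_congr rfl; intro u _
        rw [W_add, W_sum]
        simp only [W_append]
    _ ≤ _ := by
        apply add_le_add le_rfl (e2.trans _)
        apply mul_le_mul_of_nonneg_left _ (by positivity)
        linarith

lemma sum_pair_le {a : ℕ} (U V P : Finset (List Bool)) (hU : U ⊆ words a)
    (h : ∀ u ∈ U, ∀ v ∈ V, u ++ v ∈ P) (φ : List Bool → ℝ) (h0 : ∀ w, 0 ≤ φ w) :
    ∑ u ∈ U, ∑ v ∈ V, φ (u ++ v) ≤ ∑ w ∈ P, φ w := by
  rw [← sum_product', ← sum_image (s := U ×ˢ V) (g := fun x => x.1 ++ x.2) (f := φ)]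
  · apply sum_le_sum_of_subset_of_nonneg _ (fun w _ _ => h0 w)
    intro w hw
    obtain ⟨x, hx, rfl⟩ := mem_image.1 hw
    exact h _ (mem_product.1 hx).1 _ (mem_product.1 hx).2
  · intro x hx y hy hxy
    have h1 := mem_words.1 (hU (mem_product.1 hx).1)
    have h2 := mem_words.1 (hU (mem_product.1 hy).1)
    obtain ⟨h3, h4⟩ := List.append_inj hxy (h1.trans h2.symm)
    exact Prod.ext h3 h4

lemma mass_step : ∃ C : ℝ, 0 < C ∧ ∀ i : ℕ, 244 ≤ i → ∀ b : ℤ,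
    ∑ u ∈ Pi i, W u (q (i ^ 3)) b ≤ ∑ u ∈ Pi (i + 1), W u (q ((i + 1) ^ 3)) b + C / (i : ℝ) ^ 2 := by
  obtain ⟨C, hC, h⟩ := block
  obtain ⟨C3, hC3, hE⟩ := exp_le_pow (3 / 10) (by norm_num) 10
  refine ⟨6 * C + 12 * C3, by positivity, fun i hi b => ?_⟩
  have hi0 : (0 : ℝ) < i := by exact_mod_cast (by omega : 0 < i)
  have hi1 : (1 : ℝ) ≤ i := by exact_mod_cast (by omega : 1 ≤ i)
  obtain ⟨n, hn⟩ : ∃ n, n = 4 * i ^ 3 + 6 * i ^ 2 + 4 * i + 1 := ⟨_, rfl⟩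
  have hn4 : (i + 1) ^ 4 = i ^ 4 + n := by rw [hn]; ring
  have hn3 : (i + 1) ^ 3 = i ^ 3 + 3 * i ^ 2 + 3 * i + 1 := by ring
  have p1 : 244 * i ≤ i ^ 2 := by rw [pow_two]; exact Nat.mul_le_mul_right _ hi
  have p2 : 244 * i ^ 2 ≤ i ^ 3 := by
    rw [show i ^ 3 = i * i ^ 2 by ring]; exact Nat.mul_le_mul_right _ hi
  have hn5 : n ≤ 5 * i ^ 3 := by omega
  set V := (words n).filter (fun v => n ≤ 2 * cnt v + 2 * i ^ 2 ∧ 2 * cnt v ≤ n + 2 * i ^ 2) with hV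
  have b1 := h i n ((i + 1) ^ 3) hi (by omega) (by omega) V (filter_subset _ _) b
  have b2 := sum_pair_le (Pi i) V (Pi (i + 1)) (filter_subset _ _) (by
    intro u hu v hv
    obtain ⟨u0, u1, u2, u3⟩ := mem_filter.1 hu
    obtain ⟨v0, v1, v2⟩ := mem_filter.1 hv
    have u0' := mem_words.1 u0
    have v0' := mem_words.1 v0
    refine mem_filter.2 ⟨mem_words.2 (by rw [List.length_append]; omega), ?_, ?_, ?_⟩
    · rw [cnt_append]; omega
    · rw [cnt_append]; omega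
    · rw [F_append, v0', hn4, pow_add 2 (i ^ 4) n]
      have a1 : F v ≤ 3 ^ n := by
        have := F_le v
        rw [v0'] at this
        exact le_trans (Nat.le_add_right _ _) this
      have a2 : 3 ^ (cnt u + n) ≤ 2 ^ (i ^ 4) := pow_key hi u2 (by omega)
      have a3 : 3 ^ cnt u * F v ≤ 2 ^ (i ^ 4) * 2 ^ n := by
        calc _ ≤ 3 ^ cnt u * 3 ^ n := Nat.mul_le_mul_left _ a1
          _ ≤ 2 ^ (i ^ 4) := by rw [← pow_add]; exact a2
          _ ≤ _ := Nat.le_mul_of_pos_right _ (by positivity)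
      have a4 : 2 ^ n * F u ≤ i ^ 4 * (2 ^ (i ^ 4) * 2 ^ n) := by
        calc _ ≤ 2 ^ n * (i ^ 4 * 2 ^ (i ^ 4)) := Nat.mul_le_mul_left _ u3
          _ = _ := by ring
      have a5 : 1 * (2 ^ (i ^ 4) * 2 ^ n) ≤ n * (2 ^ (i ^ 4) * 2 ^ n) :=
        Nat.mul_le_mul_right _ (by omega)
      rw [add_mul]; linarith) (fun w => W w (q ((i + 1) ^ 3)) b)
      (fun w => W_nonneg w (q_nonneg _) b)
  have b3 := card_tail (words n \ V) sdiff_subset (1 / (5 * i)) (2 * i ^ 2) (by positivity) (by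
    intro w hw
    obtain ⟨w1, w2⟩ := mem_sdiff.1 hw
    have w3 : 2 * cnt w + 2 * i ^ 2 < n ∨ n + 2 * i ^ 2 < 2 * cnt w := by
      by_contra hc
      exact w2 (mem_filter.2 ⟨w1, by omega, by omega⟩)
    rcases w3 with w3 | w3
    · have : 2 * (cnt w : ℝ) + 2 * (i : ℝ) ^ 2 < n := by exact_mod_cast w3
      exact le_trans (by linarith) (neg_le_abs _)
    · have : (n : ℝ) + 2 * (i : ℝ) ^ 2 < 2 * cnt w := by exact_mod_cast w3
      exact le_trans (by linarith) (le_abs_self _))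
  have b4 : Real.exp (n * (1 / (5 * (i : ℝ))) ^ 2 / 2 - 1 / (5 * i) * (2 * i ^ 2)) ≤
      C3 / (i : ℝ) ^ 10 := by
    refine le_trans (Real.exp_le_exp.2 ?_) (hE i hi0)
    have a1 : (n : ℝ) ≤ 5 * (i : ℝ) ^ 3 := by exact_mod_cast hn5
    have a2 : (n : ℝ) * (1 / (5 * (i : ℝ))) ^ 2 ≤ 5 * (i : ℝ) ^ 3 * (1 / (5 * (i : ℝ))) ^ 2 :=
      mul_le_mul_of_nonneg_right a1 (by positivity)
    have a3 : 5 * (i : ℝ) ^ 3 * (1 / (5 * (i : ℝ))) ^ 2 = i / 5 := by field_simp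
    have a4 : 1 / (5 * (i : ℝ)) * (2 * i ^ 2) = 2 * i / 5 := by field_simp
    linarith
  have b5 : 6 * (i : ℝ) ^ 8 * (C / (i : ℝ) ^ 12 + ((words n \ V).card : ℝ) / 2 ^ n) ≤
      (6 * C + 12 * C3) / (i : ℝ) ^ 2 := by
    have a1 : C / (i : ℝ) ^ 12 ≤ C / (i : ℝ) ^ 10 :=
      div_le_div_of_nonneg_left hC.le (by positivity) (pow_le_pow_right₀ hi1 (by norm_num))
    calc _ ≤ 6 * (i : ℝ) ^ 8 * (C / (i : ℝ) ^ 10 + 2 * (C3 / (i : ℝ) ^ 10)) :=
          mul_le_mul_of_nonneg_left (by linarith) (by positivity)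
      _ = _ := by field_simp; ring
  linarith

lemma card_Pi {i : ℕ} (hi : 244 ≤ i) : (1 : ℝ) / 2 ≤ ((Pi i).card : ℝ) / 2 ^ (i ^ 4) := by
  have hi0 : (0 : ℝ) < i := by exact_mod_cast (by omega : 0 < i)
  set B1 := (words (i ^ 4)).filter (fun w => ¬ (i ^ 4 ≤ 2 * cnt w + i ^ 3 ∧
    2 * cnt w ≤ i ^ 4 + i ^ 3)) with hB1
  set B2 := (words (i ^ 4)).filter (fun w => i ^ 4 * 2 ^ (i ^ 4) ≤ F w) with hB2
  have h1 : (words (i ^ 4)).card ≤ (Pi i).card + B1.card + B2.card := by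
    refine le_trans (card_le_card (t := Pi i ∪ B1 ∪ B2) ?_)
      ((card_union_le _ _).trans (add_le_add (card_union_le _ _) le_rfl))
    intro w hw
    simp only [Pi, hB1, hB2, mem_union, mem_filter, hw, true_and]
    omega
  rw [card_words] at h1
  have h1' : (2 : ℝ) ^ (i ^ 4) ≤ (Pi i).card + B1.card + B2.card := by exact_mod_cast h1
  have h2 := card_F B2 (filter_subset _ _) (i ^ 4) (by positivity) (fun w hw => (mem_filter.1 hw).2)
  have h3 := card_tail B1 (filter_subset _ _) (1 / i) (i ^ 3) (by positivity) (by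
    intro w hw
    have w3 : 2 * cnt w + i ^ 3 < i ^ 4 ∨ i ^ 4 + i ^ 3 < 2 * cnt w := by
      have := (mem_filter.1 hw).2; omega
    push_cast
    rcases w3 with w3 | w3
    · have : 2 * (cnt w : ℝ) + (i : ℝ) ^ 3 < i ^ 4 := by exact_mod_cast w3
      exact le_trans (by linarith) (neg_le_abs _)
    · have : (i : ℝ) ^ 4 + (i : ℝ) ^ 3 < 2 * cnt w := by exact_mod_cast w3
      exact le_trans (by linarith) (le_abs_self _))
  rw [show ((i ^ 4 : ℕ) : ℝ) * (1 / (i : ℝ)) ^ 2 / 2 - 1 / i * i ^ 3 = -((i : ℝ) ^ 2 / 2) by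
    push_cast; field_simp; ring] at h3
  have h4 : Real.exp (-((i : ℝ) ^ 2 / 2)) ≤ 1 / 8 := by
    have a1 : (244 : ℝ) ≤ i := by exact_mod_cast hi
    have a2 := Real.add_one_le_exp ((i : ℝ) ^ 2 / 2)
    rw [Real.exp_neg, ← one_div]
    apply one_div_le_one_div_of_le (by norm_num)
    nlinarith
  have h5 : ((i ^ 4 : ℕ) : ℝ) / (4 * ((i ^ 4 : ℕ) : ℝ)) = 1 / 4 := by push_cast; field_simp
  rw [h5] at h2
  have hp : (0 : ℝ) < 2 ^ (i ^ 4) := by positivity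
  rw [div_le_iff₀ hp] at h2 h3
  rw [le_div_iff₀ hp]
  nlinarith

lemma cnt_zero_of_dvd (w : List Bool) : ∀ b : ℤ, (3 : ℤ) ∣ b → adm w b → cnt w = 0 := by
  induction w with
  | nil => intro _ _ _; rfl
  | cons a w ih =>
    intro b hb h
    cases a
    · exact ih (2 * b) (hb.mul_left 2) h
    · have := h.1; omega

lemma four_pow_three_pow (K : ℕ) : ∃ t : ℤ, (2 : ℤ) ^ (2 * 3 ^ K) = 1 + 3 ^ (K + 1) * (1 + 3 * t) := by
  induction K with
  | zero => exact ⟨0, by norm_num⟩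
  | succ K ih =>
    obtain ⟨t, ht⟩ := ih
    refine ⟨t + 3 ^ K * (1 + 3 * t) ^ 2 + 3 ^ K * 3 ^ K * (1 + 3 * t) ^ 3, ?_⟩
    rw [pow_succ 3 K, ← mul_assoc, pow_mul, ht]; ring

lemma pow_two_surj (a r : ℤ) (ha : ¬ (3 : ℤ) ∣ a) (hr : ¬ (3 : ℤ) ∣ r) (J K : ℕ) :
    ∃ j, J ≤ j ∧ (3 : ℤ) ^ (K + 1) ∣ 2 ^ j * a - r := by
  induction K with
  | zero =>
    have h2 : ¬ (3 : ℤ) ∣ 2 ^ J * a := by
      intro h
      rcases (Int.prime_three.dvd_mul).1 h with h | h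
      · have := Int.prime_three.dvd_of_dvd_pow h; omega
      · exact ha h
    by_cases h : (3 : ℤ) ∣ 2 ^ J * a - r
    · exact ⟨J, le_rfl, by simpa using h⟩
    · refine ⟨J + 1, by omega, ?_⟩
      rw [zero_add, pow_one, pow_succ', mul_assoc]
      generalize 2 ^ J * a = x at *
      have b1 : x % 3 = 1 ∨ x % 3 = 2 := by omega
      have b2 : r % 3 = 1 ∨ r % 3 = 2 := by omega
      rcases b1 with b1 | b1 <;> rcases b2 with b2 | b2 <;> omega
  | succ K ih =>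
    obtain ⟨j, hj, c, hc⟩ := ih
    obtain ⟨t, ht⟩ := four_pow_three_pow K
    have step : ∀ (j : ℕ) (c : ℤ), 2 ^ j * a - r = 3 ^ (K + 1) * c →
        ∃ e : ℤ, 2 ^ (j + 2 * 3 ^ K) * a - r = 3 ^ (K + 1) * (c + r + 3 * e) := by
      intro j c hc
      refine ⟨3 ^ K * c + t * (2 ^ j * a), ?_⟩
      rw [pow_add (2 : ℤ) j, ht]
      linear_combination (1 + 3 ^ (K + 1)) * hc
    obtain ⟨e1, h1⟩ := step j c hc
    obtain ⟨e2, h2⟩ := step _ _ h1
    have fin : ∀ (j : ℕ) (c : ℤ), 2 ^ j * a - r = 3 ^ (K + 1) * c → (3 : ℤ) ∣ c →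
        (3 : ℤ) ^ (K + 1 + 1) ∣ 2 ^ j * a - r := by
      intro j c hc h
      rw [hc, pow_succ _ (K + 1)]
      exact mul_dvd_mul_left _ h
    have : (3 : ℤ) ∣ c ∨ (3 : ℤ) ∣ c + r + 3 * e1 ∨ (3 : ℤ) ∣ c + r + 3 * e1 + r + 3 * e2 := by
      have b1 : c % 3 = 0 ∨ c % 3 = 1 ∨ c % 3 = 2 := by omega
      have b2 : r % 3 = 1 ∨ r % 3 = 2 := by omega
      rcases b1 with b1 | b1 | b1 <;> rcases b2 with b2 | b2 <;> omega
    rcases this with h | h | h
    · exact ⟨j, hj, fin _ _ hc h⟩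
    · exact ⟨_, by omega, fin _ _ h1 h⟩
    · exact ⟨_, by omega, fin _ _ h2 h⟩

theorem mass : ∃ i0 : ℕ, 244 ≤ i0 ∧ ∀ a : ℤ, ¬ (3 : ℤ) ∣ a → ∀ J : ℕ, ∃ j, J ≤ j ∧
    ∀ i, i0 ≤ i → 1 / 4 ≤ ∑ u ∈ Pi i, W u (q (i ^ 3)) (2 ^ j * a) := by
  obtain ⟨C, hC, hstep⟩ := mass_step
  obtain ⟨i0, hi0⟩ : ∃ i0, i0 = ⌈4 * C⌉₊ + 244 := ⟨_, rfl⟩
  refine ⟨i0, by omega, fun a ha J => ?_⟩
  set f : ℤ → ℝ := fun b => ∑ u ∈ Pi i0, W u (q (i0 ^ 3)) b with hf
  obtain ⟨K, hK⟩ : ∃ K, i0 ^ 3 + i0 ^ 4 = K + 1 :=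
    ⟨i0 ^ 3 + i0 ^ 4 - 1, by have := Nat.one_le_pow 3 i0 (by omega); omega⟩
  have hper : Per (K + 1) f := (per_q le_rfl).sum_W _ (filter_subset _ _) hK.le
  have havg : 1 / 2 ≤ avg (K + 1) f := by
    rw [hf, avg_sum_W (per_q le_rfl) (Pi i0) (filter_subset _ _) hK.le, avg_q le_rfl, smul_eq_mul,
      mul_one]
    exact card_Pi (by omega)
  obtain ⟨r, hr⟩ : ∃ r : ℤ, 1 / 2 ≤ f r := by
    by_contra hc
    push Not at hc
    have h1 : ∑ b ∈ range (3 ^ (K + 1)), f b < ∑ _b ∈ range (3 ^ (K + 1)), (1 / 2 : ℝ) :=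
      sum_lt_sum_of_nonempty ⟨0, mem_range.2 (by positivity)⟩ (fun b _ => hc b)
    have h2 : avg (K + 1) f < avg (K + 1) (fun _ => (1 / 2 : ℝ)) := by
      unfold avg
      exact smul_lt_smul_of_pos_left h1 (by positivity)
    rw [avg_const] at h2
    linarith
  have hr3 : ¬ (3 : ℤ) ∣ r := by
    intro h3
    have : f r = 0 := by
      apply sum_eq_zero; intro u hu
      unfold W
      rw [if_neg]
      intro hadm
      have a1 := cnt_zero_of_dvd u r h3 hadm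
      have a2 := (mem_filter.1 hu).2.1
      have a3 : 244 * i0 ^ 3 ≤ i0 ^ 4 := by
        rw [show i0 ^ 4 = i0 * i0 ^ 3 by ring]; exact Nat.mul_le_mul_right _ (by omega)
      have := Nat.one_le_pow 3 i0 (by omega)
      omega
    linarith
  obtain ⟨j, hj, c, hc⟩ := pow_two_surj a r ha hr3 J K
  refine ⟨j, hj, fun i hi => ?_⟩
  have hfb : f (2 ^ j * a) = f r := by
    rw [show 2 ^ j * a = r + c * 3 ^ (K + 1) by linarith, hper.add_mul]
  have main : ∀ i, i0 ≤ i → 1 / 4 + C / ((i : ℝ) - 1) ≤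
      ∑ u ∈ Pi i, W u (q (i ^ 3)) (2 ^ j * a) := by
    intro i hi
    induction i, hi using Nat.le_induction with
    | base =>
      have a1 : 4 * C ≤ (i0 : ℝ) - 1 := by
        have := Nat.le_ceil (4 * C)
        rw [hi0]; push_cast; linarith
      have a2 : C / ((i0 : ℝ) - 1) ≤ 1 / 4 := by
        rw [div_le_div_iff₀ (by linarith) (by norm_num)]; linarith
      have : f (2 ^ j * a) = ∑ u ∈ Pi i0, W u (q (i0 ^ 3)) (2 ^ j * a) := rfl
      linarith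
    | succ i hi ih =>
      have a1 := hstep i (by omega) (2 ^ j * a)
      have a2 : (244 : ℝ) ≤ i := by exact_mod_cast (by omega : 244 ≤ i)
      have a3 : C / (((i + 1 : ℕ) : ℝ) - 1) + C / (i : ℝ) ^ 2 ≤ C / ((i : ℝ) - 1) := by
        push_cast
        rw [add_sub_cancel_right, div_add_div _ _ (by positivity) (by positivity),
          div_le_div_iff₀ (by positivity) (by linarith)]
        have : 0 ≤ C * i := by positivity
        nlinarith
      linarith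
  have a2 : (244 : ℝ) ≤ i := by exact_mod_cast (by omega : 244 ≤ i)
  have : 0 ≤ C / ((i : ℝ) - 1) := div_nonneg hC.le (by linarith)
  linarith [main i hi]

end Pool.Agent.P.MP_2b866c_nt.Back
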