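import Pool.Agent.P.MP_2b866c_nt.Back.Binom

/-!
Backward paths of the map `T(m) = m/2` or `(3m+1)/2`, coded by binary words, the weighted
path operators `W w`, and averages over residue classes modulo powers of three.
-/

set_option autoImplicit false

namespace Pool.Agent.P.MP_2b866c_nt.Back

open Finset

/-- Binary words of length `n`. -/
def words : ℕ → Finset (List Bool)
  | 0 => {[]}
  | n + 1 => (words n).image (List.cons false) ∪ (words n).image (List.cons true)

lemma mem_words {n : ℕ} : ∀ {w : List Bool}, w ∈ words n ↔ w.length = n := by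
  induction n with
  | zero => intro w; simp [words]
  | succ n ih =>
    intro w
    cases w with
    | nil => simp [words]
    | cons a w => cases a <;> simp [words, ih]

lemma sum_words_succ {M : Type*} [AddCommMonoid M] (n : ℕ) (f : List Bool → M) :
    ∑ w ∈ words (n + 1), f w = ∑ w ∈ words n, f (false :: w) + ∑ w ∈ words n, f (true :: w) := by
  rw [words, sum_union, sum_image, sum_image]
  · intro a _ b _ h; exact List.cons_injective h
  · intro a _ b _ h; exact List.cons_injective h
  · rw [disjoint_left]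
    intro w h1 h2
    obtain ⟨a, _, rfl⟩ := mem_image.1 h1
    obtain ⟨b, _, hb⟩ := mem_image.1 h2
    simp at hb

lemma sum_words_add {M : Type*} [AddCommMonoid M] (a b : ℕ) : ∀ (f : List Bool → M),
    ∑ w ∈ words (a + b), f w = ∑ u ∈ words a, ∑ v ∈ words b, f (u ++ v) := by
  induction a with
  | zero => intro f; simp [words]
  | succ a ih =>
    intro f
    rw [show a + 1 + b = (a + b) + 1 by omega, sum_words_succ, sum_words_succ, ih, ih]
    rfl

lemma card_words (n : ℕ) : (words n).card = 2 ^ n := by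
  induction n with
  | zero => simp [words]
  | succ n ih =>
    have := sum_words_succ n (fun _ => (1 : ℕ))
    simp only [sum_const, smul_eq_mul, mul_one, ih] at this
    rw [this]; ring

/-- Number of odd steps. -/
def cnt : List Bool → ℕ
  | [] => 0
  | false :: w => cnt w
  | true :: w => cnt w + 1

/-- The offset of a path. -/
def F : List Bool → ℕ
  | [] => 0
  | false :: w => F w
  | true :: w => 2 ^ w.length + 3 * F w

/-- End point of the backward path. -/
def pt : List Bool → ℤ → ℤ
  | [], b => b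
  | false :: w, b => pt w (2 * b)
  | true :: w, b => pt w ((2 * b - 1) / 3)

/-- The backward path exists. -/
def adm : List Bool → ℤ → Prop
  | [], _ => True
  | false :: w, b => adm w (2 * b)
  | true :: w, b => b % 3 = 2 ∧ adm w ((2 * b - 1) / 3)

noncomputable def wt (w : List Bool) : ℝ := 3 ^ cnt w / 2 ^ w.length

lemma wt_pos (w : List Bool) : 0 < wt w := by unfold wt; positivity

lemma cnt_le (w : List Bool) : cnt w ≤ w.length := by
  induction w with
  | nil => simp [cnt]
  | cons a w ih => cases a <;> simp [cnt] <;> omega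

lemma cnt_append (u v : List Bool) : cnt (u ++ v) = cnt u + cnt v := by
  induction u with
  | nil => simp [cnt]
  | cons a u ih => cases a <;> simp [cnt, ih]; omega

lemma F_append (u v : List Bool) : F (u ++ v) = 2 ^ v.length * F u + 3 ^ cnt u * F v := by
  induction u with
  | nil => simp [cnt, F]
  | cons a u ih => cases a <;> simp [cnt, F, ih]; ring

lemma pt_append (u v : List Bool) : ∀ b, pt (u ++ v) b = pt v (pt u b) := by
  induction u with
  | nil => intro b; rfl
  | cons a u ih => intro b; cases a <;> simp [pt, ih]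

lemma adm_append (u v : List Bool) : ∀ b, adm (u ++ v) b ↔ adm u b ∧ adm v (pt u b) := by
  induction u with
  | nil => intro b; simp [adm, pt]
  | cons a u ih => intro b; cases a <;> simp [adm, pt, ih, and_assoc]

lemma wt_append (u v : List Bool) : wt (u ++ v) = wt u * wt v := by
  unfold wt; rw [cnt_append, List.length_append, pow_add, pow_add]; field_simp

lemma pt_eq (w : List Bool) : ∀ b, adm w b → 3 ^ cnt w * pt w b + F w = 2 ^ w.length * b := by
  induction w with
  | nil => intro b _; simp [cnt, pt, F]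
  | cons a w ih =>
    intro b h
    cases a
    · have := ih _ h
      simp only [cnt, pt, F, List.length_cons]
      rw [this]; ring
    · have h1 := ih _ h.2
      have h2 : 3 * ((2 * b - 1) / 3) = 2 * b - 1 := by have := h.1; omega
      simp only [cnt, pt, F, List.length_cons]
      push_cast
      linear_combination 3 * h1 + 2 ^ w.length * h2

lemma F_le (w : List Bool) : F w + 2 ^ w.length ≤ 3 ^ w.length := by
  induction w with
  | nil => simp [F]
  | cons a w ih =>
    have : 2 ^ w.length ≤ 3 ^ w.length := Nat.pow_le_pow_left (by norm_num) _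
    cases a <;> simp only [F, List.length_cons, pow_succ] <;> omega

lemma F_inj (u : List Bool) : ∀ v : List Bool, u.length = v.length → cnt u = cnt v → F u = F v →
    u = v := by
  induction u using List.reverseRecOn with
  | nil => intro v h _ _; exact (List.eq_nil_of_length_eq_zero h.symm).symm
  | append_singleton u a ih =>
    intro v hl hc hF
    rcases List.eq_nil_or_concat v with rfl | ⟨v, b, rfl⟩
    · simp at hl
    rw [List.concat_eq_append] at *
    have hl' : u.length = v.length := by simpa using hl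
    have o1 : 3 ^ cnt u % 2 = 1 := Nat.odd_iff.1 (Odd.pow (by decide))
    have o2 : 3 ^ cnt v % 2 = 1 := Nat.odd_iff.1 (Odd.pow (by decide))
    rw [cnt_append, cnt_append] at hc
    rw [F_append, F_append] at hF
    cases a <;> cases b <;> simp [cnt, F] at hc hF
    · rw [ih v hl' hc hF]
    · omega
    · omega
    · rw [hc] at hF
      rw [ih v hl' hc (by omega)]

section general
variable {E : Type*} [AddCommGroup E] [Module ℝ E]

open Classical in
/-- Weighted evaluation at the end point of the backward path. -/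
noncomputable def W (w : List Bool) (f : ℤ → E) (b : ℤ) : E :=
  if adm w b then wt w • f (pt w b) else 0

lemma W_nil (f : ℤ → E) : W [] f = f := by
  funext b; simp [W, adm, wt, cnt, pt]

lemma W_append (u v : List Bool) (f : ℤ → E) : W (u ++ v) f = W u (W v f) := by
  funext b
  unfold W
  rw [adm_append, wt_append, pt_append]
  by_cases h1 : adm u b <;> by_cases h2 : adm v (pt u b) <;> simp [h1, h2, mul_smul]

lemma W_false (f : ℤ → E) (b : ℤ) : W [false] f b = (1 / 2 : ℝ) • f (2 * b) := by
  simp [W, adm, wt, cnt, pt]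

lemma W_true (f : ℤ → E) (b : ℤ) :
    W [true] f b = if b % 3 = 2 then (3 / 2 : ℝ) • f ((2 * b - 1) / 3) else 0 := by
  simp [W, adm, wt, cnt, pt]

lemma W_add (w : List Bool) (f g : ℤ → E) (b : ℤ) :
    W w (fun x => f x + g x) b = W w f b + W w g b := by
  unfold W; split_ifs <;> simp

lemma W_sub (w : List Bool) (f g : ℤ → E) (b : ℤ) :
    W w (fun x => f x - g x) b = W w f b - W w g b := by
  unfold W; split_ifs <;> simp [smul_sub]

lemma W_sum {ι : Type*} (s : Finset ι) (w : List Bool) (f : ι → ℤ → E) (b : ℤ) :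
    W w (fun x => ∑ i ∈ s, f i x) b = ∑ i ∈ s, W w (f i) b := by
  unfold W; split_ifs <;> simp [smul_sum]

/-- Periodicity modulo `3^k`. -/
def Per (k : ℕ) {α : Type*} (f : ℤ → α) : Prop := Function.Periodic f ((3 : ℤ) ^ k)

lemma Per.mono {α : Type*} {k k' : ℕ} {f : ℤ → α} (h : Per k f) (hk : k ≤ k') : Per k' f := by
  obtain ⟨e, rfl⟩ := Nat.exists_eq_add_of_le hk
  have := Function.Periodic.int_mul h (3 ^ e)
  unfold Per
  rw [pow_add, mul_comm]
  simpa using this

lemma Per.add_mul {α : Type*} {k : ℕ} {f : ℤ → α} (h : Per k f) (b c : ℤ) :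
    f (b + c * 3 ^ k) = f b := by
  have := Function.Periodic.int_mul h c
  simpa using this b

lemma Per.comp {α β : Type*} {k : ℕ} {f : ℤ → α} (h : Per k f) (g : α → β) :
    Per k (fun b => g (f b)) := fun b => by simp only [h b]

lemma Per.comp₂ {α β γ : Type*} {k : ℕ} {f : ℤ → α} {f' : ℤ → β} (h : Per k f) (h' : Per k f')
    (g : α → β → γ) : Per k (fun b => g (f b) (f' b)) := fun b => by simp only [h b, h' b]

omit [Module ℝ E] in
lemma Per.sum {ι : Type*} {k : ℕ} (s : Finset ι) {f : ι → ℤ → E} (h : ∀ i ∈ s, Per k (f i)) :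
    Per k (fun b => ∑ i ∈ s, f i b) := fun b => sum_congr rfl (fun i hi => h i hi b)

lemma Per.const {α : Type*} (k : ℕ) (c : α) : Per k (fun _ => c) := fun _ => rfl

/-- Mean over the residues modulo `3^k`. -/
noncomputable def avg (k : ℕ) (f : ℤ → E) : E := (1 / 3 ^ k : ℝ) • ∑ b ∈ range (3 ^ k), f b

omit [Module ℝ E] in
lemma sum_range_zmod (N : ℕ) [NeZero N] (g : ZMod N → E) :
    ∑ b ∈ range N, g (b : ZMod N) = ∑ z, g z := by
  apply sum_nbij' (fun b : ℕ => (b : ZMod N)) (fun z : ZMod N => z.val)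
  · intro a _; exact mem_univ _
  · intro z _; exact mem_range.2 (ZMod.val_lt z)
  · intro a ha; exact ZMod.val_cast_of_lt (mem_range.1 ha)
  · intro z _; exact ZMod.natCast_zmod_val z
  · intro a _; rfl

omit [Module ℝ E] in
lemma sum_affine {k : ℕ} {f : ℤ → E} (h : Per k f) (a c : ℤ) (ha : IsCoprime a 3) :
    ∑ b ∈ range (3 ^ k), f (a * b + c) = ∑ b ∈ range (3 ^ k), f b := by
  have key : ∀ x : ℤ, f x = f (((x : ZMod (3 ^ k)).val : ℕ) : ℤ) := by
    intro x
    rw [ZMod.val_intCast]
    push_cast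
    rw [← h.add_mul (x % 3 ^ k) (x / 3 ^ k), Int.emod_add_ediv_mul]
  set g : ZMod (3 ^ k) → E := fun z => f ((z.val : ℕ) : ℤ) with hg
  have hu : IsUnit (a : ZMod (3 ^ k)) := by
    obtain ⟨x, y, hxy⟩ : IsCoprime a ((3 : ℤ) ^ k) := IsCoprime.pow_right ha
    have : ((x * a + y * 3 ^ k : ℤ) : ZMod (3 ^ k)) = 1 := by rw [hxy]; simp
    push_cast at this
    have h0 : (3 : ZMod (3 ^ k)) ^ k = 0 := by exact_mod_cast ZMod.natCast_self (3 ^ k)
    rw [h0, mul_zero, add_zero] at this
    exact IsUnit.of_mul_eq_one_right _ this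
  obtain ⟨u, hu⟩ := hu
  calc ∑ b ∈ range (3 ^ k), f (a * b + c)
      = ∑ b ∈ range (3 ^ k), g ((u : ZMod (3 ^ k)) * (b : ZMod (3 ^ k)) + c) := by
        apply sum_congr rfl; intro b _
        rw [key]; simp only [hg, hu]; push_cast; rfl
    _ = ∑ z, g ((u : ZMod (3 ^ k)) * z + c) :=
        sum_range_zmod (3 ^ k) (fun z => g ((u : ZMod (3 ^ k)) * z + c))
    _ = ∑ z, g z := by
        exact Fintype.sum_equiv ((Units.mulLeft u).trans (Equiv.addRight (c : ZMod (3 ^ k)))) _ _
          (fun z => rfl)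
    _ = ∑ b ∈ range (3 ^ k), g (b : ZMod (3 ^ k)) := (sum_range_zmod _ g).symm
    _ = _ := by
        apply sum_congr rfl; intro b _
        rw [key b]; simp only [hg]; push_cast; rfl

lemma sum_periods {k : ℕ} {f : ℤ → E} (h : Per k f) (t : ℕ) (y : ℤ) :
    ∑ b ∈ range (t * 3 ^ k), f (y + b) = (t : ℝ) • ∑ b ∈ range (3 ^ k), f b := by
  induction t with
  | zero => simp
  | succ t ih =>
    rw [Nat.succ_mul, sum_range_add, ih]
    have := sum_affine h 1 (y + (t * 3 ^ k : ℕ)) isCoprime_one_left
    push_cast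
    rw [add_smul, one_smul, ← this]
    congr 1
    apply sum_congr rfl; intro b _; congr 1; push_cast; ring

lemma avg_of_le {k k' : ℕ} {f : ℤ → E} (h : Per k f) (hk : k ≤ k') : avg k' f = avg k f := by
  obtain ⟨e, rfl⟩ := Nat.exists_eq_add_of_le hk
  unfold avg
  have := sum_periods h (3 ^ e) 0
  simp only [zero_add] at this
  rw [pow_add (3 : ℕ) k e, mul_comm ((3 : ℕ) ^ k), this, smul_smul]
  congr 1
  push_cast
  rw [pow_add]; field_simp

lemma avg_add (k : ℕ) (f g : ℤ → E) : avg k (fun b => f b + g b) = avg k f + avg k g := by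
  unfold avg; rw [sum_add_distrib, smul_add]

lemma avg_smul (k : ℕ) (c : ℝ) (f : ℤ → E) : avg k (fun b => c • f b) = c • avg k f := by
  unfold avg; rw [← smul_sum, smul_comm]

lemma avg_sum {ι : Type*} (k : ℕ) (s : Finset ι) (f : ι → ℤ → E) :
    avg k (fun b => ∑ i ∈ s, f i b) = ∑ i ∈ s, avg k (f i) := by
  unfold avg; rw [sum_comm, smul_sum]

lemma avg_const (k : ℕ) (c : E) : avg k (fun _ => c) = c := by
  unfold avg
  rw [sum_const, card_range, ← Nat.cast_smul_eq_nsmul ℝ, smul_smul]
  push_cast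
  rw [one_div, inv_mul_cancel₀ (by positivity), one_smul]

omit [Module ℝ E] in
lemma sum_range_three (M : ℕ) (h : ℕ → E) :
    ∑ b ∈ range (3 * M), h b = ∑ c ∈ range M, (h (3 * c) + h (3 * c + 1) + h (3 * c + 2)) := by
  induction M with
  | zero => simp
  | succ M ih =>
    rw [show 3 * (M + 1) = 3 * M + 1 + 1 + 1 by ring, sum_range_succ, sum_range_succ,
      sum_range_succ, ih, sum_range_succ]
    abel

lemma Per.W_false {k : ℕ} {f : ℤ → E} (h : Per k f) : Per k (W [false] f) := by
  intro b
  rw [Back.W_false, Back.W_false, mul_add, h.add_mul]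

lemma Per.W_true {k : ℕ} {f : ℤ → E} (h : Per k f) : Per (k + 1) (W [true] f) := by
  intro b
  rw [Back.W_true, Back.W_true, pow_succ]
  have e1 : (b + 3 ^ k * 3) % 3 = b % 3 := by omega
  have e2 : (2 * (b + 3 ^ k * 3) - 1) / 3 = (2 * b - 1) / 3 + 2 * 3 ^ k := by omega
  rw [e1, e2, h.add_mul]

lemma avg_W_false {k : ℕ} {f : ℤ → E} (h : Per k f) :
    avg k (W [false] f) = (1 / 2 : ℝ) • avg k f := by
  have := sum_affine h 2 0 (by norm_num [Int.isCoprime_iff_gcd_eq_one])
  unfold avg
  simp only [W_false, ← smul_sum, add_zero] at this ⊢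
  rw [this, smul_comm]

lemma avg_W_true {k : ℕ} {f : ℤ → E} (h : Per k f) :
    avg (k + 1) (W [true] f) = (1 / 2 : ℝ) • avg k f := by
  have := sum_affine h 2 1 (by norm_num [Int.isCoprime_iff_gcd_eq_one])
  unfold avg
  rw [pow_succ' (3 : ℕ) k, sum_range_three, ← this, smul_smul, smul_sum, smul_sum]
  apply sum_congr rfl
  intro c _
  simp only [W_true]
  rw [if_neg (by push_cast; omega), if_neg (by push_cast; omega), if_pos (by push_cast; omega),
    zero_add, zero_add, smul_smul]
  congr 1
  · rw [pow_succ]; field_simp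
  · congr 1; push_cast; omega

lemma Per.W {k : ℕ} {f : ℤ → E} (h : Per k f) (w : List Bool) : Per (k + cnt w) (W w f) := by
  induction w with
  | nil => rw [W_nil]; exact h
  | cons a w ih =>
    rw [show a :: w = [a] ++ w from rfl, W_append]
    cases a
    · exact ih.W_false
    · exact ih.W_true

lemma avg_W {k : ℕ} {f : ℤ → E} (h : Per k f) (w : List Bool) :
    avg (k + cnt w) (W w f) = (1 / 2 ^ w.length : ℝ) • avg k f := by
  induction w with
  | nil => rw [W_nil]; simp [cnt]
  | cons a w ih =>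
    have e : (1 / 2 ^ (a :: w).length : ℝ) = 1 / 2 * (1 / 2 ^ w.length) := by
      rw [List.length_cons, pow_succ]; field_simp
    rw [e, mul_smul, ← ih, show a :: w = [a] ++ w from rfl, W_append]
    cases a
    · exact avg_W_false (h.W w)
    · exact avg_W_true (h.W w)

lemma avg_W' {k K : ℕ} {f : ℤ → E} (h : Per k f) (w : List Bool) (hK : k + cnt w ≤ K) :
    avg K (W w f) = (1 / 2 ^ w.length : ℝ) • avg k f := by
  rw [avg_of_le (h.W w) hK, avg_W h]

lemma avg_sum_W {k K n : ℕ} {f : ℤ → E} (h : Per k f) (V : Finset (List Bool))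
    (hV : V ⊆ words n) (hK : k + n ≤ K) :
    avg K (fun b => ∑ w ∈ V, W w f b) = ((V.card : ℝ) / 2 ^ n) • avg k f := by
  rw [avg_sum, sum_congr rfl (g := fun _ => (1 / 2 ^ n : ℝ) • avg k f), sum_const,
    ← Nat.cast_smul_eq_nsmul ℝ, smul_smul, mul_one_div]
  intro w hw
  have hl := mem_words.1 (hV hw)
  rw [avg_W' h w (by have := cnt_le w; omega), hl]

lemma Per.sum_W {k K n : ℕ} {f : ℤ → E} (h : Per k f) (V : Finset (List Bool))
    (hV : V ⊆ words n) (hK : k + n ≤ K) : Per K (fun b => ∑ w ∈ V, Back.W w f b) := by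
  apply Per.sum
  intro w hw
  have hl := mem_words.1 (hV hw)
  exact (h.W w).mono (by have := cnt_le w; omega)

end general

lemma avg_mono (k : ℕ) {f g : ℤ → ℝ} (h : ∀ b, f b ≤ g b) : avg k f ≤ avg k g := by
  unfold avg
  exact smul_le_smul_of_nonneg_left (sum_le_sum (fun b _ => h b)) (by positivity)

lemma avg_nonneg (k : ℕ) {f : ℤ → ℝ} (h : ∀ b, 0 ≤ f b) : 0 ≤ avg k f := by
  have := avg_mono k (f := fun _ => 0) h
  rwa [avg_const] at this

lemma W_mono (w : List Bool) {f g : ℤ → ℝ} (h : ∀ b, f b ≤ g b) (b : ℤ) : W w f b ≤ W w g b := by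
  unfold W; split_ifs
  · exact smul_le_smul_of_nonneg_left (h _) (wt_pos w).le
  · exact le_rfl

lemma W_nonneg (w : List Bool) {f : ℤ → ℝ} (h : ∀ b, 0 ≤ f b) (b : ℤ) : 0 ≤ W w f b := by
  unfold W; split_ifs
  · exact smul_nonneg (wt_pos w).le (h _)
  · exact le_rfl

lemma norm_W {E : Type*} [NormedAddCommGroup E] [NormedSpace ℝ E] (w : List Bool) (f : ℤ → E)
    (b : ℤ) : ‖W w f b‖ = W w (fun x => ‖f x‖) b := by
  unfold W; split_ifs
  · rw [norm_smul, Real.norm_of_nonneg (wt_pos w).le, smul_eq_mul]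
  · simp

lemma Lam_words (n : ℕ) : ∀ g : ℕ → ℝ, (∑ w ∈ words n, g (cnt w)) / 2 ^ n = Lam n g := by
  induction n with
  | zero => intro g; simp [words, cnt, Lam]
  | succ n ih =>
    intro g
    rw [sum_words_succ, Lam_succ, ← ih, ← ih]
    simp only [cnt]
    rw [pow_succ]; field_simp

lemma card_tail {n : ℕ} (V : Finset (List Bool)) (hV : V ⊆ words n) (l t : ℝ) (hl : 0 ≤ l)
    (h : ∀ w ∈ V, t ≤ |2 * (cnt w : ℝ) - n|) :
    (V.card : ℝ) / 2 ^ n ≤ 2 * Real.exp (n * l ^ 2 / 2 - l * t) := by
  classical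
  refine le_trans ?_ (Lam_tail n l t hl (fun i => if t ≤ |2 * (i : ℝ) - n| then 1 else 0)
    (fun i => by split_ifs <;> norm_num) (fun i hi => by rw [if_neg (by linarith)]))
  rw [← Lam_words]
  apply div_le_div_of_nonneg_right _ (by positivity)
  calc (V.card : ℝ) = ∑ w ∈ V, (if t ≤ |2 * (cnt w : ℝ) - n| then (1 : ℝ) else 0) := by
        rw [sum_congr rfl (g := fun _ => (1 : ℝ)) (fun w hw => if_pos (h w hw))]; simp
    _ ≤ _ := sum_le_sum_of_subset_of_nonneg hV (fun w _ _ => by split_ifs <;> norm_num)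

lemma sum_F (n : ℕ) : 4 * ∑ w ∈ words n, F w = n * 4 ^ n := by
  induction n with
  | zero => simp [words, F]
  | succ n ih =>
    rw [sum_words_succ]
    simp only [F]
    have e : ∑ w ∈ words n, 2 ^ w.length = ∑ _w ∈ words n, 2 ^ n :=
      sum_congr rfl (fun w hw => by rw [mem_words.1 hw])
    rw [sum_add_distrib, ← mul_sum, e, sum_const, card_words, smul_eq_mul, ← mul_pow]
    rw [pow_succ]
    norm_num
    linarith

lemma card_F {n : ℕ} (V : Finset (List Bool)) (hV : V ⊆ words n) (R : ℕ) (hR : 0 < R)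
    (h : ∀ w ∈ V, R * 2 ^ n ≤ F w) : (V.card : ℝ) / 2 ^ n ≤ n / (4 * R) := by
  have h1 : V.card * (R * 2 ^ n) ≤ ∑ w ∈ words n, F w := by
    calc V.card * (R * 2 ^ n) = ∑ _w ∈ V, R * 2 ^ n := by simp
      _ ≤ ∑ w ∈ V, F w := sum_le_sum h
      _ ≤ _ := sum_le_sum_of_subset hV
  have h2 := sum_F n
  have h3 : 4 * (V.card * (R * 2 ^ n)) ≤ n * (2 ^ n * 2 ^ n) := by
    rw [← mul_pow]; norm_num; omega
  have h4 : 4 * ((V.card : ℝ) * (R * 2 ^ n)) ≤ n * (2 ^ n * 2 ^ n) := by exact_mod_cast h3
  have hR' : (0 : ℝ) < R := by exact_mod_cast hR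
  rw [div_le_div_iff₀ (by positivity) (by positivity)]
  have h2n : (0 : ℝ) < 2 ^ n := by positivity
  apply le_of_mul_le_mul_right _ h2n
  linarith

end Pool.Agent.P.MP_2b866c_nt.Back
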